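import Pool.Agent.BSM.Defs
import Pool.Agent.NPA.AOtp
import Pool.Agent.NPA.AWo
import Pool.Agent.NPA.ACh
import Pool.Agent.NPA.ANum
import Pool.Agent.NPA.ACtb

/-!
# NMB/IDefs: the tower inside a model of ZF, definitions

`XT c S η`, `η < κ`: a sequence of infinite subsets of `omega`, decreasing modulo finite sets.
The function `c` chooses a real `z = c(x, η)` for `x = XT c S η`; `Tz x z`, `z ∈ RS`, is an almost
disjoint family of subsets of `x`, and the next set is a canonical subset of `Tz x z`.
-/

universe u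

namespace Pool.Agent.ZFIter.NPA.BSM

open Pool.Agent.H78.ZF Pool.Agent.ZFIter Pool.Agent.ZFIter.NPA

variable {M : Type u} [ZFM M] {ι : Type}

/-- The projections of an ordered pair. -/
noncomputable def fs (w : M) : M := iota (fun a => ∃ b, w = opair a b)
noncomputable def sn (w : M) : M := iota (fun b => ∃ a, w = opair a b)

instance DF.fs (s : (ι → M) → M) [DF s] : DF (fun v => fs (s v)) := by
  unfold BSM.fs; infer_instance
instance DF.sn (s : (ι → M) → M) [DF s] : DF (fun v => sn (s v)) := by
  unfold BSM.sn; infer_instance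

/-- `x` is included in `y` modulo a finite set. -/
def AS (x y : M) : Prop := ∃ n, n ∈ (omega : M) ∧ ∀ k, k ∈ x → n ⊆ k → k ∈ y

instance DR.AS (x y : (ι → M) → M) [DF x] [DF y] : DR (fun v => AS (x v) (y v)) := by
  unfold BSM.AS; infer_instance

/-- The member with index `z` of the almost disjoint family on `x`. -/
noncomputable def Tz (x z : M) : M :=
  sep x (fun a => ∃ m, m ∈ (omega : M) ∧ otp x a = sq z (succ m))

instance DF.Tz (x z : (ι → M) → M) [DF x] [DF z] : DF (fun v => Tz (x v) (z v)) := by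
  unfold BSM.Tz; infer_instance

/-- The subset of `omega` coded by the real `x`. -/
noncomputable def pp (x : M) : M := sep omega (fun k => ap x k = emp)

instance DF.pp (x : (ι → M) → M) [DF x] : DF (fun v => pp (x v)) := by
  unfold BSM.pp; infer_instance

/-- The three parts of the payload of `z`. -/
noncomputable def vA (z : M) : M := pL (pL z)
noncomputable def vE (z : M) : M := pL (pR (pL z))
noncomputable def vB (z : M) : M := pR (pR (pL z))

instance DF.vA (x : (ι → M) → M) [DF x] : DF (fun v => vA (x v)) := by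
  unfold BSM.vA; infer_instance
instance DF.vE (x : (ι → M) → M) [DF x] : DF (fun v => vE (x v)) := by
  unfold BSM.vE; infer_instance
instance DF.vB (x : (ι → M) → M) [DF x] : DF (fun v => vB (x v)) := by
  unfold BSM.vB; infer_instance

/-- The part of `Tz x z` on one side of the set coded by `z`. -/
noncomputable def stp (x z : M) : M :=
  sep (Tz x z) (fun k => (k ∈ pp (vA z) ↔ Unb (sep (Tz x z) (fun k => k ∈ pp (vA z)))))

instance DF.stp (x z : (ι → M) → M) [DF x] [DF z] : DF (fun v => stp (x v) (z v)) := by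
  unfold BSM.stp; infer_instance

/-- One step of the computation of `Nn`. -/
noncomputable def NnS (e ξ g : M) : M :=
  iota (fun i => i ∈ (omega : M) ∧ ap e (pr i i) = emp ∧
    ∀ m, m ∈ (omega : M) → ((m ≠ i ∧ ap e (pr m i) = emp) ↔ ∃ ζ, ζ ∈ ξ ∧ m = ap g ζ))

instance DF.NnS (e ξ g : (ι → M) → M) [DF e] [DF ξ] [DF g] :
    DF (fun v => NnS (e v) (ξ v) (g v)) := by
  unfold BSM.NnS; infer_instance

/-- The number of the ordinal `ξ` in the well-order coded by `e`. -/
noncomputable def Nn (e ξ : M) : M := erec (fun ξ g => NnS e ξ g) ξ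

instance DF.Nn (e ξ : (ι → M) → M) [DF e] [DF ξ] : DF (fun v => Nn (e v) (ξ v)) := by
  unfold BSM.Nn; infer_instance

/-- `a` belongs to the `k`-th set whose pseudo-intersection is taken at the limit `η`. -/
def InY (c S f η k a : M) : Prop :=
  ∀ ξ, ξ ∈ ap (fs S) (fs (ap (sn S) η)) →
    Nn (vE (ap c (opair (ap f (fs (ap (sn S) η))) (fs (ap (sn S) η))))) ξ ∈ succ k →
      a ∈ ap f (ap (sn (ap (sn S) η)) ξ)

instance DR.InY (c S f η k a : (ι → M) → M) [DF c] [DF S] [DF f] [DF η] [DF k] [DF a] :
    DR (fun v => InY (c v) (S v) (f v) (η v) (k v) (a v)) := by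
  unfold BSM.InY; infer_instance

/-- The limit step. -/
noncomputable def limS (c S f η : M) : M :=
  sep omega (fun a => ∃ k, k ∈ (omega : M) ∧ k ⊆ a ∧ InY c S f η k a ∧
    ∀ b, b ∈ a → k ⊆ b → ¬ InY c S f η k b)

instance DF.limS (c S f η : (ι → M) → M) [DF c] [DF S] [DF f] [DF η] :
    DF (fun v => limS (c v) (S v) (f v) (η v)) := by
  unfold BSM.limS; infer_instance

/-- One step of the construction of the tower. -/
noncomputable def GT (c S η f : M) : M :=
  iota (fun y => (η = emp ∧ y = omega) ∨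
    (∃ ζ, η = succ ζ ∧ y = stp (ap f ζ) (ap c (opair (ap f ζ) ζ))) ∨
    (η ≠ emp ∧ (∀ ζ, ζ ∈ η → succ ζ ∈ η) ∧ y = limS c S f η))

instance DF.GT (c S η f : (ι → M) → M) [DF c] [DF S] [DF η] [DF f] :
    DF (fun v => GT (c v) (S v) (η v) (f v)) := by
  unfold BSM.GT; infer_instance

/-- The tower. -/
noncomputable def XT (c S η : M) : M := erec (fun η f => GT c S η f) η

instance DF.XT (c S η : (ι → M) → M) [DF c] [DF S] [DF η] :
    DF (fun v => XT (c v) (S v) (η v)) := by
  unfold BSM.XT; infer_instance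

/-- The codes. -/
noncomputable def ZT (c S η : M) : M := ap c (opair (XT c S η) η)

instance DF.ZT (c S η : (ι → M) → M) [DF c] [DF S] [DF η] :
    DF (fun v => ZT (c v) (S v) (η v)) := by
  unfold BSM.ZT; infer_instance

/-- The ultrafilter generated by the tower. -/
noncomputable def pT (κ c S : M) : M :=
  sep (pow omega) (fun A => ∃ η, η ∈ κ ∧ AS (XT c S η) A)

instance DF.pT (κ c S : (ι → M) → M) [DF κ] [DF c] [DF S] :
    DF (fun v => pT (κ v) (c v) (S v)) := by
  unfold BSM.pT; infer_instance

/-- Growth of the elements of `y` over the function `g`. -/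
def Gro (y g : M) : Prop := ∀ a b, a ∈ y → b ∈ y → a ∈ b → ap g a ∈ b

instance DR.Gro (y g : (ι → M) → M) [DF y] [DF g] : DR (fun v => Gro (y v) (g v)) := by
  unfold BSM.Gro; infer_instance

/-- The function `c` chooses codes with given payload. -/
def TD (κ S f β c : M) : Prop :=
  ∀ x η, Unb x → η ∈ κ → ap c (opair x η) ∈ (RS : M) ∧ vA (ap c (opair x η)) = ap f η ∧
    WOc (vE (ap c (opair x η))) (ap (fs S) η) ∧ vB (ap c (opair x η)) = ap β η ∧
    Gro (Tz x (ap c (opair x η))) (ap f η)

instance DR.TD (κ S f β c : (ι → M) → M) [DF κ] [DF S] [DF f] [DF β] [DF c] :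
    DR (fun v => TD (κ v) (S v) (f v) (β v) (c v)) := by
  unfold BSM.TD; infer_instance

theorem fs_opair (x y : M) : fs (opair x y) = x := by
  unfold fs
  apply iota_eq
  · exact ⟨y, rfl⟩
  · rintro a ⟨b, h⟩
    exact (opair_inj h).1.symm

theorem sn_opair (x y : M) : sn (opair x y) = y := by
  unfold sn
  apply iota_eq
  · exact ⟨x, rfl⟩
  · rintro a ⟨b, h⟩
    exact (opair_inj h).2.symm

end Pool.Agent.ZFIter.NPA.BSM
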