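import Pool.Agent.NMB.IUniq

/-!
# NMB/IGp: P-points in `G^p` are images of `p`
-/

universe u

namespace Pool.Agent.ZFIter.NPA.BSM

open Pool.Agent.H78.ZF Pool.Agent.ZFIter Pool.Agent.ZFIter.NPA

variable {M : Type u} [ZFM M] {ι : Type}

theorem mem_rkImg {f u B : M} : B ∈ rkImg f u ↔ B ⊆ omega ∧ sep omega (fun k => ap f k ∈ B) ∈ u := by
  unfold rkImg
  rw [mem_sep, mem_pow]

theorem mem_ulim {u s A : M} : A ∈ ulim u s ↔ A ⊆ omega ∧ sep omega (fun n => A ∈ ap s n) ∈ u := by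
  unfold ulim
  rw [mem_sep, mem_pow]

theorem Uf.inter {u A B : M} (h : Uf u) (hA : A ∈ u) (hB : B ∈ u) :
    sep A (fun k => k ∈ B) ∈ u := h.2.2.2.1 A B hA hB

theorem Uf.up {u A B : M} (h : Uf u) (hA : A ∈ u) (hAB : A ⊆ B) (hB : B ⊆ omega) : B ∈ u :=
  h.2.2.2.2.1 A B hA hAB hB

theorem Uf.ne {u A : M} (h : Uf u) (hA : A ∈ u) : ∃ k, k ∈ A := by
  by_contra hc
  push Not at hc
  rw [eq_emp hc] at hA
  exact h.2.2.1 hA

theorem Uf.sep_up {u : M} (h : Uf u) {P Q : M → Prop} [D1 P] [D1 Q]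
    (hP : sep omega P ∈ u) (hPQ : ∀ k, k ∈ (omega : M) → P k → Q k) : sep omega Q ∈ u := by
  refine h.up hP ?_ (fun k hk => by rw [mem_sep] at hk; exact hk.1)
  intro k hk
  rw [mem_sep] at hk ⊢
  exact ⟨hk.1, hPQ k hk.1 hk.2⟩

theorem Uf.sep_and {u : M} (h : Uf u) {P Q : M → Prop} [D1 P] [D1 Q]
    (hP : sep omega P ∈ u) (hQ : sep omega Q ∈ u) : ∃ k, k ∈ (omega : M) ∧ P k ∧ Q k := by
  obtain ⟨k, hk⟩ := h.ne (h.inter hP hQ)
  rw [mem_sep, mem_sep, mem_sep] at hk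
  exact ⟨k, hk.1.1, hk.1.2, hk.2.2⟩

theorem Uf.sep_inter {u : M} (h : Uf u) {P Q R : M → Prop} [D1 P] [D1 Q] [D1 R]
    (hP : sep omega P ∈ u) (hQ : sep omega Q ∈ u)
    (hR : ∀ k, k ∈ (omega : M) → P k → Q k → R k) : sep omega R ∈ u := by
  refine h.up (h.inter hP hQ) ?_ (fun k hk => by rw [mem_sep] at hk; exact hk.1)
  intro k hk
  rw [mem_sep, mem_sep, mem_sep] at hk
  rw [mem_sep]
  exact ⟨hk.1.1, hR k hk.1.1 hk.1.2 hk.2.2⟩

theorem Uf.sep_not {u : M} (h : Uf u) {P : M → Prop} [D1 P] (hP : sep omega P ∉ u) :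
    sep omega (fun k => ¬ P k) ∈ u := by
  rcases h.2.2.2.2.2 (sep omega P) (fun k hk => by rw [mem_sep] at hk; exact hk.1) with h1 | h1
  · exact absurd h1 hP
  · refine h.up h1 ?_ (fun k hk => by rw [mem_sep] at hk; exact hk.1)
    intro k hk
    rw [mem_sep] at hk ⊢
    exact ⟨hk.1, fun hc => hk.2 (by rw [mem_sep]; exact ⟨hk.1, hc⟩)⟩

theorem rkImg_uf {f u : M} (hf : f ∈ (RS : M)) (h : Uf u) : Uf (rkImg f u) := by
  refine ⟨fun A hA => (mem_rkImg.1 hA).1, ?_, ?_, ?_, ?_, ?_⟩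
  · rw [mem_rkImg]
    refine ⟨sub_refl _, h.up h.2.1 ?_ (fun k hk => by rw [mem_sep] at hk; exact hk.1)⟩
    intro k hk
    rw [mem_sep]
    exact ⟨hk, RS_ap' hf k⟩
  · intro hc
    obtain ⟨k, hk⟩ := h.ne (mem_rkImg.1 hc).2
    rw [mem_sep] at hk
    exact not_mem_emp _ hk.2
  · intro A B hA hB
    rw [mem_rkImg] at hA hB ⊢
    refine ⟨fun k hk => hA.1 k (by rw [mem_sep] at hk; exact hk.1), ?_⟩
    exact h.sep_inter hA.2 hB.2 fun k _ h1 h2 => by rw [mem_sep]; exact ⟨h1, h2⟩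
  · intro A B hA hAB hB
    rw [mem_rkImg] at hA ⊢
    exact ⟨hB, h.sep_up hA.2 fun k _ h1 => hAB _ h1⟩
  · intro A hA
    by_cases hc : sep omega (fun k => ap f k ∈ A) ∈ u
    · exact Or.inl (mem_rkImg.2 ⟨hA, hc⟩)
    · right
      rw [mem_rkImg]
      refine ⟨fun k hk => by rw [mem_sep] at hk; exact hk.1, ?_⟩
      exact h.sep_up (h.sep_not hc) fun k _ h1 => by rw [mem_sep]; exact ⟨RS_ap' hf k, h1⟩

theorem ulim_uf {u s : M} (h : Uf u) (hs : ∀ n, n ∈ (omega : M) → Uf (ap s n)) :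
    Uf (ulim u s) := by
  refine ⟨fun A hA => (mem_ulim.1 hA).1, ?_, ?_, ?_, ?_, ?_⟩
  · rw [mem_ulim]
    refine ⟨sub_refl _, h.up h.2.1 ?_ (fun k hk => by rw [mem_sep] at hk; exact hk.1)⟩
    intro k hk
    rw [mem_sep]
    exact ⟨hk, (hs k hk).2.1⟩
  · intro hc
    obtain ⟨k, hk⟩ := h.ne (mem_ulim.1 hc).2
    rw [mem_sep] at hk
    exact (hs k hk.1).2.2.1 hk.2
  · intro A B hA hB
    rw [mem_ulim] at hA hB ⊢
    refine ⟨fun k hk => hA.1 k (by rw [mem_sep] at hk; exact hk.1), ?_⟩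
    exact h.sep_inter hA.2 hB.2 fun k hk h1 h2 => (hs k hk).inter h1 h2
  · intro A B hA hAB hB
    rw [mem_ulim] at hA ⊢
    exact ⟨hB, h.sep_up hA.2 fun k hk h1 => (hs k hk).up h1 hAB hB⟩
  · intro A hA
    by_cases hc : sep omega (fun n => A ∈ ap s n) ∈ u
    · exact Or.inl (mem_ulim.2 ⟨hA, hc⟩)
    · right
      rw [mem_ulim]
      refine ⟨fun k hk => by rw [mem_sep] at hk; exact hk.1, ?_⟩
      refine h.sep_up (h.sep_not hc) fun k hk h1 => ?_
      rcases (hs k hk).2.2.2.2.2 A hA with h2 | h2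
      · exact absurd h2 h1
      · exact h2

/-- Two ultrafilters, one included in the other, are equal. -/
theorem Uf.eq_of_sub {u v : M} (hu : Uf u) (hv : Uf v) (h : u ⊆ v) : u = v := by
  apply sub_antisymm h
  intro A hA
  rcases hu.2.2.2.2.2 A (hv.1 A hA) with h1 | h1
  · exact h1
  · exfalso
    obtain ⟨k, hk⟩ := hv.ne (hv.inter hA (h _ h1))
    rw [mem_sep, mem_sep] at hk
    exact hk.2.2 hk.1

/-- The composition of two reals. -/
noncomputable def cmp (g f : M) : M := mkf omega omega (fun k => ap g (ap f k))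

instance DF.cmp (g f : (ι → M) → M) [DF g] [DF f] : DF (fun v => cmp (g v) (f v)) := by
  unfold BSM.cmp; infer_instance

theorem cmp_mem {g f : M} (hg : g ∈ (RS : M)) : cmp g f ∈ (RS : M) :=
  mem_RS.2 (mkf_fun fun _ _ => RS_ap' hg _)

theorem ap_cmp {g f k : M} (hg : g ∈ (RS : M)) (hk : k ∈ (omega : M)) :
    ap (cmp g f) k = ap g (ap f k) := ap_mkf (fun _ _ => RS_ap' hg _) hk

theorem rkImg_cmp {g f u : M} (hg : g ∈ (RS : M)) (hf : f ∈ (RS : M)) (h : Uf u) :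
    rkImg (cmp g f) u = rkImg g (rkImg f u) := by
  apply Uf.eq_of_sub (rkImg_uf (cmp_mem hg) h) (rkImg_uf hg (rkImg_uf hf h))
  intro B hB
  rw [mem_rkImg] at hB ⊢
  refine ⟨hB.1, ?_⟩
  rw [mem_rkImg]
  refine ⟨fun k hk => by rw [mem_sep] at hk; exact hk.1, ?_⟩
  refine h.sep_up hB.2 fun k hk h1 => ?_
  rw [mem_sep]
  rw [ap_cmp hg hk] at h1
  exact ⟨RS_ap' hf k, h1⟩

/-- `q` is a P-point. -/
def PPt (q : M) : Prop := ∀ B, (∀ n, n ∈ (omega : M) → ap B n ∈ q) →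
  ∃ A, A ∈ q ∧ ∀ n, n ∈ (omega : M) → AS A (ap B n)

/-- A bounded set of values. -/
theorem not_bdd_mem {u g : M} (hu : Uf u)
    (hn : ∀ k, k ∈ (omega : M) → sep omega (fun j => ap g j = k) ∉ u) :
    ∀ n, n ∈ (omega : M) → sep omega (fun j => ap g j ∈ n) ∉ u := by
  apply omega_induction (fun n => sep omega (fun j => ap g j ∈ n) ∉ u)
  · intro h
    obtain ⟨k, hk⟩ := hu.ne h
    rw [mem_sep] at hk
    exact not_mem_emp _ hk.2
  · intro n hno ih h
    have h1 := hu.sep_not ih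
    have h2 := hu.sep_not (hn n hno)
    have h3 : sep omega (fun j => ¬ ap g j ∈ succ n) ∈ u :=
      hu.sep_inter h1 h2 fun k _ h3 h4 => by
        rw [mem_succ]
        rintro (h5 | h5)
        · exact h3 h5
        · exact h4 h5
    obtain ⟨k, _, h4, h5⟩ := hu.sep_and h h3
    exact h5 h4

/-- The sum step. -/
theorem sum_step (hAC : AC M) {q v s f : M} (hqU : Uf q) (hq : PPt q) (hv : Uf v)
    (hv' : ∀ g, g ∈ (RS : M) → rkImg g v ≠ q) (hs : ∀ n, n ∈ (omega : M) → Uf (ap s n))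
    (hs' : ∀ n, n ∈ (omega : M) → ∀ g, g ∈ (RS : M) → rkImg g (ap s n) ≠ q)
    (hf : f ∈ (RS : M)) : rkImg f (ulim v s) ≠ q := by
  intro h
  have hmem : ∀ A, A ∈ q → sep omega (fun n => sep omega (fun k => ap f k ∈ A) ∈ ap s n) ∈ v := by
    intro A hA
    rw [← h, mem_rkImg, mem_ulim] at hA
    exact hA.2.2
  by_cases hc : sep omega (fun n => ∃ k, k ∈ (omega : M) ∧
      sep omega (fun j => ap f j = k) ∈ ap s n) ∈ v
  · obtain ⟨g, hg, h1⟩ := ac_rel hAC omega omega (fun n k => (∃ k, k ∈ (omega : M) ∧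
      sep omega (fun j => ap f j = k) ∈ ap s n) → sep omega (fun j => ap f j = k) ∈ ap s n)
      (fun n _ => by
        by_cases h2 : ∃ k, k ∈ (omega : M) ∧ sep omega (fun j => ap f j = k) ∈ ap s n
        · obtain ⟨k, hk, h3⟩ := h2
          exact ⟨k, hk, fun _ => h3⟩
        · exact ⟨emp, emp_mem_omega, fun h3 => absurd h3 h2⟩)
    have hgR := mem_RS.2 hg
    apply hv' g hgR
    symm
    apply Uf.eq_of_sub hqU (rkImg_uf hgR hv)
    intro A hA
    rw [mem_rkImg]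
    refine ⟨hqU.1 A hA, hv.sep_inter (hmem A hA) hc fun n hn h2 h3 => ?_⟩
    have h4 := h1 n hn h3
    obtain ⟨j, _, h5, h6⟩ := (hs n hn).sep_and h2 h4
    rw [← h6]
    exact h5
  · have hc' := hv.sep_not hc
    obtain ⟨A, hA, h1⟩ := ac_rel hAC omega q (fun n A =>
      sep omega (fun j => ap f j ∈ A) ∉ ap s n) (fun n hn => by
        by_contra hcon
        push Not at hcon
        apply hs' n hn f hf
        symm
        apply Uf.eq_of_sub hqU (rkImg_uf hf (hs n hn))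
        intro A hA
        exact mem_rkImg.2 ⟨hqU.1 A hA, hcon A hA⟩)
    obtain ⟨B, hB, h2⟩ := hq A fun n hn => hA.ap_mem hn
    obtain ⟨n, hn, h3, h4⟩ := hv.sep_and (hmem B hB) hc'
    obtain ⟨m, hm, h5⟩ := h2 n hn
    have h6 := not_bdd_mem (hs n hn) (fun k hk hh => h4 ⟨k, hk, hh⟩) m hm
    have h7 := (hs n hn).sep_not h6
    apply h1 n hn
    refine (hs n hn).sep_inter h3 h7 fun j _ h8 h9 => ?_
    rcases le_or_lt hm (RS_ap' hf j) with h10 | h10
    · exact h5 _ h8 h10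
    · exact absurd h10 h9

/-- A P-point belongs to `G^p` only if it is an image of `p`. -/
theorem gp_ppoint (hAC : AC M) {p q : M} (hp : Uf p) (hqU : Uf q) (hq : PPt q)
    (h : ∀ f, f ∈ (RS : M) → rkImg f p ≠ q) : ¬ InGp p q := by
  intro hG
  set F : M := sep (pow (pow omega)) (fun u => Uf u ∧ ∀ f, f ∈ (RS : M) → rkImg f u ≠ q) with hF
  have hmemF : ∀ u, Uf u → (∀ f, f ∈ (RS : M) → rkImg f u ≠ q) → u ∈ F := by
    intro u h1 h2
    rw [hF, mem_sep, mem_pow]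
    refine ⟨?_, h1, h2⟩
    intro A hA
    rw [mem_pow]
    exact h1.1 A hA
  have hF' : ∀ u, u ∈ F → Uf u ∧ ∀ f, f ∈ (RS : M) → rkImg f u ≠ q := by
    intro u hu
    rw [hF, mem_sep] at hu
    exact hu.2
  have hcl : Closed F := by
    refine ⟨fun v hv => (hF' v hv).1, fun v f hv hf => ?_, fun v s hv _ hs => ?_⟩
    · obtain ⟨h1, h2⟩ := hF' v hv
      refine hmemF _ (rkImg_uf hf h1) fun g hg e => ?_
      apply h2 (cmp g f) (cmp_mem hg)
      rw [rkImg_cmp hg hf h1, e]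
    · obtain ⟨h1, h2⟩ := hF' v hv
      refine hmemF _ (ulim_uf h1 fun n hn => (hF' _ (hs n hn)).1) fun f hf => ?_
      exact sum_step hAC hqU hq h1 h2 (fun n hn => (hF' _ (hs n hn)).1)
        (fun n hn => (hF' _ (hs n hn)).2) hf
  have h1 := hG F hcl (hmemF p hp h)
  -- the identity
  have hid : ∀ k, k ∈ (omega : M) → ap (mkf omega omega (fun k => k)) k = k := fun k hk =>
    ap_mkf (fun k hk => hk) hk
  have hidR : mkf omega omega (fun k => k) ∈ (RS : M) := mem_RS.2 (mkf_fun fun k hk => hk)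
  apply (hF' q h1).2 _ hidR
  symm
  apply Uf.eq_of_sub hqU (rkImg_uf hidR hqU)
  intro A hA
  rw [mem_rkImg]
  refine ⟨hqU.1 A hA, hqU.up hA ?_ (fun k hk => by rw [mem_sep] at hk; exact hk.1)⟩
  intro k hk
  rw [mem_sep]
  refine ⟨hqU.1 A hA k hk, ?_⟩
  rw [hid k (hqU.1 A hA k hk)]
  exact hk

/-- If a nonprincipal ultrafilter is an image of a selective `p`, then `p` is an image of it. -/
theorem selective_image {p f : M} (hp : Selective p) (hf : f ∈ (RS : M))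
    (hn : Nonpr (rkImg f p)) : ∃ g, g ∈ (RS : M) ∧ rkImg g (rkImg f p) = p := by
  rcases hp.2.2 f hf with ⟨n, hno, h⟩ | ⟨A, hA, hinj⟩
  · exfalso
    apply hn n hno
    rw [mem_rkImg]
    refine ⟨fun k hk => by rw [mem_sing] at hk; rw [hk]; exact hno, ?_⟩
    exact hp.1.sep_up h fun k _ h1 => by rw [mem_sing]; exact h1
  · have hval : ∀ m, m ∈ (omega : M) → least (fun a => a ∈ A ∧ ap f a = m) ∈ (omega : M) := by
      intro m _
      by_cases h : ∃ a, a ∈ (omega : M) ∧ a ∈ A ∧ ap f a = m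
      · exact (least_spec (fun a => a ∈ A ∧ ap f a = m) h).1
      · have : least (fun a => a ∈ A ∧ ap f a = m) = emp := by
          unfold least
          apply iota_neg
          rintro ⟨a, ⟨h1, h2, _⟩, _⟩
          exact h ⟨a, h1, h2⟩
        rw [this]; exact emp_mem_omega
    have hgR : mkf omega omega (fun m => least (fun a => a ∈ A ∧ ap f a = m)) ∈ (RS : M) :=
      mem_RS.2 (mkf_fun hval)
    have hkey : ∀ a, a ∈ A →
        ap (mkf omega omega (fun m => least (fun a => a ∈ A ∧ ap f a = m))) (ap f a) = a := by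
      intro a ha
      have hao := hp.1.1 A hA a ha
      rw [ap_mkf hval (RS_ap' hf a)]
      obtain ⟨_, h2, _⟩ := least_spec (fun a' => a' ∈ A ∧ ap f a' = ap f a) ⟨a, hao, ha, rfl⟩
      exact hinj _ _ h2.1 ha h2.2
    refine ⟨_, hgR, ?_⟩
    symm
    apply Uf.eq_of_sub hp.1 (rkImg_uf hgR (rkImg_uf hf hp.1))
    intro B hB
    rw [mem_rkImg]
    refine ⟨hp.1.1 B hB, ?_⟩
    rw [mem_rkImg]
    refine ⟨fun k hk => by rw [mem_sep] at hk; exact hk.1, ?_⟩
    refine hp.1.up (hp.1.inter hA hB) ?_ (fun k hk => by rw [mem_sep] at hk; exact hk.1)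
    intro k hk
    rw [mem_sep] at hk
    rw [mem_sep, mem_sep]
    refine ⟨hp.1.1 A hA k hk.1, RS_ap' hf k, ?_⟩
    rw [hkey k hk.1]
    exact hk.2

end Pool.Agent.ZFIter.NPA.BSM
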