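import Pool.Agent.NMB.Mod

/-!
# The operations of the tower, computed in an inner model
-/

namespace Pool.Agent.NMB

open Set Ordinal
open Pool.Agent.H78.ZF

theorem real_sub (A : Set ℕ) : real A ⊆ Ordinal.toZFSet ω := by
  intro z hz
  unfold real at hz
  rw [ZFSet.mem_sep] at hz
  exact hz.1

theorem mem_fam {Q : Set (Set ℕ)} {z : ZFSet.{0}} : z ∈ fam Q ↔ ∃ A ∈ Q, z = real A := by
  unfold fam
  rw [ZFSet.mem_sep]
  constructor
  · rintro ⟨_, h⟩; exact h
  · rintro ⟨A, h, rfl⟩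
    exact ⟨ZFSet.mem_powerset.2 (real_sub A), A, h, rfl⟩

namespace IM

variable {N : IM}

/-- The element `F` of the model is the family `Q` of subsets of `ω`. -/
def IsFam (F : N.C) (Q : Set (Set ℕ)) : Prop := ∀ z : N.C, z ∈ F ↔ ∃ A ∈ Q, z = R N A

theorem isFam_iff {F : N.C} {Q : Set (Set ℕ)} : IsFam F Q ↔ F.1 = fam Q := by
  constructor
  · intro h
    ext z
    rw [mem_fam]
    constructor
    · intro hz
      obtain ⟨A, hA, e⟩ := (h (el F z hz)).1 hz
      exact ⟨A, hA, congrArg Subtype.val e⟩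
    · rintro ⟨A, hA, rfl⟩
      exact (h (R N A)).2 ⟨A, hA, rfl⟩
  · intro h z
    rw [mem_iff, h, mem_fam]
    constructor
    · rintro ⟨A, hA, e⟩; exact ⟨A, hA, Subtype.ext e⟩
    · rintro ⟨A, hA, e⟩; exact ⟨A, hA, congrArg Subtype.val e⟩

theorem IsFam.R_mem {F : N.C} {Q : Set (Set ℕ)} (h : IsFam F Q) {A : Set ℕ} :
    R N A ∈ F ↔ A ∈ Q := by
  rw [h]
  constructor
  · rintro ⟨B, hB, e⟩
    rwa [R_inj e]
  · intro hA; exact ⟨A, hA, rfl⟩

noncomputable def cA (N : IM) : N.C := (exists_code (N := N) _ open_slice).choose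
noncomputable def cT (N : IM) : N.C := (exists_code (N := N) _ open_T).choose
noncomputable def cR (N : IM) : N.C := (exists_code (N := N) _ open_payA).choose
noncomputable def cW (N : IM) : N.C := (exists_code (N := N) _ open_payW).choose
noncomputable def cB (N : IM) : N.C := (exists_code (N := N) _ open_payB).choose

theorem opM_A (x : Set ℕ) (n : ℕ) : opM N (cA N) (R N x) (nu N n) = R N (slice x n) := by
  rw [← R_Iio, cA, (exists_code (N := N) _ open_slice).choose_spec]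
  congr 1
  ext a
  exact iio_eq (fun n => a ∈ slice x n) n

theorem opM_T (x s : Set ℕ) : opM N (cT N) (R N x) (R N s) = R N (T x s) :=
  (exists_code (N := N) _ open_T).choose_spec x s

theorem opM_R (s s' : Set ℕ) : opM N (cR N) (R N s) (R N s') = R N (payA s) :=
  (exists_code (N := N) _ open_payA).choose_spec s s'

theorem opM_B (s s' : Set ℕ) : opM N (cB N) (R N s) (R N s') = R N (payB s) :=
  (exists_code (N := N) _ open_payB).choose_spec s s'

theorem opM_W (s : Set ℕ) (n : ℕ) : opM N (cW N) (R N s) (nu N n) = R N (payW s n) := by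
  rw [← R_Iio, cW, (exists_code (N := N) _ open_payW).choose_spec]
  congr 1
  ext a
  exact iio_eq (fun n => a ∈ payW s n) n

/-- The decoded set. -/
noncomputable def sM (P x : N.C) : N.C := sep omega (fun n => opM N (cA N) x n ∈ P)

instance DF.sM {ι : Type} (P x : (ι → N.C) → N.C) [DF P] [DF x] :
    DF (fun v => sM (P v) (x v)) := by
  unfold IM.sM
  infer_instance

theorem sM_eq {P : N.C} {p : Set (Set ℕ)} (hP : IsFam P p) (x : Set ℕ) :
    sM P (R N x) = R N {n | slice x n ∈ p} := by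
  apply R_ext
  · intro z hz
    unfold sM at hz
    rw [H78.ZF.mem_sep] at hz
    exact hz.1
  · intro n
    unfold sM
    rw [H78.ZF.mem_sep, opM_A, hP.R_mem]
    simp [nu_omega]

/-- The successor step. -/
noncomputable def stM (P x : N.C) : N.C :=
  sep (opM N (cT N) x (sM P x))
    (fun a => (a ∈ opM N (cR N) (sM P x) (sM P x) ↔ opM N (cR N) (sM P x) (sM P x) ∈ P))

instance DF.stM {ι : Type} (P x : (ι → N.C) → N.C) [DF P] [DF x] :
    DF (fun v => stM (P v) (x v)) := by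
  unfold IM.stM
  infer_instance

theorem stM_eq {P : N.C} {p : Set (Set ℕ)} (hP : IsFam P p) (x : Set ℕ) :
    stM P (R N x) = R N {a | a ∈ T x {n | slice x n ∈ p} ∧
      (a ∈ payA {n | slice x n ∈ p} ↔ payA {n | slice x n ∈ p} ∈ p)} := by
  unfold stM
  rw [sM_eq hP, opM_T, opM_R]
  apply R_ext
  · intro z hz
    rw [H78.ZF.mem_sep] at hz
    exact R_sub _ z hz.1
  · intro n
    rw [H78.ZF.mem_sep, nu_R, nu_R, hP.R_mem]
    rfl

/-- `f` is an attempt at the collapse of the relation coded by `s`. -/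
def PC (s f : N.C) : Prop := ∀ n α, opair n α ∈ f → n ∈ (omega : N.C) ∧
  (∀ z, z ∈ α ↔ ∃ m, m ∈ opM N (cW N) s n ∧ opair m z ∈ f) ∧
  ∀ m, m ∈ opM N (cW N) s n → ∃ z, opair m z ∈ f

instance DR.PC {ι : Type} (s f : (ι → N.C) → N.C) [DF s] [DF f] :
    DR (fun v => PC (s v) (f v)) := by
  unfold IM.PC
  infer_instance

/-- `b` is the ordinal of the number `i` in the relation coded by `s`. -/
def WO (s i b : N.C) : Prop := ∃ f, PC s f ∧ opair i b ∈ f

instance DR.WO {ι : Type} (s i b : (ι → N.C) → N.C) [DF s] [DF i] [DF b] :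
    DR (fun v => WO (s v) (i v) (b v)) := by
  unfold IM.WO
  infer_instance

/-- `s` codes the function `e` from `ℕ` onto an ordinal. -/
def Codes (s : Set ℕ) (e : ℕ → Ordinal.{0}) : Prop :=
  (∀ m n, m ∈ payW s n ↔ e m < e n) ∧ ∀ n, ∀ β < e n, ∃ m, e m = β

theorem PC_unique {s : Set ℕ} {e : ℕ → Ordinal.{0}} (h : Codes s e) {f : N.C}
    (hf : PC (R N s) f) (α : Ordinal.{0}) : ∀ i b, e i = α → opair (nu N i) b ∈ f →
    b = ord N (e i) := by
  induction α using WellFoundedLT.induction with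
  | ind α ih =>
  intro i b hi hb
  obtain ⟨_, h1, h2⟩ := hf _ _ hb
  rw [opM_W] at h1 h2
  apply H78.ZF.ext
  intro z
  rw [h1, mem_ord]
  constructor
  · rintro ⟨m, hm, hz⟩
    obtain ⟨m, rfl⟩ := mem_omega_iff.1 (R_sub _ _ hm)
    rw [nu_R, h.1] at hm
    exact ⟨e m, hm, ih (e m) (hi ▸ hm) m z rfl hz⟩
  · rintro ⟨β, hβ, rfl⟩
    obtain ⟨m, rfl⟩ := h.2 i β hβ
    have hm : nu N m ∈ R N (payW s i) := by rw [nu_R, h.1]; exact hβ
    obtain ⟨z, hz⟩ := h2 _ hm
    refine ⟨nu N m, hm, ?_⟩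
    rwa [ih (e m) (hi ▸ hβ) m z rfl hz] at hz

theorem PC_of {s : Set ℕ} {e : ℕ → Ordinal.{0}} (h : Codes s e) {f : N.C} {α : Ordinal.{0}}
    (hf : ∀ z, z ∈ f ↔ ∃ m, e m < α ∧ z = opair (nu N m) (ord N (e m))) : PC (R N s) f := by
  intro n a hna
  obtain ⟨m, hm, e1⟩ := (hf _).1 hna
  obtain ⟨rfl, rfl⟩ := opair_inj e1
  refine ⟨nu_omega m, ?_, ?_⟩
  · intro z
    rw [opM_W, mem_ord]
    constructor
    · rintro ⟨β, hβ, rfl⟩
      obtain ⟨k, rfl⟩ := h.2 m β hβ
      refine ⟨nu N k, ?_, ?_⟩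
      · rw [nu_R, h.1]; exact hβ
      · rw [hf]; exact ⟨k, hβ.trans hm, rfl⟩
    · rintro ⟨k, hk, hz⟩
      obtain ⟨k', hk', e2⟩ := (hf _).1 hz
      obtain ⟨rfl, rfl⟩ := opair_inj e2
      rw [nu_R, h.1] at hk
      exact ⟨e k', hk, rfl⟩
  · intro k hk
    rw [opM_W] at hk
    obtain ⟨k, rfl⟩ := mem_omega_iff.1 (R_sub _ _ hk)
    rw [nu_R, h.1] at hk
    exact ⟨ord N (e k), (hf _).2 ⟨k, hk.trans hm, rfl⟩⟩

theorem exists_col {s : Set ℕ} {e : ℕ → Ordinal.{0}} (h : Codes s e) (α : Ordinal.{0}) :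
    ∃ f : N.C, ∀ z, z ∈ f ↔ ∃ m, e m < α ∧ z = opair (nu N m) (ord N (e m)) := by
  induction α using WellFoundedLT.induction with
  | ind α ih =>
  rcases zero_or_succ_or_isSuccLimit α with h0 | ⟨o, h0⟩ | h0
  · subst h0
    refine ⟨emp, fun z => ?_⟩
    constructor
    · intro hz; exact absurd hz (not_mem_emp _)
    · rintro ⟨m, hm, _⟩; exact absurd hm not_lt_zero
  · have h' : α = o + 1 := by rw [← h0]; rfl
    subst h'
    obtain ⟨f, hf⟩ := ih o (by simp)
    refine ⟨un f (prod (R N {k | e k = o}) (sing (ord N o))), fun z => ?_⟩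
    rw [mem_un, hf, H78.ZF.mem_prod]
    constructor
    · rintro (⟨m, hm, rfl⟩ | ⟨x, hx, y, hy, rfl⟩)
      · exact ⟨m, hm.trans (by simp), rfl⟩
      · obtain ⟨m, rfl⟩ := mem_omega_iff.1 (R_sub _ _ hx)
        rw [nu_R] at hx
        rw [mem_sing] at hy
        subst hy
        have hx' : e m = o := hx
        refine ⟨m, ?_, ?_⟩
        · rw [hx']; simp
        · rw [hx']
    · rintro ⟨m, hm, rfl⟩
      rcases (Order.lt_add_one_iff.1 hm).lt_or_eq with h1 | h1
      · exact Or.inl ⟨m, h1, rfl⟩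
      · right
        refine ⟨nu N m, ?_, ord N (e m), ?_, rfl⟩
        · rw [nu_R]; exact h1
        · rw [mem_sing, h1]
  · refine ⟨sep (prod omega (ord N α)) (fun z => ∃ f i y, PC (R N s) f ∧ z = opair i y ∧
      opair i y ∈ f), fun z => ?_⟩
    rw [H78.ZF.mem_sep, H78.ZF.mem_prod]
    constructor
    · rintro ⟨⟨i, hi, y, hy, rfl⟩, f, i', y', hf, e1, hz⟩
      obtain ⟨rfl, rfl⟩ := opair_inj e1
      obtain ⟨m, rfl⟩ := mem_omega_iff.1 hi
      have h1 := PC_unique h hf (e m) m y rfl hz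
      refine ⟨m, ?_, by rw [h1]⟩
      rw [h1, ord_mem] at hy
      exact hy
    · rintro ⟨m, hm, rfl⟩
      have h1 : e m + 1 < α := h0.add_one_lt hm
      obtain ⟨f, hf⟩ := ih _ h1
      refine ⟨⟨nu N m, nu_omega m, ord N (e m), ord_mem.2 hm, rfl⟩, f, nu N m, ord N (e m),
        PC_of h hf, rfl, ?_⟩
      rw [hf]
      exact ⟨m, by simp, rfl⟩

theorem WO_iff {s : Set ℕ} {e : ℕ → Ordinal.{0}} (h : Codes s e) (i : ℕ) (b : N.C) :
    WO (R N s) (nu N i) b ↔ b = ord N (e i) := by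
  constructor
  · rintro ⟨f, hf, hb⟩
    exact PC_unique h hf (e i) i b rfl hb
  · rintro rfl
    obtain ⟨f, hf⟩ := exists_col (N := N) h (e i + 1)
    exact ⟨f, PC_of h hf, (hf _).2 ⟨i, by simp, rfl⟩⟩

end IM

end Pool.Agent.NMB
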