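import Pool.Agent.NMB.Good

/-!
# Ladders from non-Mahloness
-/

namespace Pool.Agent.NMB

open Set Ordinal
open Pool.Agent.H78.ZF

/-- The witness of non-Mahloness (without the requirement that it is in `L(R)`). -/
structure Wit (C : Set Ordinal.{0}) (lam : Ordinal.{0} → Ordinal.{0})
    (c : Ordinal.{0} → Ordinal.{0} → Ordinal.{0}) : Prop where
  lt : ∀ δ ∈ C, δ < om1
  unb : ∀ α < om1, ∃ δ ∈ C, α < δ
  clo : ∀ δ < om1, δ ≠ 0 → (∀ α < δ, ∃ β ∈ C, α < β ∧ β < δ) → δ ∈ C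
  lad : ∀ δ ∈ C, lam δ < δ ∧ (∀ i < lam δ, c δ i < δ) ∧ ∀ α < δ, ∃ i < lam δ, α ≤ c δ i

/-- The ladder relation. -/
def DV (C : Set Ordinal.{0}) (lam : Ordinal.{0} → Ordinal.{0})
    (c : Ordinal.{0} → Ordinal.{0} → Ordinal.{0}) (ξ ζ β γ : Ordinal.{0}) : Prop :=
  Order.IsSuccLimit ξ ∧ ((ξ ∈ C ∧ ζ = lam ξ ∧ β < lam ξ ∧ γ = c ξ β) ∨
    (ξ ∉ C ∧ ζ < ξ ∧ (∀ δ ∈ C, δ < ξ → δ ≤ ζ) ∧ (ζ ∈ C ∨ ζ = 0) ∧ β = γ ∧ γ < ξ))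

section
variable {C : Set Ordinal.{0}} {lam : Ordinal.{0} → Ordinal.{0}}
  {c : Ordinal.{0} → Ordinal.{0} → Ordinal.{0}} (hw : Wit C lam c)
include hw

theorem DV_lt {ξ ζ β γ : Ordinal.{0}} (h : DV C lam c ξ ζ β γ) : ζ < ξ ∧ γ < ξ := by
  obtain ⟨_, ⟨h1, rfl, h3, rfl⟩ | ⟨h1, h2, h3, h4, rfl, h6⟩⟩ := h
  · exact ⟨(hw.lad ξ h1).1, (hw.lad ξ h1).2.1 β h3⟩
  · exact ⟨h2, h6⟩

omit hw in
theorem DV_uniq {ξ ζ β γ ζ' β' γ' : Ordinal.{0}} (h : DV C lam c ξ ζ β γ)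
    (h' : DV C lam c ξ ζ' β' γ') : ζ = ζ' := by
  obtain ⟨_, ⟨h1, rfl, h3, rfl⟩ | ⟨h1, h2, h3, h4, rfl, h6⟩⟩ := h
  · obtain ⟨_, ⟨h1', rfl, h3', rfl⟩ | ⟨h1', h2', h3', h4', rfl, h6'⟩⟩ := h'
    · rfl
    · exact absurd h1 h1'
  · obtain ⟨_, ⟨h1', rfl, h3', rfl⟩ | ⟨h1', h2', h3', h4', rfl, h6'⟩⟩ := h'
    · exact absurd h1' h1
    · apply le_antisymm
      · rcases h4 with h4 | rfl
        · exact h3' _ h4 h2
        · exact zero_le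
      · rcases h4' with h4' | rfl
        · exact h3 _ h4' h2'
        · exact zero_le

omit hw in
theorem DV_func {ξ ζ β γ γ' : Ordinal.{0}} (h : DV C lam c ξ ζ β γ)
    (h' : DV C lam c ξ ζ β γ') : γ = γ' := by
  obtain ⟨_, ⟨h1, rfl, h3, rfl⟩ | ⟨h1, h2, h3, h4, rfl, h6⟩⟩ := h
  · obtain ⟨_, ⟨h1', e, h3', rfl⟩ | ⟨h1', h2', h3', h4', rfl, h6'⟩⟩ := h'
    · rfl
    · exact absurd h1 h1'
  · obtain ⟨_, ⟨h1', rfl, h3', rfl⟩ | ⟨h1', h2', h3', h4', rfl, h6'⟩⟩ := h'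
    · exact absurd h1' h1
    · rfl

theorem DV_unb {e : Ordinal.{0} → ℕ → Ordinal.{0}}
    (he : ∀ ζ < om1, ∃ δ ∈ C, ζ < δ ∧ ∀ β < δ, ∃ i, e ζ i = β) {ξ : Ordinal.{0}} (hξ : ξ < om1)
    (hl : Order.IsSuccLimit ξ) {α : Ordinal.{0}} (hα : α < ξ) :
    ∃ ζ γ i, DV C lam c ξ ζ (e ζ i) γ ∧ α ≤ γ := by
  by_cases hC : ξ ∈ C
  · obtain ⟨h1, h2, h3⟩ := hw.lad ξ hC
    obtain ⟨β, hβ, h4⟩ := h3 α hα
    obtain ⟨δ, hδ, h5, h6⟩ := he (lam ξ) (h1.trans hξ)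
    obtain ⟨i, hi⟩ := h6 β (hβ.trans h5)
    refine ⟨lam ξ, c ξ β, i, ⟨hl, Or.inl ⟨hC, rfl, ?_, ?_⟩⟩, h4⟩
    · rw [hi]; exact hβ
    · rw [hi]
  · have h0 : ξ ≠ 0 := by
      rintro rfl
      exact not_lt_zero hα
    have h1 : ∃ ζ, ζ < ξ ∧ ∀ β ∈ C, β < ξ → β ≤ ζ := by
      by_contra hc
      push Not at hc
      apply hC
      apply hw.clo ξ hξ h0
      intro α' hα'
      obtain ⟨β, h1, h2, h3⟩ := hc α' hα'
      exact ⟨β, h1, h3, h2⟩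
    obtain ⟨ζ, ⟨h2, h3⟩, h4⟩ := WellFounded.has_min (wellFounded_lt (α := Ordinal.{0}))
      {ζ | ζ < ξ ∧ ∀ β ∈ C, β < ξ → β ≤ ζ} h1
    have h5 : ζ ∈ C ∨ ζ = 0 := by
      by_contra hc
      push Not at hc
      apply hc.1
      apply hw.clo ζ (h2.trans hξ) hc.2
      intro α' hα'
      by_contra hc2
      push Not at hc2
      refine h4 α' ⟨hα'.trans h2, fun β hβ hβξ => ?_⟩ hα'
      by_contra hc3
      push Not at hc3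
      have h6 := h3 β hβ hβξ
      have h7 := hc2 β hβ hc3
      have h8 : β = ζ := le_antisymm h6 h7
      subst h8
      exact hc.1 hβ
    obtain ⟨δ, hδ, h6, h7⟩ := he ζ (h2.trans hξ)
    have h8 : ξ ≤ δ := by
      by_contra hc
      push Not at hc
      exact absurd (h3 δ hδ hc) (not_le.2 h6)
    obtain ⟨i, hi⟩ := h7 α (hα.trans_le h8)
    refine ⟨ζ, α, i, ⟨hl, Or.inr ⟨hC, h2, h3, h5, hi, hα⟩⟩, le_rfl⟩

theorem lam_pos {ξ : Ordinal.{0}} (h : ξ ∈ C) : 0 < lam ξ := by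
  obtain ⟨h1, h2, h3⟩ := hw.lad ξ h
  have h0 : 0 < ξ := lt_of_le_of_lt (zero_le) h1
  obtain ⟨i, hi, _⟩ := h3 0 h0
  exact lt_of_le_of_lt (zero_le) hi

end

namespace IM

variable {N : IM}

/-- membership in `C` -/
def InC (S ξ : N.C) : Prop := ∃ i y, opair ξ (opair i y) ∈ S

instance DR.InC {ι : Type} (S ξ : (ι → N.C) → N.C) [DF S] [DF ξ] :
    DR (fun v => InC (S v) (ξ v)) := by
  unfold IM.InC
  infer_instance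

/-- the ladder relation in the model -/
def DVM (S ξ ζ β γ : N.C) : Prop := Lim ξ ∧
  ((InC S ξ ∧ (∀ i, i ∈ ζ ↔ ∃ y, opair ξ (opair i y) ∈ S) ∧ opair ξ (opair β γ) ∈ S) ∨
  (¬ InC S ξ ∧ ζ ∈ ξ ∧ (∀ δ, δ ∈ ξ → InC S δ → δ ⊆ ζ) ∧ (InC S ζ ∨ ζ = emp) ∧ β = γ ∧ γ ∈ ξ))

instance DR.DVM {ι : Type} (S ξ ζ β γ : (ι → N.C) → N.C) [DF S] [DF ξ] [DF ζ] [DF β] [DF γ] :
    DR (fun v => DVM (S v) (ξ v) (ζ v) (β v) (γ v)) := by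
  unfold IM.DVM
  infer_instance

section
variable {C : Set Ordinal.{0}} {lam : Ordinal.{0} → Ordinal.{0}}
  {c : Ordinal.{0} → Ordinal.{0} → Ordinal.{0}}

theorem mem_sys (hw : Wit C lam c) (hS : sys C lam c ∈ N.M) {z : N.C} :
    z ∈ (⟨sys C lam c, hS⟩ : N.C) ↔
    ∃ δ ∈ C, ∃ i < lam δ, z = opair (ord N δ) (opair (ord N i) (ord N (c δ i))) := by
  rw [mem_iff]
  unfold sys
  simp only [ZFSet.mem_sep]
  have key : ∀ δ i : Ordinal.{0}, (opair (ord N δ) (opair (ord N i) (ord N (c δ i)))).1 =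
      ZFSet.pair δ.toZFSet (ZFSet.pair i.toZFSet (c δ i).toZFSet) := by
    intro δ i
    rw [opair_val, opair_val]
    rfl
  constructor
  · rintro ⟨_, δ, hδ, i, hi, e⟩
    refine ⟨δ, hδ, i, hi, ?_⟩
    apply Subtype.ext
    rw [e, key]
  · rintro ⟨δ, hδ, i, hi, rfl⟩
    obtain ⟨h1, h2, _⟩ := hw.lad δ hδ
    have h3 := hw.lt δ hδ
    refine ⟨?_, δ, hδ, i, hi, key δ i⟩
    rw [key, ZFSet.pair_mem_prod, ZFSet.pair_mem_prod, Ordinal.toZFSet_mem_toZFSet_iff,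
      Ordinal.toZFSet_mem_toZFSet_iff, Ordinal.toZFSet_mem_toZFSet_iff]
    exact ⟨h3, (hi.trans h1).trans h3, (h2 i hi).trans h3⟩

theorem mem_sys' (hw : Wit C lam c) (hS : sys C lam c ∈ N.M) {δ : Ordinal.{0}} {i y : N.C} :
    opair (ord N δ) (opair i y) ∈ (⟨sys C lam c, hS⟩ : N.C) ↔
    δ ∈ C ∧ ∃ j < lam δ, i = ord N j ∧ y = ord N (c δ j) := by
  rw [mem_sys hw hS]
  constructor
  · rintro ⟨δ', h, j, hj, e⟩
    obtain ⟨e1, e2⟩ := opair_inj e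
    obtain ⟨e3, e4⟩ := opair_inj e2
    have := ord_inj e1
    subst this
    exact ⟨h, j, hj, e3, e4⟩
  · rintro ⟨h, j, hj, rfl, rfl⟩
    exact ⟨δ, h, j, hj, rfl⟩

theorem inC_iff (hw : Wit C lam c) (hS : sys C lam c ∈ N.M) {δ : Ordinal.{0}} :
    InC (⟨sys C lam c, hS⟩ : N.C) (ord N δ) ↔ δ ∈ C := by
  unfold InC
  constructor
  · rintro ⟨i, y, h⟩
    exact ((mem_sys' hw hS).1 h).1
  · intro h
    exact ⟨_, _, (mem_sys' hw hS).2 ⟨h, 0, lam_pos hw h, rfl, rfl⟩⟩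

theorem dvm_iff (hw : Wit C lam c) (hS : sys C lam c ∈ N.M) {ξ : Ordinal.{0}} {ζ β γ : N.C} :
    DVM (⟨sys C lam c, hS⟩ : N.C) (ord N ξ) ζ β γ ↔
    ∃ ζ' β' γ', DV C lam c ξ ζ' β' γ' ∧ ζ = ord N ζ' ∧ β = ord N β' ∧ γ = ord N γ' := by
  unfold DVM DV
  rw [lim_ord, inC_iff hw hS]
  constructor
  · rintro ⟨hl, ⟨h1, h2, h3⟩ | ⟨h1, h2, h3, h4, rfl, h6⟩⟩
    · obtain ⟨_, j, hj, rfl, rfl⟩ := (mem_sys' hw hS).1 h3
      refine ⟨lam ξ, j, c ξ j, ⟨hl, Or.inl ⟨h1, rfl, hj, rfl⟩⟩, ?_, rfl, rfl⟩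
      apply H78.ZF.ext
      intro i
      rw [h2, mem_ord]
      constructor
      · rintro ⟨y, hy⟩
        obtain ⟨_, k, hk, rfl, rfl⟩ := (mem_sys' hw hS).1 hy
        exact ⟨k, hk, rfl⟩
      · rintro ⟨k, hk, rfl⟩
        exact ⟨_, (mem_sys' hw hS).2 ⟨h1, k, hk, rfl, rfl⟩⟩
    · obtain ⟨ζ', h7, rfl⟩ := mem_ord.1 h2
      obtain ⟨γ', h8, rfl⟩ := mem_ord.1 h6
      refine ⟨ζ', γ', γ', ⟨hl, Or.inr ⟨h1, h7, ?_, ?_, rfl, h8⟩⟩, rfl, rfl, rfl⟩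
      · intro δ hδ hlt
        rw [← ord_sub (N := N)]
        exact h3 _ (ord_mem.2 hlt) ((inC_iff hw hS).2 hδ)
      · rcases h4 with h4 | h4
        · left; exact (inC_iff hw hS).1 h4
        · right
          rw [← ord_zero] at h4
          exact ord_inj h4
  · rintro ⟨ζ', β', γ', ⟨hl, ⟨h1, rfl, h3, rfl⟩ | ⟨h1, h2, h3, h4, rfl, h6⟩⟩, rfl, rfl, rfl⟩
    · refine ⟨hl, Or.inl ⟨h1, ?_, (mem_sys' hw hS).2 ⟨h1, β', h3, rfl, rfl⟩⟩⟩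
      intro i
      rw [mem_ord]
      constructor
      · rintro ⟨k, hk, rfl⟩
        exact ⟨_, (mem_sys' hw hS).2 ⟨h1, k, hk, rfl, rfl⟩⟩
      · rintro ⟨y, hy⟩
        obtain ⟨_, k, hk, rfl, rfl⟩ := (mem_sys' hw hS).1 hy
        exact ⟨k, hk, rfl⟩
    · refine ⟨hl, Or.inr ⟨h1, ord_mem.2 h2, ?_, ?_, rfl, ord_mem.2 h6⟩⟩
      · intro δ hδ hC
        obtain ⟨δ', h7, rfl⟩ := mem_ord.1 hδ
        rw [ord_sub]
        exact h3 _ ((inC_iff hw hS).1 hC) h7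
      · rcases h4 with h4 | rfl
        · left; exact (inC_iff hw hS).2 h4
        · right; exact ord_zero

/-- The ladder relation is in the model. -/
theorem exists_D (hw : Wit C lam c) (hS : sys C lam c ∈ N.M) :
    ∃ D : N.C, ∀ z η : N.C, opair η z ∈ D ↔ ∃ ξ ζ β γ : Ordinal.{0}, ξ < om1 ∧
    Order.IsSuccLimit ξ ∧ DV C lam c ξ ζ β γ ∧
    η = ord N ξ ∧ z = opair (ord N ζ) (opair (ord N β) (ord N γ)) := by
  let S : N.C := ⟨sys C lam c, hS⟩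
  let O : N.C := ord N om1
  refine ⟨sep (prod O (prod O (prod O O))) (fun z => ∃ ξ ζ β γ : N.C,
    z = opair ξ (opair ζ (opair β γ)) ∧ DVM S ξ ζ β γ), fun z η => ?_⟩
  rw [H78.ZF.mem_sep, opair_mem_prod]
  constructor
  · rintro ⟨⟨h1, _⟩, ξ, ζ, β, γ, e, h2⟩
    obtain ⟨rfl, rfl⟩ := opair_inj e
    obtain ⟨ξ', h3, rfl⟩ := mem_ord.1 h1
    obtain ⟨ζ', β', γ', h4, rfl, rfl, rfl⟩ := (dvm_iff hw hS).1 h2
    exact ⟨ξ', ζ', β', γ', h3, h4.1, h4, rfl, rfl⟩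
  · rintro ⟨ξ, ζ, β, γ, h1, h2, h3, rfl, rfl⟩
    obtain ⟨h4, h5⟩ := DV_lt hw h3
    have h6 : β < om1 := by
      obtain ⟨_, ⟨g1, g2, g3, g4⟩ | ⟨g1, g2, g3, g4, g5, g6⟩⟩ := h3
      · rw [g2] at h4; exact (g3.trans h4).trans h1
      · rw [g5]; exact h5.trans h1
    refine ⟨⟨ord_mem.2 h1, ?_⟩, ord N ξ, ord N ζ, ord N β, ord N γ, rfl,
      (dvm_iff hw hS).2 ⟨ζ, β, γ, h3, rfl, rfl, rfl⟩⟩
    rw [opair_mem_prod, opair_mem_prod]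
    exact ⟨ord_mem.2 (h4.trans h1), ord_mem.2 h6, ord_mem.2 (h5.trans h1)⟩

end

end IM

end Pool.Agent.NMB
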