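import Mathlib
import Pool.Agent.BLA.Defs
import Pool.Agent.H78.ZF.Model

/-!
# Inner models, `L(R)[p]`, and non-Mahloness: definitions

The universe is the class of all sets `ZFSet.{0}`. Ordinals are the Lean ordinals `Ordinal.{0}`,
turned into (von Neumann) sets by `Ordinal.toZFSet`.
-/

namespace Pool.Agent.NMB

open Pool.Agent.H78.ZF Ordinal Cardinal

/-- The first uncountable ordinal. -/
noncomputable abbrev om1 : Ordinal.{0} := ω₁

/-- The natural number `n`, as a von Neumann ordinal. -/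
noncomputable def num (n : ℕ) : ZFSet.{0} := (n : Ordinal.{0}).toZFSet

/-- The subset `A` of `ω`, as a set. -/
noncomputable def real (A : Set ℕ) : ZFSet.{0} :=
  ZFSet.sep (fun z => ∃ n ∈ A, z = num n) (Ordinal.toZFSet ω)

/-- The set `Q` of subsets of `ω`, as a set. -/
noncomputable def fam (Q : Set (Set ℕ)) : ZFSet.{0} :=
  ZFSet.sep (fun z => ∃ A ∈ Q, z = real A) (ZFSet.powerset (Ordinal.toZFSet ω))

/-- `M` is an inner model of ZF: a transitive class which contains all ordinals and is a model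
of ZF. -/
structure InnerModel (M : Set ZFSet.{0}) : Prop where
  trans : ∀ x ∈ M, ∀ y ∈ x, y ∈ M
  ord : ∀ α : Ordinal.{0}, α.toZFSet ∈ M
  zf : IsZFModel fun x y : M => x.1 ∈ y.1

/-- `L(R)`: the least inner model of ZF which contains all subsets of `ω`. -/
def LR : Set ZFSet.{0} :=
  {x | ∀ M, InnerModel M → (∀ A : Set ℕ, real A ∈ M) → x ∈ M}

/-- `L(R)[p]`: the least inner model of ZF which contains all subsets of `ω` and the
ultrafilter `p`. -/
def LRp (p : Ultrafilter ℕ) : Set ZFSet.{0} :=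
  {x | ∀ M, InnerModel M → (∀ A : Set ℕ, real A ∈ M) → fam {A | A ∈ p} ∈ M → x ∈ M}

/-- The system of functions `c δ : lam δ → Ord`, `δ ∈ C`, as a set of triples. -/
noncomputable def sys (C : Set Ordinal.{0}) (lam : Ordinal.{0} → Ordinal.{0})
    (c : Ordinal.{0} → Ordinal.{0} → Ordinal.{0}) : ZFSet.{0} :=
  ZFSet.sep
    (fun z => ∃ δ ∈ C, ∃ i < lam δ, z = ZFSet.pair δ.toZFSet (ZFSet.pair i.toZFSet (c δ i).toZFSet))
    (ZFSet.prod om1.toZFSet (ZFSet.prod om1.toZFSet om1.toZFSet))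

/-- `ω₁` is not Mahlo in `L(R)`: there is in `L(R)` a system of unbounded functions
`c δ : lam δ → δ` with `lam δ < δ`, for all `δ` in a closed unbounded subset `C` of `ω₁`. -/
def NotMahlo : Prop :=
  ∃ (C : Set Ordinal.{0}) (lam : Ordinal.{0} → Ordinal.{0})
    (c : Ordinal.{0} → Ordinal.{0} → Ordinal.{0}),
    (∀ δ ∈ C, δ < om1) ∧ (∀ α < om1, ∃ δ ∈ C, α < δ) ∧
    (∀ δ < om1, δ ≠ 0 → (∀ α < δ, ∃ β ∈ C, α < β ∧ β < δ) → δ ∈ C) ∧
    (∀ δ ∈ C, lam δ < δ ∧ (∀ i < lam δ, c δ i < δ) ∧ ∀ α < δ, ∃ i < lam δ, α ≤ c δ i) ∧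
    sys C lam c ∈ LR

end Pool.Agent.NMB
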