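import Pool.Agent.NMB.Tower

/-!
# The ultrafilter generated by the tower
-/

namespace Pool.Agent.NMB

open Set Ordinal

theorem countable_Iio {ξ : Ordinal.{0}} (h : ξ < om1) : (Iio ξ).Countable := by
  rw [← Cardinal.le_aleph0_iff_set_countable, Cardinal.mk_Iio_ordinal]
  rw [om1, ← Cardinal.ord_aleph, Cardinal.lt_ord, ← Cardinal.succ_aleph0, Order.lt_succ_iff] at h
  simpa only [Cardinal.lift_aleph0] using Cardinal.lift_le.{1}.2 h

theorem lt_om1_of_countable {ξ : Ordinal.{0}} (h : (Iio ξ).Countable) : ξ < om1 := by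
  rw [← Cardinal.le_aleph0_iff_set_countable, Cardinal.mk_Iio_ordinal, Cardinal.lift_le_aleph0] at h
  rw [om1, ← Cardinal.ord_aleph, Cardinal.lt_ord]
  exact h.trans_lt Cardinal.aleph0_lt_aleph_one

namespace TData

variable (d : TData)

theorem om1_succ {ξ : Ordinal.{0}} (h : ξ < om1) : ξ + 1 < om1 := by
  have h2 : Order.IsSuccLimit om1 := by
    have := Cardinal.isSuccLimit_omega 1
    exact this
  have := h2.succ_lt h
  simpa using this

theorem om1_pos : (0 : Ordinal.{0}) < om1 := Ordinal.omega_pos 1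

theorem X_inf {ξ : Ordinal.{0}} (h : ξ < om1) : (d.X ξ).Infinite := (d.main_inv ξ h).1

theorem X_sub {ξ η : Ordinal.{0}} (h : ξ < om1) (h' : η ≤ ξ) : (d.X ξ \ d.X η).Finite :=
  (d.main_inv ξ h).2 η h'

/-- The filter generated by the tower. -/
def fil : Filter ℕ where
  sets := {A | ∃ ξ < om1, (d.X ξ \ A).Finite}
  univ_sets := ⟨0, om1_pos, by simp⟩
  sets_of_superset := by
    rintro A B ⟨ξ, h, h1⟩ hAB
    exact ⟨ξ, h, h1.subset (sdiff_subset_sdiff_right hAB)⟩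
  inter_sets := by
    rintro A B ⟨ξ, h, h1⟩ ⟨η, h', h1'⟩
    have hm : max ξ η < om1 := max_lt h h'
    refine ⟨max ξ η, hm, ((fin_trans (d.X_sub hm (le_max_left _ _)) h1).union
      (fin_trans (d.X_sub hm (le_max_right _ _)) h1')).subset ?_⟩
    rintro a ⟨ha, hb⟩
    by_cases hc : a ∈ A
    · right; exact ⟨ha, fun h2 => hb ⟨hc, h2⟩⟩
    · left; exact ⟨ha, hc⟩

theorem mem_fil {A : Set ℕ} : A ∈ d.fil ↔ ∃ ξ < om1, (d.X ξ \ A).Finite := Iff.rfl

theorem exists_ultra (hρ : ∀ A : Set ℕ, ∃ ξ < om1, payA (d.S ξ (d.X ξ)) = A) :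
    ∃ p : Ultrafilter ℕ, ∀ A : Set ℕ, A ∈ p ↔ ∃ ξ < om1, (d.X ξ \ A).Finite := by
  have h1 : ∀ s : Set ℕ, sᶜ ∉ d.fil ↔ s ∈ d.fil := by
    intro s
    constructor
    · intro h
      obtain ⟨ξ, hξ, e⟩ := hρ s
      by_contra hs
      by_cases hi : (T (d.X ξ) (d.S ξ (d.X ξ)) ∩ s).Infinite
      · apply hs
        refine ⟨ξ + 1, om1_succ hξ, ?_⟩
        rw [X_succ]
        convert Set.finite_empty
        ext a
        simp only [mem_sdiff, mem_empty_iff_false, iff_false, not_and, not_not]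
        rintro ⟨ha, hb⟩
        rw [e] at hb
        exact hb.2 hi
      · apply h
        refine ⟨ξ + 1, om1_succ hξ, ?_⟩
        rw [X_succ]
        convert Set.finite_empty
        ext a
        simp only [mem_sdiff, mem_empty_iff_false, iff_false, not_and, not_not]
        rintro ⟨ha, hb⟩
        rw [e] at hb
        exact fun hc => hi (hb.1 hc)
    · rintro ⟨ξ, hξ, h1⟩ ⟨η, hη, h2⟩
      have hm : max ξ η < om1 := max_lt hξ hη
      apply d.X_inf hm
      refine ((fin_trans (d.X_sub hm (le_max_left _ _)) h1).union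
        (fin_trans (d.X_sub hm (le_max_right _ _)) h2)).subset ?_
      intro a ha
      by_cases hc : a ∈ s
      · right; exact ⟨ha, fun h => h hc⟩
      · left; exact ⟨ha, hc⟩
  exact ⟨Ultrafilter.ofComplNotMemIff d.fil h1, fun A => Iff.rfl⟩

section
variable {d} {p : Ultrafilter ℕ} (hp : ∀ A : Set ℕ, A ∈ p ↔ ∃ ξ < om1, (d.X ξ \ A).Finite)
include hp

theorem X_mem {ξ : Ordinal.{0}} (h : ξ < om1) : d.X ξ ∈ p := (hp _).2 ⟨ξ, h, by simp⟩

theorem cofinite_mem {A : Set ℕ} (h : Aᶜ.Finite) : A ∈ p :=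
  (hp _).2 ⟨0, om1_pos, h.subset (by rintro a ⟨_, ha⟩; exact ha)⟩

theorem finite_not_mem {A : Set ℕ} (h : A.Finite) : A ∉ p := by
  intro hA
  have h1 : Aᶜ ∈ p := cofinite_mem hp (by simpa using h)
  have := Filter.inter_mem hA h1
  simp at this

theorem T_mem {ξ : Ordinal.{0}} (h : ξ < om1) : T (d.X ξ) (d.S ξ (d.X ξ)) ∈ p := by
  have := X_mem hp (om1_succ h)
  rw [X_succ] at this
  exact Filter.mem_of_superset this fun a ha => ha.1

/-- The code at stage `ξ` is decoded from `X ξ` and `p`. -/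
theorem decode {ξ : Ordinal.{0}} (h : ξ < om1) :
    {n | slice (d.X ξ) n ∈ p} = d.S ξ (d.X ξ) := by
  ext n
  simp only [mem_ofPred_eq]
  constructor
  · intro h1
    by_contra h2
    have h3 := Filter.inter_mem (T_mem hp h) h1
    rw [T_slice_of_not_mem h2] at h3
    exact finite_not_mem hp finite_empty h3
  · intro h1
    have h2 := T_slice_of_mem (x := d.X ξ) h1
    have h3 : (T (d.X ξ) (d.S ξ (d.X ξ)) \ slice (d.X ξ) n)ᶜ ∈ p :=
      cofinite_mem hp (by simpa using h2)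
    refine Filter.mem_of_superset (Filter.inter_mem (T_mem hp h) h3) ?_
    rintro a ⟨ha, hb⟩
    by_contra hc
    exact hb ⟨ha, hc⟩

/-- The successor step computed from `p`. -/
theorem X_succ_eq {ξ : Ordinal.{0}} (h : ξ < om1) :
    d.X (ξ + 1) = {a | a ∈ T (d.X ξ) {n | slice (d.X ξ) n ∈ p} ∧
      (a ∈ payA {n | slice (d.X ξ) n ∈ p} ↔ payA {n | slice (d.X ξ) n ∈ p} ∈ p)} := by
  rw [decode hp h, X_succ]
  unfold stp
  have key : (T (d.X ξ) (d.S ξ (d.X ξ)) ∩ payA (d.S ξ (d.X ξ))).Infinite ↔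
      payA (d.S ξ (d.X ξ)) ∈ p := by
    constructor
    · intro h1
      have h2 := X_mem hp (om1_succ h)
      rw [X_succ] at h2
      refine Filter.mem_of_superset h2 ?_
      rintro a ⟨_, ha⟩
      exact ha.2 h1
    · intro h1 h2
      exact finite_not_mem hp h2 (Filter.inter_mem (T_mem hp h) h1)
  simp only [key]

theorem ppoint {B : ℕ → Set ℕ} (hB : ∀ n, B n ∈ p) : ∃ ξ < om1, ∀ n, (d.X ξ \ B n).Finite := by
  choose f hf h1 using fun n => (hp _).1 (hB n)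
  have h2 : ⨆ n, f n < om1 := Ordinal.iSup_lt_omega_one hf
  refine ⟨⨆ n, f n, h2, fun n => fin_trans (d.X_sub h2 ?_) (h1 n)⟩
  exact Ordinal.le_iSup f n

theorem selective
    (hg : ∀ g : ℕ → ℕ, ∃ ξ < om1, ∀ a ∈ T (d.X ξ) (d.S ξ (d.X ξ)),
      ∀ b ∈ T (d.X ξ) (d.S ξ (d.X ξ)), a < b → g a < b) :
    Pool.Agent.BLA.Selective p := by
  refine ⟨fun n => finite_not_mem hp (finite_singleton n), fun f => ?_⟩
  by_cases hc : ∃ n, f ⁻¹' {n} ∈ p
  · exact Or.inl hc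
  right
  push Not at hc
  obtain ⟨ξ, hξ, h1⟩ := ppoint hp (B := fun n => (f ⁻¹' {n})ᶜ) fun n =>
    Ultrafilter.compl_mem_iff_notMem.2 (hc n)
  have hfin : ∀ n, (d.X ξ ∩ f ⁻¹' {n}).Finite := by
    intro n
    refine (h1 n).subset ?_
    rintro a ⟨ha, hb⟩
    exact ⟨ha, fun h => h hb⟩
  have hG : ∀ a, ∃ g, ∀ b ∈ d.X ξ, f b = f a → b ≤ g := by
    intro a
    obtain ⟨g, hg⟩ := (hfin (f a)).bddAbove
    exact ⟨g, fun b hb e => hg ⟨hb, e⟩⟩
  choose g hgg using hG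
  obtain ⟨η, hη, h2⟩ := hg g
  refine ⟨d.X ξ ∩ T (d.X η) (d.S η (d.X η)), Filter.inter_mem (X_mem hp hξ) (T_mem hp hη), ?_⟩
  rintro a ⟨ha, ha'⟩ b ⟨hb, hb'⟩ e
  rcases lt_trichotomy a b with h | h | h
  · have h3 := h2 a ha' b hb' h
    have h4 := hgg a b hb e.symm
    omega
  · exact h
  · have h3 := h2 b hb' a ha' h
    have h4 := hgg b a ha e
    omega

theorem ppoint_mem {B : ℕ → Set ℕ} (hB : ∀ n, B n ∈ p) : ∃ A ∈ p, ∀ n, (A \ B n).Finite := by
  obtain ⟨ξ, hξ, h⟩ := ppoint hp hB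
  exact ⟨d.X ξ, X_mem hp hξ, h⟩

/-- The tower is determined by the ultrafilter. -/
theorem X_unique {d' : TData} (hp' : ∀ A : Set ℕ, A ∈ p ↔ ∃ ξ < om1, (d'.X ξ \ A).Finite)
    (hD : d.D = d'.D) (he : d.e = d'.e) (ξ : Ordinal.{0}) : ξ < om1 → d.X ξ = d'.X ξ := by
  induction ξ using WellFoundedLT.induction with
  | ind ξ ih =>
  intro hξ
  rcases zero_or_succ_or_isSuccLimit ξ with h | ⟨o, h⟩ | h
  · subst h
    rw [X_zero, X_zero]
  · have h' : ξ = o + 1 := by rw [← h]; rfl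
    subst h'
    have ho : o < o + 1 := by simp
    rw [X_succ_eq hp (ho.trans hξ), X_succ_eq hp' (ho.trans hξ), ih o ho (ho.trans hξ)]
  · rw [X_limit _ h, X_limit _ h]
    congr 1
    funext k
    unfold Y
    ext a
    simp only [mem_ofPred_eq, hD, he]
    constructor
    · intro H i hi ζ γ h1
      have h2 := (d'.D1 _ _ _ _ h1).2
      rw [← ih γ h2 (h2.trans hξ)]
      exact H i hi ζ γ h1
    · intro H i hi ζ γ h1
      have h2 := (d'.D1 _ _ _ _ h1).2
      rw [ih γ h2 (h2.trans hξ)]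
      exact H i hi ζ γ h1

theorem S_unique {d' : TData} (hp' : ∀ A : Set ℕ, A ∈ p ↔ ∃ ξ < om1, (d'.X ξ \ A).Finite)
    (hD : d.D = d'.D) (he : d.e = d'.e) {ξ : Ordinal.{0}} (hξ : ξ < om1) :
    d.S ξ (d.X ξ) = d'.S ξ (d'.X ξ) := by
  rw [← decode hp hξ, ← decode hp' hξ, X_unique hp hp' hD he ξ hξ]

end

end TData

end Pool.Agent.NMB
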