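import Pool.Agent.NMB.Code
import Pool.Agent.NMB.Ultra

/-!
# Decoding the tower in an inner model
-/

namespace Pool.Agent.NMB

open Set Ordinal
open Pool.Agent.H78.ZF

namespace IM

variable {N : IM}

/-- `a` belongs to the `k`-th set of the sequence for the limit ordinal `η`. -/
def InY (P D h η k a : N.C) : Prop := ∀ i, i ∈ succ k → ∀ ζ β γ,
  opair η (opair ζ (opair β γ)) ∈ D → WO (sM P (ap h ζ)) i β → a ∈ ap h γ

instance DR.InY {ι : Type} (P D h η k a : (ι → N.C) → N.C) [DF P] [DF D] [DF h] [DF η] [DF k]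
    [DF a] : DR (fun v => InY (P v) (D v) (h v) (η v) (k v) (a v)) := by
  unfold IM.InY
  infer_instance

/-- The limit step. -/
noncomputable def limM (P D h η : N.C) : N.C :=
  sep omega (fun a => ∃ k, k ∈ (omega : N.C) ∧ k ⊆ a ∧ InY P D h η k a ∧
    ∀ b, b ∈ a → k ⊆ b → ¬ InY P D h η k b)

instance DF.limM {ι : Type} (P D h η : (ι → N.C) → N.C) [DF P] [DF D] [DF h] [DF η] :
    DF (fun v => limM (P v) (D v) (h v) (η v)) := by
  unfold IM.limM
  infer_instance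

/-- limit ordinals -/
def Lim (η : N.C) : Prop := η ≠ emp ∧ ∀ α, α ∈ η → succ α ∈ η

instance DR.Lim {ι : Type} (η : (ι → N.C) → N.C) [DF η] : DR (fun v => Lim (η v)) := by
  unfold IM.Lim
  infer_instance

/-- `h` is the sequence of the sets of the tower up to `ξ`. -/
def Good (P D ξ h : N.C) : Prop := Fun h (succ ξ) (pow omega) ∧ ap h emp = (H78.ZF.omega : N.C) ∧
  (∀ η, η ∈ ξ → ap h (succ η) = stM P (ap h η)) ∧
  ∀ η, η ∈ succ ξ → Lim η → ap h η = limM P D h η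

instance DR.Good {ι : Type} (P D ξ h : (ι → N.C) → N.C) [DF P] [DF D] [DF ξ] [DF h] :
    DR (fun v => Good (P v) (D v) (ξ v) (h v)) := by
  unfold IM.Good
  infer_instance

theorem lim_ord {η : Ordinal.{0}} : Lim (ord N η) ↔ Order.IsSuccLimit η := by
  unfold Lim
  constructor
  · rintro ⟨h1, h2⟩
    rcases zero_or_succ_or_isSuccLimit η with h0 | ⟨o, h0⟩ | h0
    · subst h0; exact absurd ord_zero h1
    · exfalso
      have h' : η = o + 1 := by rw [← h0]; rfl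
      subst h'
      have := h2 (ord N o) (ord_mem.2 (by simp))
      rw [← ord_succ, ord_mem] at this
      exact lt_irrefl _ this
    · exact h0
  · intro h
    refine ⟨?_, ?_⟩
    · intro e
      rw [← ord_zero] at e
      have := ord_inj e
      subst this
      exact absurd h not_isSuccLimit_zero
    · intro α hα
      obtain ⟨β, hβ, rfl⟩ := mem_ord.1 hα
      rw [← ord_succ, ord_mem]
      exact h.add_one_lt hβ

/-- The situation in which the tower is decoded. -/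
structure Sit (N : IM) where
  d : TData
  p : Ultrafilter ℕ
  hp : ∀ A : Set ℕ, A ∈ p ↔ ∃ ξ < om1, (d.X ξ \ A).Finite
  P : N.C
  hP : IsFam P {A | A ∈ p}
  D : N.C
  hD : ∀ z η : N.C, opair η z ∈ D ↔ ∃ ξ ζ β γ : Ordinal.{0}, ξ < om1 ∧
    Order.IsSuccLimit ξ ∧ d.D ξ ζ β γ ∧
    η = ord N ξ ∧ z = opair (ord N ζ) (opair (ord N β) (ord N γ))
  hC : ∀ ξ < om1, Codes (d.S ξ (d.X ξ)) (d.e ξ)

namespace Sit

variable (t : Sit N)

theorem sM_X {ξ : Ordinal.{0}} (h : ξ < om1) :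
    sM t.P (R N (t.d.X ξ)) = R N (t.d.S ξ (t.d.X ξ)) := by
  rw [sM_eq t.hP]
  congr 1
  exact TData.decode t.hp h

theorem stM_X {ξ : Ordinal.{0}} (h : ξ < om1) :
    stM t.P (R N (t.d.X ξ)) = R N (t.d.X (ξ + 1)) := by
  rw [stM_eq t.hP, TData.X_succ_eq t.hp h]
  rfl

theorem inY_iff {η : Ordinal.{0}} (hη : η < om1) (hl : Order.IsSuccLimit η) {h : N.C}
    (hh : ∀ ζ < η, ap h (ord N ζ) = R N (t.d.X ζ)) (k a : ℕ) :
    InY t.P t.D h (ord N η) (nu N k) (nu N a) ↔ a ∈ t.d.Y η k := by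
  unfold InY TData.Y
  simp only [mem_ofPred_eq]
  constructor
  · intro H i hi ζ γ hD
    obtain ⟨h1, h2⟩ := t.d.D1 _ _ _ _ hD
    have := H (nu N i) (by rw [← nu_succ, nu_mem]; omega) (ord N ζ) (ord N (t.d.e ζ i))
      (ord N γ) ((t.hD _ _).2 ⟨η, ζ, _, γ, hη, hl, hD, rfl, rfl⟩)
      (by rw [hh ζ h1, t.sM_X (h1.trans hη)]; exact (WO_iff (t.hC ζ (h1.trans hη)) i _).2 rfl)
    rw [hh γ h2, nu_R] at this
    exact this
  · intro H i hi ζ β γ hD hW
    obtain ⟨ξ', ζ', β', γ', h1, _, h2, h3, h4⟩ := (t.hD _ _).1 hD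
    obtain ⟨rfl, h5⟩ := opair_inj h4
    obtain ⟨rfl, rfl⟩ := opair_inj h5
    have h6 := ord_inj h3
    subst h6
    obtain ⟨h7, h8⟩ := t.d.D1 _ _ _ _ h2
    rw [← nu_succ] at hi
    obtain ⟨i, rfl⟩ := mem_omega_iff.1 (mem_omega_of_mem hi (nu_omega _))
    rw [nu_mem] at hi
    rw [hh ζ' h7, t.sM_X (h7.trans hη), WO_iff (t.hC ζ' (h7.trans hη))] at hW
    have h9 := ord_inj hW
    subst h9
    rw [hh γ' h8, nu_R]
    exact H i (by omega) ζ' γ' h2

theorem limM_X {η : Ordinal.{0}} (hη : η < om1) (hl : Order.IsSuccLimit η) {h : N.C}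
    (hh : ∀ ζ < η, ap h (ord N ζ) = R N (t.d.X ζ)) :
    limM t.P t.D h (ord N η) = R N (t.d.X η) := by
  rw [t.d.X_limit hl]
  have hsub : ∀ k a : ℕ, nu N k ⊆ nu N a ↔ k ≤ a := by
    intro k a
    unfold nu
    rw [ord_sub]
    exact Nat.cast_le
  apply R_ext
  · intro z hz
    unfold limM at hz
    rw [H78.ZF.mem_sep] at hz
    exact hz.1
  · intro a
    unfold limM PI
    rw [H78.ZF.mem_sep]
    simp only [mem_ofPred_eq]
    constructor
    · rintro ⟨_, k, hk, h1, h2, h3⟩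
      obtain ⟨k, rfl⟩ := mem_omega_iff.1 hk
      rw [hsub] at h1
      rw [t.inY_iff hη hl hh] at h2
      refine ⟨k, h1, h2, fun b hb hkb hY => ?_⟩
      exact h3 (nu N b) (nu_mem.2 hb) ((hsub _ _).2 hkb) ((t.inY_iff hη hl hh k b).2 hY)
    · rintro ⟨k, h1, h2, h3⟩
      refine ⟨nu_omega a, nu N k, nu_omega k, (hsub _ _).2 h1, (t.inY_iff hη hl hh k a).2 h2, ?_⟩
      intro b hb hkb hY
      obtain ⟨b, rfl⟩ := mem_omega_iff.1 (mem_omega_of_mem hb (nu_omega a))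
      rw [hsub] at hkb
      rw [nu_mem] at hb
      exact h3 b hb hkb ((t.inY_iff hη hl hh k b).1 hY)

theorem good_val {ξ : Ordinal.{0}} (hξ : ξ < om1) {h : N.C} (hg : Good t.P t.D (ord N ξ) h)
    (η : Ordinal.{0}) : η ≤ ξ → ap h (ord N η) = R N (t.d.X η) := by
  induction η using WellFoundedLT.induction with
  | ind η ih =>
  intro hη
  rcases zero_or_succ_or_isSuccLimit η with h0 | ⟨o, h0⟩ | h0
  · subst h0
    rw [ord_zero, hg.2.1, TData.X_zero, R_univ]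
  · have h' : η = o + 1 := by rw [← h0]; rfl
    subst h'
    have ho : o < ξ := lt_of_lt_of_le (by simp) hη
    rw [ord_succ, hg.2.2.1 _ (ord_mem.2 ho), ih o (by simp) ho.le, t.stM_X (ho.trans hξ)]
  · rw [hg.2.2.2 _ (by rw [← ord_succ, ord_mem]; exact Order.lt_add_one_iff.2 hη)
      (lim_ord.2 h0)]
    exact t.limM_X (hη.trans_lt hξ) h0 fun ζ hζ => ih ζ hζ (hζ.le.trans hη)

end Sit

/-- Every countable sequence of reals, indexed by a countable ordinal, is in the model. -/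
theorem exists_seq {ξ : Ordinal.{0}} (hξ : ξ < om1) (X : Ordinal.{0} → Set ℕ) :
    ∃ h : N.C, ∀ z, z ∈ h ↔ ∃ η ≤ ξ, z = opair (ord N η) (R N (X η)) := by
  have hc : (Iic ξ).Countable := by
    have := countable_Iio (TData.om1_succ hξ)
    refine this.mono ?_
    intro α hα
    exact mem_Iio.2 (Order.lt_add_one_iff.2 hα)
  obtain ⟨e, he⟩ := hc.exists_eq_range ⟨ξ, mem_Iic.2 le_rfl⟩
  obtain ⟨s, _, hs, _⟩ := exists_s (x := Set.univ) Set.infinite_univ
    {k | ∃ m n, e m < e n ∧ k = 3 * Nat.pair m n + 1} (fun _ => 0)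
  have hcode : Codes s e := by
    constructor
    · intro m n
      unfold payW
      rw [hs]
      simp only [mem_ofPred_eq]
      constructor
      · rintro ⟨m', n', h, e1⟩
        have : Nat.pair m n = Nat.pair m' n' := by omega
        rw [Nat.pair_eq_pair] at this
        rw [this.1, this.2]; exact h
      · intro h; exact ⟨m, n, h, rfl⟩
    · intro n β hβ
      have h1 : e n ∈ Iic ξ := by rw [he]; exact ⟨n, rfl⟩
      have h2 : β ∈ Iic ξ := hβ.le.trans h1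
      rw [he] at h2
      exact h2
  obtain ⟨f, hf⟩ := exists_col (N := N) hcode (ξ + 1)
  refine ⟨sep (prod (ord N (ξ + 1)) (pow omega)) (fun z => ∃ n x y, z = opair x y ∧
    opair n x ∈ f ∧ ∀ m, m ∈ (omega : N.C) → (m ∈ y ↔ pr n m ∈ Rel N fun n m => m ∈ X (e n))),
    fun z => ?_⟩
  rw [H78.ZF.mem_sep, H78.ZF.mem_prod]
  constructor
  · rintro ⟨⟨x, hx, y, hy, rfl⟩, n, x', y', e1, h1, h2⟩
    obtain ⟨rfl, rfl⟩ := opair_inj e1
    obtain ⟨m, hm, e2⟩ := (hf _).1 h1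
    obtain ⟨rfl, rfl⟩ := opair_inj e2
    refine ⟨e m, Order.lt_add_one_iff.1 hm, ?_⟩
    congr 1
    rw [H78.ZF.mem_pow] at hy
    apply R_ext hy
    intro k
    rw [h2 _ (nu_omega k), mem_Rel]
  · rintro ⟨η, hη, rfl⟩
    have h1 : η ∈ Iic ξ := hη
    rw [he] at h1
    obtain ⟨n, rfl⟩ := h1
    refine ⟨⟨_, ord_mem.2 (Order.lt_add_one_iff.2 hη), _, ?_, rfl⟩, nu N n, _, _, rfl, ?_, ?_⟩
    · rw [H78.ZF.mem_pow]; exact R_sub _
    · rw [hf]; exact ⟨n, Order.lt_add_one_iff.2 hη, rfl⟩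
    · intro m hm
      obtain ⟨m, rfl⟩ := mem_omega_iff.1 hm
      rw [nu_R, mem_Rel]

namespace Sit

variable (t : Sit N)

theorem exists_good {ξ : Ordinal.{0}} (hξ : ξ < om1) : ∃ h : N.C, Good t.P t.D (ord N ξ) h := by
  obtain ⟨h, hh⟩ := exists_seq (N := N) hξ t.d.X
  have hfun : Fun h (succ (ord N ξ)) (pow omega) := by
    constructor
    · intro z hz
      obtain ⟨η, hη, rfl⟩ := (hh z).1 hz
      refine ⟨_, ?_, _, ?_, rfl⟩
      · rw [← ord_succ, ord_mem]; exact Order.lt_add_one_iff.2 hη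
      · rw [H78.ZF.mem_pow]; exact R_sub _
    · intro x hx
      rw [← ord_succ, mem_ord] at hx
      obtain ⟨η, hη, rfl⟩ := hx
      refine ⟨R N (t.d.X η), (hh _).2 ⟨η, Order.lt_add_one_iff.1 hη, rfl⟩, ?_⟩
      intro y hy
      obtain ⟨η', _, e1⟩ := (hh _).1 hy
      obtain ⟨e2, e3⟩ := opair_inj e1
      rw [e3, ord_inj e2]
  have hval : ∀ η ≤ ξ, ap h (ord N η) = R N (t.d.X η) := by
    intro η hη
    exact hfun.ap_eq ((hh _).2 ⟨η, hη, rfl⟩)
  refine ⟨h, hfun, ?_, ?_, ?_⟩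
  · rw [← ord_zero, hval 0 (by simp), TData.X_zero, R_univ]
  · intro η hη
    obtain ⟨o, ho, rfl⟩ := mem_ord.1 hη
    rw [← ord_succ, hval _ (Order.add_one_le_of_lt ho), hval _ ho.le, t.stM_X (ho.trans hξ)]
  · intro η hη hl
    rw [← ord_succ, mem_ord] at hη
    obtain ⟨o, ho, rfl⟩ := hη
    have ho' := Order.lt_add_one_iff.1 ho
    rw [hval _ ho']
    exact (t.limM_X (ho'.trans_lt hξ) (lim_ord.1 hl) fun ζ hζ => hval ζ (hζ.le.trans ho')).symm

/-- The coded families are in the model. -/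
theorem fam_mem (F : Set ℕ → Set ℕ) (hF : OpenOp fun x _ => F x) :
    fam {A | ∃ ξ < om1, A = F (t.d.S ξ (t.d.X ξ))} ∈ N.M := by
  obtain ⟨cF, hcF⟩ := exists_code (N := N) _ hF
  let G : N.C := sep (pow H78.ZF.omega) (fun b => ∃ ξ, ξ ∈ ord N om1 ∧ ∃ h, Good t.P t.D ξ h ∧
    b = opM N cF (sM t.P (ap h ξ)) (sM t.P (ap h ξ)))
  have hG : IsFam G {A | ∃ ξ < om1, A = F (t.d.S ξ (t.d.X ξ))} := by
    intro z
    show z ∈ sep _ _ ↔ _
    rw [H78.ZF.mem_sep]
    simp only [mem_ofPred_eq]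
    constructor
    · rintro ⟨_, ξ, hξ, h, hg, rfl⟩
      obtain ⟨o, ho, rfl⟩ := mem_ord.1 hξ
      refine ⟨_, ⟨o, ho, rfl⟩, ?_⟩
      rw [t.good_val ho hg o le_rfl, t.sM_X ho, hcF]
    · rintro ⟨_, ⟨o, ho, rfl⟩, rfl⟩
      obtain ⟨h, hg⟩ := t.exists_good ho
      refine ⟨by rw [H78.ZF.mem_pow]; exact R_sub _, ord N o, ord_mem.2 ho, h, hg, ?_⟩
      rw [t.good_val ho hg o le_rfl, t.sM_X ho, hcF]
  rw [← isFam_iff.1 hG]
  exact G.2

end Sit

end IM

end Pool.Agent.NMB
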