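import Pool.Agent.NMB.ITwo
import Pool.Agent.NPA.BAbs2

/-!
# NMB/IAbs: the tower is computed in inner models
-/

universe u

namespace Pool.Agent.ZFIter.NPA.BSM

open Pool.Agent.H78.ZF Pool.Agent.ZFIter Pool.Agent.ZFIter.NPA

variable {M : Type u} [ZFM M] {ι : Type}

section
variable {K : M → Prop} [hK : Inner K]

theorem K_mem {x : M} {y : Sub K} (h : x ∈ y.1) : K x := Inner.trans _ _ y.2 h

/-- Bounded quantifiers. -/
theorem abs_all {y : Sub K} {P : Sub K → Prop} {Q : M → Prop}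
    (h : ∀ x : Sub K, x ∈ y → (P x ↔ Q x.1)) : (∀ x, x ∈ y → P x) ↔ ∀ x, x ∈ y.1 → Q x := by
  constructor
  · intro H x hx
    exact (h ⟨x, K_mem hx⟩ hx).1 (H ⟨x, K_mem hx⟩ hx)
  · intro H x hx
    exact (h x hx).2 (H x.1 hx)

theorem abs_ex {y : Sub K} {P : Sub K → Prop} {Q : M → Prop}
    (h : ∀ x : Sub K, x ∈ y → (P x ↔ Q x.1)) : (∃ x, x ∈ y ∧ P x) ↔ ∃ x, x ∈ y.1 ∧ Q x := by
  constructor
  · rintro ⟨x, hx, H⟩
    exact ⟨x.1, hx, (h x hx).1 H⟩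
  · rintro ⟨x, hx, H⟩
    exact ⟨⟨x, K_mem hx⟩, hx, (h ⟨x, K_mem hx⟩ hx).2 H⟩

theorem abs_eq {x y : Sub K} : x = y ↔ x.1 = y.1 := ⟨fun h => by rw [h], sub_inj⟩

theorem abs_sep {a : Sub K} {P : Sub K → Prop} [D1 P] {Q : M → Prop} [D1 Q]
    (h : ∀ x : Sub K, x ∈ a → (P x ↔ Q x.1)) : (sep a P).1 = sep a.1 Q := by
  apply Pool.Agent.H78.ZF.ext
  intro x
  rw [mem_abs_sep, mem_sep]
  constructor
  · rintro ⟨h1, h2, h3⟩
    exact ⟨h1, (h ⟨x, h2⟩ h1).1 h3⟩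
  · rintro ⟨h1, h2⟩
    exact ⟨h1, K_mem h1, (h ⟨x, K_mem h1⟩ h1).2 h2⟩

theorem K_pair {x y : M} (h : K (opair x y)) : K x ∧ K y := by
  have h1 : K (upair x y) := Inner.trans _ _ h (by unfold opair; simp)
  exact ⟨Inner.trans _ _ h1 (by simp), Inner.trans _ _ h1 (by simp)⟩

@[simp] theorem abs_fs (w : Sub K) : (fs w).1 = fs w.1 := by
  unfold fs
  apply abs_iota
  intro a
  constructor
  · rintro ⟨b, h⟩
    obtain ⟨h1, h2⟩ := K_pair (h ▸ w.2)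
    exact ⟨h1, ⟨b, h2⟩, abs_eq.2 (by rw [abs_opair]; exact h)⟩
  · rintro ⟨h1, b, h2⟩
    refine ⟨b.1, ?_⟩
    rw [h2, abs_opair]

@[simp] theorem abs_sn (w : Sub K) : (sn w).1 = sn w.1 := by
  unfold sn
  apply abs_iota
  intro a
  constructor
  · rintro ⟨b, h⟩
    obtain ⟨h1, h2⟩ := K_pair (h ▸ w.2)
    exact ⟨h2, ⟨b, h1⟩, abs_eq.2 (by rw [abs_opair]; exact h)⟩
  · rintro ⟨h1, b, h2⟩
    refine ⟨b.1, ?_⟩
    rw [h2, abs_opair]

@[simp] theorem abs_otp (Y α : Sub K) : (otp Y α).1 = otp Y.1 α.1 := by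
  unfold otp
  apply abs_erec
  intro α g
  rw [abs_img' (sep Y fun β => β ∈ α) (fun β => ap g β) (fun β => ap g.1 β)
    (fun β _ => abs_ap g β)]
  congr 1
  exact abs_sep fun β _ => sub_mem

theorem abs_mem_omega {x : Sub K} : x ∈ (omega : Sub K) ↔ x.1 ∈ (omega : M) := by
  rw [sub_mem, abs_omega]

theorem K_omega {x : M} (h : x ∈ (omega : M)) : K x := by
  rw [← abs_omega (K := K)] at h
  exact K_mem h

/-- Quantifiers over `omega`. -/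
theorem abs_ex_omega {P : Sub K → Prop} {Q : M → Prop}
    (h : ∀ x : Sub K, x ∈ (omega : Sub K) → (P x ↔ Q x.1)) :
    (∃ x, x ∈ (omega : Sub K) ∧ P x) ↔ ∃ x, x ∈ (omega : M) ∧ Q x := by
  rw [abs_ex h, abs_omega]

theorem abs_all_omega {P : Sub K → Prop} {Q : M → Prop}
    (h : ∀ x : Sub K, x ∈ (omega : Sub K) → (P x ↔ Q x.1)) :
    (∀ x, x ∈ (omega : Sub K) → P x) ↔ ∀ x, x ∈ (omega : M) → Q x := by
  rw [abs_all h, abs_omega]

@[simp] theorem abs_Tz (x z : Sub K) : (Tz x z).1 = Tz x.1 z.1 := by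
  unfold Tz
  apply abs_sep
  intro a _
  apply abs_ex_omega
  intro m _
  rw [abs_eq, abs_otp, abs_sq, abs_succ]

@[simp] theorem abs_pp (x : Sub K) : (pp x).1 = pp x.1 := by
  unfold pp
  rw [abs_sep (Q := fun k => ap x.1 k = emp) (fun k _ => by rw [abs_eq, abs_ap, abs_emp]), abs_omega]

@[simp] theorem abs_pL (x : Sub K) : (pL x).1 = pL x.1 := by
  unfold pL
  rw [abs_mkf omega omega _ (fun k => iota (fun a => ∃ b, b ∈ (omega : M) ∧ a ∈ (omega : M) ∧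
    ap x.1 k = pr a b)), abs_omega]
  intro k _
  apply abs_iota
  intro a
  constructor
  · rintro ⟨b, hb, ha, e⟩
    refine ⟨K_omega ha, ⟨b, K_omega hb⟩, abs_mem_omega.2 hb, abs_mem_omega.2 ha, ?_⟩
    rw [abs_eq, abs_ap, abs_pr]
    exact e
  · rintro ⟨h, b, hb, ha, e⟩
    rw [abs_eq, abs_ap, abs_pr] at e
    exact ⟨b.1, abs_mem_omega.1 hb, abs_mem_omega.1 ha, e⟩

@[simp] theorem abs_pR (x : Sub K) : (pR x).1 = pR x.1 := by
  unfold pR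
  rw [abs_mkf omega omega _ (fun k => iota (fun b => ∃ a, a ∈ (omega : M) ∧ b ∈ (omega : M) ∧
    ap x.1 k = pr a b)), abs_omega]
  intro k _
  apply abs_iota
  intro b
  constructor
  · rintro ⟨a, ha, hb, e⟩
    refine ⟨K_omega hb, ⟨a, K_omega ha⟩, abs_mem_omega.2 ha, abs_mem_omega.2 hb, ?_⟩
    rw [abs_eq, abs_ap, abs_pr]
    exact e
  · rintro ⟨h, a, ha, hb, e⟩
    rw [abs_eq, abs_ap, abs_pr] at e
    exact ⟨a.1, abs_mem_omega.1 ha, abs_mem_omega.1 hb, e⟩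

@[simp] theorem abs_vA (z : Sub K) : (vA z).1 = vA z.1 := by
  unfold vA; rw [abs_pL, abs_pL]
@[simp] theorem abs_vE (z : Sub K) : (vE z).1 = vE z.1 := by
  unfold vE; rw [abs_pL, abs_pR, abs_pL]
@[simp] theorem abs_vB (z : Sub K) : (vB z).1 = vB z.1 := by
  unfold vB; rw [abs_pR, abs_pR, abs_pL]

theorem abs_Unb {x : Sub K} : Unb x ↔ Unb x.1 := by
  unfold Unb
  rw [abs_sub, abs_omega]
  have : (∀ n, n ∈ (omega : Sub K) → ∃ k, k ∈ x ∧ n ⊆ k) ↔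
      ∀ n, n ∈ (omega : M) → ∃ k, k ∈ x.1 ∧ n ⊆ k := by
    apply abs_all_omega
    intro n _
    apply abs_ex
    intro k _
    exact abs_sub
  rw [this]

@[simp] theorem abs_stp (x z : Sub K) : (stp x z).1 = stp x.1 z.1 := by
  unfold stp
  rw [abs_sep (Q := fun k => (k ∈ pp (vA z.1) ↔
    Unb (sep (Tz x.1 z.1) (fun k => k ∈ pp (vA z.1))))), abs_Tz]
  intro k _
  have h1 : (sep (Tz x z) (fun k => k ∈ pp (vA z))).1 =
      sep (Tz x.1 z.1) (fun k => k ∈ pp (vA z.1)) := by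
    rw [abs_sep (Q := fun k => k ∈ pp (vA z.1)), abs_Tz]
    intro j _
    rw [sub_mem, abs_pp, abs_vA]
  rw [sub_mem, abs_pp, abs_vA, abs_Unb, h1]

theorem abs_NnS (e ξ g : Sub K) : (NnS e ξ g).1 = NnS e.1 ξ.1 g.1 := by
  unfold NnS
  apply abs_iota
  intro i
  have key : ∀ i' : Sub K, (∀ m, m ∈ (omega : Sub K) → ((m ≠ i' ∧ ap e (pr m i') = emp) ↔
      ∃ ζ, ζ ∈ ξ ∧ m = ap g ζ)) ↔ ∀ m, m ∈ (omega : M) → ((m ≠ i'.1 ∧ ap e.1 (pr m i'.1) = emp) ↔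
      ∃ ζ, ζ ∈ ξ.1 ∧ m = ap g.1 ζ) := by
    intro i'
    apply abs_all_omega
    intro m _
    have h1 : (∃ ζ, ζ ∈ ξ ∧ m = ap g ζ) ↔ ∃ ζ, ζ ∈ ξ.1 ∧ m.1 = ap g.1 ζ := by
      apply abs_ex
      intro ζ _
      rw [abs_eq, abs_ap]
    rw [h1, Ne, Ne, abs_eq, abs_eq, abs_ap, abs_pr, abs_emp]
  constructor
  · rintro ⟨h1, h2, h3⟩
    refine ⟨K_omega h1, abs_mem_omega.2 h1, ?_, (key ⟨i, K_omega h1⟩).2 h3⟩
    rw [abs_eq, abs_ap, abs_pr, abs_emp]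
    exact h2
  · rintro ⟨h0, h1, h2, h3⟩
    rw [abs_eq, abs_ap, abs_pr, abs_emp] at h2
    exact ⟨abs_mem_omega.1 h1, h2, (key ⟨i, h0⟩).1 h3⟩

@[simp] theorem abs_Nn (e ξ : Sub K) : (Nn e ξ).1 = Nn e.1 ξ.1 := by
  unfold Nn
  apply abs_erec
  intro ξ g
  exact abs_NnS e ξ g

theorem abs_InY (c S f η k a : Sub K) :
    InY c S f η k a ↔ InY c.1 S.1 f.1 η.1 k.1 a.1 := by
  unfold InY
  have e1 : (ap (fs S) (fs (ap (sn S) η))).1 = ap (fs S.1) (fs (ap (sn S.1) η.1)) := by simp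
  rw [← e1]
  apply abs_all
  intro ξ _
  rw [sub_mem, sub_mem]
  simp

@[simp] theorem abs_limS (c S f η : Sub K) :
    (limS c S f η).1 = limS c.1 S.1 f.1 η.1 := by
  unfold limS
  rw [abs_sep (Q := fun a => ∃ k, k ∈ (omega : M) ∧ k ⊆ a ∧ InY c.1 S.1 f.1 η.1 k a ∧
    ∀ b, b ∈ a → k ⊆ b → ¬ InY c.1 S.1 f.1 η.1 k b), abs_omega]
  intro a _
  apply abs_ex_omega
  intro k _
  have h1 : (∀ b, b ∈ a → k ⊆ b → ¬ InY c S f η k b) ↔
      ∀ b, b ∈ a.1 → k.1 ⊆ b → ¬ InY c.1 S.1 f.1 η.1 k.1 b := by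
    apply abs_all
    intro b _
    rw [abs_sub, abs_InY]
  rw [h1, abs_sub, abs_InY]

@[simp] theorem abs_GT (c S η f : Sub K) : (GT c S η f).1 = GT c.1 S.1 η.1 f.1 := by
  unfold GT
  apply abs_iota
  intro y
  have hl : (∀ ζ, ζ ∈ η → succ ζ ∈ η) ↔ ∀ ζ, ζ ∈ η.1 → succ ζ ∈ η.1 := by
    apply abs_all
    intro ζ _
    rw [sub_mem, abs_succ]
  constructor
  · rintro (⟨h1, h2⟩ | ⟨ζ, h1, h2⟩ | ⟨h1, h2, h3⟩)
    · have : y = (omega : Sub K).1 := by rw [h2, abs_omega]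
      subst this
      exact ⟨(omega : Sub K).2, Or.inl ⟨by rw [abs_eq, abs_emp]; exact h1, rfl⟩⟩
    · have hζ : ζ ∈ η.1 := by rw [h1]; simp
      have : y = (stp (ap f ⟨ζ, K_mem hζ⟩) (ap c (opair (ap f ⟨ζ, K_mem hζ⟩) ⟨ζ, K_mem hζ⟩))).1 := by
        rw [h2]; simp
      subst this
      exact ⟨Subtype.property _, Or.inr (Or.inl ⟨⟨ζ, K_mem hζ⟩, by rw [abs_eq, abs_succ]; exact h1,
        rfl⟩)⟩
    · have : y = (limS c S f η).1 := by rw [h3]; simp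
      subst this
      exact ⟨Subtype.property _, Or.inr (Or.inr ⟨fun e => h1 (by rw [e, abs_emp]), hl.2 h2, rfl⟩)⟩
  · rintro ⟨hy, ⟨h1, h2⟩ | ⟨ζ, h1, h2⟩ | ⟨h1, h2, h3⟩⟩
    · left
      rw [abs_eq] at h1 h2
      rw [abs_emp] at h1
      rw [abs_omega] at h2
      exact ⟨h1, h2⟩
    · right; left
      rw [abs_eq] at h1 h2
      refine ⟨ζ.1, ?_, ?_⟩
      · rw [h1, abs_succ]
      · simpa using h2
    · right; right
      refine ⟨fun e => h1 (abs_eq.2 (by rw [abs_emp]; exact e)), hl.1 h2, ?_⟩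
      rw [abs_eq] at h3
      simpa using h3

@[simp] theorem abs_XT (c S η : Sub K) : (XT c S η).1 = XT c.1 S.1 η.1 := by
  unfold XT
  apply abs_erec
  intro η f
  exact abs_GT c S η f

end

end Pool.Agent.ZFIter.NPA.BSM
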