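import Pool.Agent.NMB.INn

/-!
# NMB/IInv: the tower decreases modulo finite sets
-/

universe u

namespace Pool.Agent.ZFIter.NPA.BSM

open Pool.Agent.H78.ZF Pool.Agent.ZFIter Pool.Agent.ZFIter.NPA

variable {M : Type u} [ZFM M] {ι : Type}

theorem ord_succ_inj {α β : M} (hα : Ord α) (h : succ α = succ β) : α = β := by
  have h1 : α ∈ succ β := by rw [← h]; simp
  have h2 : β ∈ succ α := by rw [h]; simp
  rw [mem_succ] at h1 h2
  rcases h1 with h1 | h1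
  · rcases h2 with h2 | h2
    · exact absurd h1 (hα.asymm h2)
    · exact h2.symm
  · exact h1

section
variable {c S : M}

theorem XT_rec (η : M) : XT c S η = GT c S η (mkseq η (fun y => XT c S y)) := by
  unfold XT
  exact erec_eq (G := fun η f => GT c S η f) η

theorem XT_zero : XT c S emp = omega := by
  rw [XT_rec]
  unfold GT
  apply iota_eq
  · exact Or.inl ⟨rfl, rfl⟩
  · rintro y (⟨_, h⟩ | ⟨ζ, h, _⟩ | ⟨h, _⟩)
    · exact h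
    · exact absurd h.symm (succ_ne_emp ζ)
    · exact absurd rfl h

theorem XT_succ {ζ : M} (hζ : Ord ζ) : XT c S (succ ζ) = stp (XT c S ζ) (ZT c S ζ) := by
  rw [XT_rec]
  have e : ap (mkseq (succ ζ) (fun y => XT c S y)) ζ = XT c S ζ := ap_mkseq (by simp)
  unfold GT
  apply iota_eq
  · refine Or.inr (Or.inl ⟨ζ, rfl, ?_⟩)
    rw [e]
    rfl
  · rintro y (⟨h, _⟩ | ⟨ζ', h, h'⟩ | ⟨_, h, _⟩)
    · exact absurd h (succ_ne_emp ζ)
    · rw [← ord_succ_inj hζ h, e] at h'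
      rw [h']
      rfl
    · exact absurd (h ζ (by simp)) (not_mem_self _)

theorem XT_lim {η : M} (h0 : η ≠ emp) (hl : ∀ ζ, ζ ∈ η → succ ζ ∈ η) :
    XT c S η = limS c S (mkseq η (fun y => XT c S y)) η := by
  rw [XT_rec]
  unfold GT
  apply iota_eq
  · exact Or.inr (Or.inr ⟨h0, hl, rfl⟩)
  · rintro y (⟨h, _⟩ | ⟨ζ', h, h'⟩ | ⟨_, h, h'⟩)
    · exact absurd h h0
    · exact absurd (h ▸ hl ζ' (by rw [h]; simp)) (not_mem_self _)
    · exact h'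

end

/-- The ladder at a limit ordinal. -/
theorem TowerHyp.lad' {κ S : M} (hS : TowerHyp κ S) {η : M} (hη : η ∈ κ) (h0 : η ≠ emp)
    (hl : ∀ ζ, ζ ∈ η → succ ζ ∈ η) :
    fs (ap (sn S) η) ∈ η ∧ Fun (sn (ap (sn S) η)) (ap (fs S) (fs (ap (sn S) η))) η ∧
      ∀ δ, δ ∈ η → ∃ ξ, ξ ∈ ap (fs S) (fs (ap (sn S) η)) ∧ δ ∈ ap (sn (ap (sn S) η)) ξ := by
  obtain ⟨nx, s, rfl, _, h1⟩ := hS.lad
  obtain ⟨γ, h, e, hγ, hh, hc⟩ := h1 η hη h0 hl
  rw [fs_opair, sn_opair, e, fs_opair, sn_opair]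
  exact ⟨hγ, hh, hc⟩

theorem TowerHyp.nx {κ S : M} (hS : TowerHyp κ S) {γ : M} (hγ : γ ∈ κ) :
    γ ∈ ap (fs S) γ ∧ ap (fs S) γ ∈ κ := by
  obtain ⟨nx, s, rfl, h1, _⟩ := hS.lad
  rw [fs_opair]
  exact h1 γ hγ

theorem TowerHyp.succ_mem {κ S : M} (hS : TowerHyp κ S) {γ : M} (hγ : γ ∈ κ) : succ γ ∈ κ := by
  rcases ord_zero_succ_limit hS.ord with ⟨β, h⟩ | h
  · exfalso
    have hβ : β ∈ κ := by rw [h]; simp
    obtain ⟨δ, hδ, h1⟩ := hS.reg (mkf omega κ (fun _ => β)) (mkf_fun fun _ _ => hβ)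
    have h2 := h1 emp emp_mem_omega
    rw [ap_mkf (fun _ _ => hβ) emp_mem_omega] at h2
    rw [h] at hδ
    rw [mem_succ] at hδ
    rcases hδ with h3 | h3
    · exact (hS.ord.mem hβ).asymm h3 h2
    · rw [h3] at h2; exact not_mem_self _ h2
  · exact h γ hγ

theorem TowerHyp.emp_mem {κ S : M} (hS : TowerHyp κ S) : emp ∈ κ :=
  hS.ord.trans emp_mem_omega hS.om

theorem succ_sub_succ {m n : M} (hm : m ∈ (omega : M)) (hn : n ∈ (omega : M)) (h : m ⊆ n) :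
    succ m ⊆ succ n := by
  rcases (le_iff hm hn).1 h with h | h
  · exact sub_trans ((succ_le_iff hn).2 h) (fun z hz => by simp [hz])
  · rw [h]; exact sub_refl _

theorem Unb_omega : Unb (omega : M) :=
  ⟨sub_refl _, fun n hn => ⟨n, hn, sub_refl n⟩⟩

/-- The pseudo-intersection of a decreasing sequence. -/
theorem pi_step (P : M → M → Prop) [D2 P]
    (hunb : ∀ k, k ∈ (omega : M) → ∀ m, m ∈ (omega : M) → ∃ a, a ∈ (omega : M) ∧ m ⊆ a ∧ P k a)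
    (hmono : ∀ k, k ∈ (omega : M) → ∀ l, l ∈ (omega : M) → ∀ a, k ⊆ l → P l a → P k a) {Y : M}
    (hY : ∀ a, a ∈ Y ↔ a ∈ (omega : M) ∧ ∃ k, k ∈ (omega : M) ∧ k ⊆ a ∧ P k a ∧
      ∀ b, b ∈ a → k ⊆ b → ¬ P k b) :
    Unb Y ∧ ∀ k, k ∈ (omega : M) → ∃ n, n ∈ (omega : M) ∧ ∀ a, a ∈ Y → n ⊆ a → P k a := by
  constructor
  · refine ⟨fun a ha => ((hY a).1 ha).1, fun n hn => ?_⟩
    obtain ⟨a0, ha0, h1, h2⟩ := hunb n hn n hn
    obtain ⟨a, ha, ⟨h3, h4⟩, h5⟩ := exists_least (fun a => n ⊆ a ∧ P n a) ⟨a0, ha0, h1, h2⟩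
    exact ⟨a, (hY a).2 ⟨ha, n, hn, h3, h4, fun b hb hle hP => h5 b hb ⟨hle, hP⟩⟩, h3⟩
  · intro k hk
    obtain ⟨n, hn, H⟩ := fin_bounded (fun l a => l ⊆ a ∧ P l a ∧ ∀ b, b ∈ a → l ⊆ b → ¬ P l b)
      (nat_fin hk) (by
        intro l hl
        have hlo := mem_omega_of_mem hl hk
        by_cases hex : ∃ a, a ∈ (omega : M) ∧ l ⊆ a ∧ P l a ∧ ∀ b, b ∈ a → l ⊆ b → ¬ P l b
        · obtain ⟨a, ha, h1, h2, h3⟩ := hex
          refine ⟨succ a, succ_mem_omega ha, fun b hb ⟨h4, h5, h6⟩ => ?_⟩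
          rcases trichotomy ha hb with h7 | h7 | h7
          · exact absurd h2 (h6 a h7 h1)
          · rw [h7]; simp
          · exact absurd h5 (h3 b h7 h4)
        · exact ⟨emp, emp_mem_omega, fun b hb h => absurd ⟨b, hb, h⟩ hex⟩)
    refine ⟨n, hn, fun a ha hle => ?_⟩
    obtain ⟨hao, l, hl, h1, h2, h3⟩ := (hY a).1 ha
    rcases le_or_lt hk hl with h4 | h4
    · exact hmono k hk l hl a h4 h2
    · have := H l h4 a hao ⟨h1, h2, h3⟩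
      exact absurd (hle a this) (not_mem_self a)

/-- The hypotheses on the chooser which make the tower decrease. -/
def ZC (κ S c : M) : Prop := ∀ x η, Unb x → η ∈ κ → ap c (opair x η) ∈ (RS : M) ∧
  WOc (vE (ap c (opair x η))) (ap (fs S) η)

section
variable {κ S c : M} (hS : TowerHyp κ S) (hc : ZC κ S c)

theorem inY_iff {η : M} (hη : η ∈ κ) (h0 : η ≠ emp) (hl : ∀ ζ, ζ ∈ η → succ ζ ∈ η)
    (hS : TowerHyp κ S) (k a : M) :
    InY c S (mkseq η (fun y => XT c S y)) η k a ↔ ∀ ξ, ξ ∈ ap (fs S) (fs (ap (sn S) η)) →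
      Nn (vE (ZT c S (fs (ap (sn S) η)))) ξ ∈ succ k → a ∈ XT c S (ap (sn (ap (sn S) η)) ξ) := by
  obtain ⟨h1, h2, _⟩ := hS.lad' hη h0 hl
  unfold InY
  rw [ap_mkseq h1]
  constructor
  · intro H ξ hξ hN
    have := H ξ hξ hN
    rwa [ap_mkseq (h2.ap_mem hξ)] at this
  · intro H ξ hξ hN
    rw [ap_mkseq (h2.ap_mem hξ)]
    exact H ξ hξ hN

include hS hc

theorem limit_step {η : M} (hη : η ∈ κ) (h0 : η ≠ emp) (hl : ∀ ζ, ζ ∈ η → succ ζ ∈ η)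
    (ih : ∀ ζ, ζ ∈ η → Unb (XT c S ζ) ∧ ∀ ξ, ξ ∈ ζ → AS (XT c S ζ) (XT c S ξ)) :
    Unb (XT c S η) ∧ ∀ ξ, ξ ∈ η → AS (XT c S η) (XT c S ξ) := by
  obtain ⟨h1, h2, h3⟩ := hS.lad' hη h0 hl
  set γ : M := fs (ap (sn S) η) with hγ
  set h : M := sn (ap (sn S) η) with hh
  set P : M → M → Prop := fun k a => ∀ ξ, ξ ∈ ap (fs S) γ → Nn (vE (ZT c S γ)) ξ ∈ succ k →
    a ∈ XT c S (ap h ξ) with hP
  have hPdef : ∀ k a, InY c S (mkseq η (fun y => XT c S y)) η k a ↔ P k a := fun k a =>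
    inY_iff hη h0 hl hS k a
  have hηo : Ord η := hS.ord.mem hη
  have hγκ : γ ∈ κ := hS.ord.trans h1 hη
  have hW : WOc (vE (ZT c S γ)) (ap (fs S) γ) := (hc _ _ (ih γ h1).1 hγκ).2
  obtain ⟨hN1, hN2⟩ := Nn_inj (hS.ord.mem (hS.nx hγκ).2) hW
  have hAS : ∀ δ ζ, δ ∈ η → ζ ∈ η → δ ⊆ ζ → AS (XT c S ζ) (XT c S δ) := by
    intro δ ζ hδ hζ hle
    rcases (ord_sub_iff (hηo.mem hδ) (hηo.mem hζ)).1 hle with h4 | h4
    · exact (ih ζ hζ).2 δ h4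
    · rw [h4]; exact AS.refl _
  -- for every number `k` one of the earlier sets is almost included in the `k`-th set
  have key : ∀ k, k ∈ (omega : M) → ∃ δ, δ ∈ η ∧ ∃ n, n ∈ (omega : M) ∧ ∀ a, a ∈ XT c S δ → n ⊆ a →
      ∀ ξ, ξ ∈ ap (fs S) γ → Nn (vE (ZT c S γ)) ξ ∈ k → a ∈ XT c S (ap h ξ) := by
    apply omega_induction (fun k => ∃ δ, δ ∈ η ∧ ∃ n, n ∈ (omega : M) ∧ ∀ a, a ∈ XT c S δ → n ⊆ a →
      ∀ ξ, ξ ∈ ap (fs S) γ → Nn (vE (ZT c S γ)) ξ ∈ k → a ∈ XT c S (ap h ξ))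
    · refine ⟨γ, h1, emp, emp_mem_omega, fun a _ _ ξ _ hN => absurd hN (not_mem_emp _)⟩
    · rintro k hk ⟨δ, hδ, n, hn, H⟩
      by_cases hex : ∃ ξ0, ξ0 ∈ ap (fs S) γ ∧ Nn (vE (ZT c S γ)) ξ0 = k
      · obtain ⟨ξ0, hξ0, hk0⟩ := hex
        have hhξ : ap h ξ0 ∈ η := h2.ap_mem hξ0
        have hcases := ord_un_cases (hηo.mem hδ) (hηo.mem hhξ)
        have hm : un δ (ap h ξ0) ∈ η := by
          rcases hcases with h4 | h4
          · rw [h4.1]; exact hδ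
          · rw [h4.1]; exact hhξ
        obtain ⟨n1, hn1, H1⟩ := hAS δ _ hδ hm (sub_un_left _ _)
        obtain ⟨n2, hn2, H2⟩ := hAS (ap h ξ0) _ hhξ hm (sub_un_right _ _)
        refine ⟨un δ (ap h ξ0), hm, un n (un n1 n2), un_omega hn (un_omega hn1 hn2), ?_⟩
        intro a ha hle ξ hξ hN
        rw [mem_succ] at hN
        rcases hN with hN | hN
        · refine H a (H1 a ha ?_) (sub_trans (sub_un_left _ _) hle) ξ hξ hN
          exact sub_trans (sub_un_left n1 n2) (sub_trans (sub_un_right n _) hle)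
        · have e1 := hN2 ξ ξ0 hξ hξ0 (hN.trans hk0.symm)
          rw [e1]
          exact H2 a ha (sub_trans (sub_un_right n1 n2) (sub_trans (sub_un_right n _) hle))
      · refine ⟨δ, hδ, n, hn, fun a ha hle ξ hξ hN => ?_⟩
        rw [mem_succ] at hN
        rcases hN with hN | hN
        · exact H a ha hle ξ hξ hN
        · exact absurd ⟨ξ, hξ, hN⟩ hex
  have hPunb : ∀ k, k ∈ (omega : M) → ∀ m, m ∈ (omega : M) → ∃ a, a ∈ (omega : M) ∧ m ⊆ a ∧ P k a := by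
    intro k hk m hm
    obtain ⟨δ, hδ, n, hn, H⟩ := key (succ k) (succ_mem_omega hk)
    obtain ⟨a, ha, hle⟩ := (ih δ hδ).1.2 (un n m) (un_omega hn hm)
    exact ⟨a, (ih δ hδ).1.1 a ha, sub_trans (sub_un_right _ _) hle,
      fun ξ hξ hN => H a ha (sub_trans (sub_un_left _ _) hle) ξ hξ hN⟩
  have hPD : D2 P := by rw [hP]; infer_instance
  have hmono : ∀ k, k ∈ (omega : M) → ∀ l, l ∈ (omega : M) → ∀ a, k ⊆ l → P l a → P k a := by
    intro k hk l hl' a hkl hPa ξ hξ hN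
    exact hPa ξ hξ (succ_sub_succ hk hl' hkl _ hN)
  obtain ⟨g1, g2⟩ := pi_step P hPunb hmono (Y := XT c S η) (by
    intro a
    rw [XT_lim h0 hl]
    unfold limS
    rw [mem_sep]
    simp only [hPdef])
  refine ⟨g1, fun δ hδ => ?_⟩
  obtain ⟨ξ, hξ, hδξ⟩ := h3 δ hδ
  have hhξ : ap h ξ ∈ η := h2.ap_mem hξ
  obtain ⟨n, hn, H⟩ := g2 _ (hN1 ξ hξ)
  have h4 : AS (XT c S η) (XT c S (ap h ξ)) :=
    ⟨n, hn, fun a ha hle => H a ha hle ξ hξ (by simp)⟩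
  exact h4.trans (hAS δ _ hδ hhξ ((hηo.mem hhξ).1 δ hδξ))

theorem main_inv : ∀ η, η ∈ κ → Unb (XT c S η) ∧ ∀ ζ, ζ ∈ η → AS (XT c S η) (XT c S ζ) := by
  have key : ∀ η, Ord η → η ∈ κ → Unb (XT c S η) ∧ ∀ ζ, ζ ∈ η → AS (XT c S η) (XT c S ζ) := by
    apply ord_induction (fun η => η ∈ κ → Unb (XT c S η) ∧ ∀ ζ, ζ ∈ η → AS (XT c S η) (XT c S ζ))
    intro η hηo ih hη
    have ih' : ∀ ζ, ζ ∈ η → Unb (XT c S ζ) ∧ ∀ ξ, ξ ∈ ζ → AS (XT c S ζ) (XT c S ξ) :=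
      fun ζ hζ => ih ζ hζ (hS.ord.trans hζ hη)
    by_cases h0 : η = emp
    · subst h0
      rw [XT_zero]
      exact ⟨Unb_omega, fun ζ hζ => absurd hζ (not_mem_emp _)⟩
    rcases ord_zero_succ_limit hηo with ⟨ζ, h⟩ | h
    · have hζη : ζ ∈ η := by rw [h]; simp
      have hζo := hηo.mem hζη
      obtain ⟨h1, h2⟩ := ih' ζ hζη
      have hz := (hc _ ζ h1 (hS.ord.trans hζη hη)).1
      rw [h, XT_succ hζo]
      refine ⟨stp_unb h1 hz, fun ξ hξ => ?_⟩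
      rw [mem_succ] at hξ
      rcases hξ with hξ | hξ
      · exact (AS.of_sub (stp_sub _ _)).trans (h2 ξ hξ)
      · rw [hξ]; exact AS.of_sub (stp_sub _ _)
    · exact limit_step hS hc hη h0 h ih'
  intro η hη
  exact key η (hS.ord.mem hη) hη

theorem XT_unb {η : M} (hη : η ∈ κ) : Unb (XT c S η) := (main_inv hS hc η hη).1

theorem XT_AS {η ζ : M} (hη : η ∈ κ) (hζ : ζ ∈ κ) (h : ζ ⊆ η) : AS (XT c S η) (XT c S ζ) := by
  rcases (ord_sub_iff (hS.ord.mem hζ) (hS.ord.mem hη)).1 h with h | h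
  · exact (main_inv hS hc η hη).2 ζ h
  · rw [h]; exact AS.refl _

end

end Pool.Agent.ZFIter.NPA.BSM
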