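import Pool.Agent.NMB.IStp

/-!
# NMB/INn: the numbers of the ordinals below a coded ordinal
-/

universe u

namespace Pool.Agent.ZFIter.NPA.BSM

open Pool.Agent.H78.ZF Pool.Agent.ZFIter Pool.Agent.ZFIter.NPA

variable {M : Type u} [ZFM M] {ι : Type}

theorem Nn_rec (e ξ : M) : Nn e ξ = NnS e ξ (mkseq ξ (fun y => Nn e y)) := by
  unfold Nn
  exact erec_eq (G := fun ξ g => NnS e ξ g) ξ

theorem Nn_eq {e α f : M} (hα : Ord α) (hf : Inj f α omega)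
    (h : ∀ m, m ∈ (omega : M) → ∀ n, n ∈ (omega : M) →
      (ap e (pr m n) = emp ↔ ∃ β, β ∈ α ∧ ∃ γ, γ ∈ α ∧ (β ∈ γ ∨ β = γ) ∧ ap f β = m ∧ ap f γ = n)) :
    ∀ ξ, ξ ∈ α → Nn e ξ = ap f ξ := by
  have key : ∀ ξ, Ord ξ → ξ ∈ α → Nn e ξ = ap f ξ := by
    apply ord_induction (fun ξ => ξ ∈ α → Nn e ξ = ap f ξ)
    intro ξ hξo ih hξ
    rw [Nn_rec]
    unfold NnS
    have hfξ : ap f ξ ∈ (omega : M) := hf.fun.ap_mem hξ
    have hpred : ∀ m, m ∈ (omega : M) →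
        ((∃ ζ, ζ ∈ ξ ∧ m = ap (mkseq ξ (fun y => Nn e y)) ζ) ↔ ∃ ζ, ζ ∈ ξ ∧ m = ap f ζ) := by
      intro m _
      constructor
      · rintro ⟨ζ, hζ, rfl⟩
        exact ⟨ζ, hζ, by rw [ap_mkseq hζ, ih ζ hζ (hα.trans hζ hξ)]⟩
      · rintro ⟨ζ, hζ, rfl⟩
        exact ⟨ζ, hζ, by rw [ap_mkseq hζ, ih ζ hζ (hα.trans hζ hξ)]⟩
    have hrel : ∀ δ, δ ∈ α → ∀ m, m ∈ (omega : M) →
        ((m ≠ ap f δ ∧ ap e (pr m (ap f δ)) = emp) ↔ ∃ ζ, ζ ∈ δ ∧ m = ap f ζ) := by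
      intro δ hδ m hm
      rw [h m hm _ (hf.fun.ap_mem hδ)]
      constructor
      · rintro ⟨hne, β, hβ, γ, hγ, hβγ, rfl, hγδ⟩
        have e1 := hf.ap_inj hγ hδ hγδ
        subst e1
        rcases hβγ with h1 | h1
        · exact ⟨β, h1, rfl⟩
        · exact absurd (by rw [h1]) hne
      · rintro ⟨ζ, hζ, rfl⟩
        have hζα := hα.trans hζ hδ
        refine ⟨?_, ζ, hζα, δ, hδ, Or.inl hζ, rfl, rfl⟩
        intro e1
        have := hf.ap_inj hζα hδ e1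
        rw [this] at hζ
        exact not_mem_self _ hζ
    apply iota_eq
    · refine ⟨hfξ, ?_, ?_⟩
      · rw [h _ hfξ _ hfξ]
        exact ⟨ξ, hξ, ξ, hξ, Or.inr rfl, rfl, rfl⟩
      · intro m hm
        rw [hpred m hm]
        exact hrel ξ hξ m hm
    · rintro i ⟨hi, hii, hp⟩
      rw [h _ hi _ hi] at hii
      obtain ⟨β, _, δ, hδ, _, _, rfl⟩ := hii
      have hsame : ∀ m, m ∈ (omega : M) → ((∃ ζ, ζ ∈ δ ∧ m = ap f ζ) ↔ ∃ ζ, ζ ∈ ξ ∧ m = ap f ζ) := by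
        intro m hm
        rw [← hrel δ hδ m hm, hp m hm, hpred m hm]
      have : δ = ξ := by
        apply Pool.Agent.H78.ZF.ext
        intro ζ
        constructor
        · intro hζ
          have hζα := hα.trans hζ hδ
          obtain ⟨ζ', h1, h2⟩ := (hsame (ap f ζ) (hf.fun.ap_mem hζα)).1 ⟨ζ, hζ, rfl⟩
          rwa [hf.ap_inj hζα (hα.trans h1 hξ) h2]
        · intro hζ
          have hζα := hα.trans hζ hξ
          obtain ⟨ζ', h1, h2⟩ := (hsame (ap f ζ) (hf.fun.ap_mem hζα)).2 ⟨ζ, hζ, rfl⟩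
          rwa [hf.ap_inj hζα (hα.trans h1 hδ) h2]
      rw [this]
  intro ξ hξ
  exact key ξ (hα.mem hξ) hξ

/-- The numbers of the ordinals below `α`: an injective function into `omega`. -/
theorem Nn_inj {e α : M} (hα : Ord α) (h : WOc e α) :
    (∀ ξ, ξ ∈ α → Nn e ξ ∈ (omega : M)) ∧
      ∀ ξ ξ', ξ ∈ α → ξ' ∈ α → Nn e ξ = Nn e ξ' → ξ = ξ' := by
  obtain ⟨f, hf, h1⟩ := h
  have h2 := Nn_eq hα hf h1
  refine ⟨fun ξ hξ => ?_, fun ξ ξ' hξ hξ' e1 => ?_⟩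
  · rw [h2 ξ hξ]; exact hf.fun.ap_mem hξ
  · rw [h2 ξ hξ, h2 ξ' hξ'] at e1
    exact hf.ap_inj hξ hξ' e1

end Pool.Agent.ZFIter.NPA.BSM
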