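import Pool.Agent.NMB.ITz

/-!
# NMB/IStp: inclusion modulo finite sets, the successor step
-/

universe u

namespace Pool.Agent.ZFIter.NPA.BSM

open Pool.Agent.H78.ZF Pool.Agent.ZFIter Pool.Agent.ZFIter.NPA

variable {M : Type u} [ZFM M] {ι : Type}

theorem AS.of_sub {x y : M} (h : x ⊆ y) : AS x y :=
  ⟨emp, emp_mem_omega, fun k hk _ => h k hk⟩

theorem AS.refl (x : M) : AS x x := AS.of_sub (sub_refl x)

theorem AS.trans {x y z : M} (h : AS x y) (h' : AS y z) : AS x z := by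
  obtain ⟨n, hn, h1⟩ := h
  obtain ⟨m, hm, h2⟩ := h'
  refine ⟨un n m, un_omega hn hm, fun k hk hle => ?_⟩
  exact h2 k (h1 k hk (sub_trans (sub_un_left n m) hle)) (sub_trans (sub_un_right n m) hle)

theorem AS.unb {x y : M} (hx : Unb x) (h : AS x y) (hy : y ⊆ (omega : M)) : Unb y := by
  obtain ⟨n, hn, h1⟩ := h
  refine ⟨hy, fun m hm => ?_⟩
  obtain ⟨k, hk, hle⟩ := hx.2 (un n m) (un_omega hn hm)
  exact ⟨k, h1 k hk (sub_trans (sub_un_left n m) hle), sub_trans (sub_un_right n m) hle⟩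

/-- `AS` and a bounded set. -/
theorem AS.not_bdd {x : M} (hx : Unb x) {n : M} (hn : n ∈ (omega : M)) {y : M}
    (h : ∀ a, a ∈ y → a ∈ n) : ¬ AS x y := by
  rintro ⟨m, hm, h1⟩
  obtain ⟨k, hk, hle⟩ := hx.2 (un n m) (un_omega hn hm)
  have h2 := h k (h1 k hk (sub_trans (sub_un_right n m) hle))
  exact not_mem_self k (hle k (sub_un_left n m k h2))

theorem stp_sub_Tz (x z : M) : stp x z ⊆ Tz x z := by
  intro a ha
  unfold stp at ha
  rw [mem_sep] at ha
  exact ha.1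

theorem stp_side (x z : M) : stp x z ⊆ pp (vA z) ∨ ∀ a, a ∈ stp x z → a ∉ pp (vA z) := by
  by_cases h : Unb (sep (Tz x z) (fun k => k ∈ pp (vA z)))
  · left
    intro a ha
    unfold stp at ha
    rw [mem_sep] at ha
    exact ha.2.2 h
  · right
    intro a ha hc
    unfold stp at ha
    rw [mem_sep] at ha
    exact h (ha.2.1 hc)

theorem stp_unb {x z : M} (hx : Unb x) (hz : z ∈ (RS : M)) : Unb (stp x z) := by
  have hT := Tz_unb hx hz
  refine ⟨fun a ha => hT.1 a (stp_sub_Tz x z a ha), fun n hn => ?_⟩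
  by_cases h : Unb (sep (Tz x z) (fun k => k ∈ pp (vA z)))
  · obtain ⟨k, hk, hle⟩ := h.2 n hn
    refine ⟨k, ?_, hle⟩
    unfold stp
    rw [mem_sep] at hk ⊢
    exact ⟨hk.1, ⟨fun _ => h, fun _ => hk.2⟩⟩
  · have h1 : ∃ m, m ∈ (omega : M) ∧ ∀ k, k ∈ Tz x z → m ⊆ k → k ∉ pp (vA z) := by
      by_contra hc
      push Not at hc
      apply h
      refine ⟨fun a ha => hT.1 a (by rw [mem_sep] at ha; exact ha.1), fun m hm => ?_⟩
      obtain ⟨k, hk, hmk, hkp⟩ := hc m hm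
      exact ⟨k, by rw [mem_sep]; exact ⟨hk, hkp⟩, hmk⟩
    obtain ⟨m, hm, h2⟩ := h1
    obtain ⟨k, hk, hle⟩ := hT.2 (un n m) (un_omega hn hm)
    refine ⟨k, ?_, sub_trans (sub_un_left n m) hle⟩
    unfold stp
    rw [mem_sep]
    refine ⟨hk, ⟨fun hc => absurd hc (h2 k hk (sub_trans (sub_un_right n m) hle)),
      fun hc => absurd hc h⟩⟩

theorem stp_sub (x z : M) : stp x z ⊆ x := sub_trans (stp_sub_Tz x z) (Tz_sub x z)

end Pool.Agent.ZFIter.NPA.BSM
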