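import Pool.Agent.NMB.IAbs

/-!
# NMB/ITower: a selective ultrafilter `p` and an ultrafilter in `L(R)[p]` outside of `G^p`
-/

universe u

namespace Pool.Agent.ZFIter.NPA.BSM

open Pool.Agent.H78.ZF Pool.Agent.ZFIter Pool.Agent.ZFIter.NPA

variable {M : Type u} [ZFM M] {ι : Type}

section
variable {K : M → Prop} [hK : Inner K]

/-- An element of the inner model. -/
def toK (x : M) (h : K x) : Sub K := ⟨x, h⟩

omit [ZFM M] hK in
@[simp] theorem toK_val (x : M) (h : K x) : (toK x h).1 = x := rfl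

variable (hR : ∀ x, x ∈ (RS : M) → K x)
include hR

theorem K_real {x : M} (hx : x ⊆ (omega : M)) : K x := by
  have h1 := (pp (toK (chf x) (hR _ (chf_mem x)))).2
  rw [abs_pp, toK_val, pp_chf hx] at h1
  exact h1

/-- The chooser, decoded from the ultrafilter in the inner model. -/
theorem exists_dec {κ S f β c : M} (hS : TowerHyp κ S) (hT : TD κ S f β c)
    (hp : K (pT κ c S)) :
    ∃ cK : Sub K, ∀ η, η ∈ κ → ap cK.1 (opair (XT c S η) η) = ZT c S η := by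
  set κK : Sub K := ⟨κ, Inner.ord κ hS.ord⟩ with hκK
  set pK : Sub K := ⟨pT κ c S, hp⟩ with hpK
  refine ⟨mkseq (prod (pow omega) κK) (fun w => iota (fun z => z ∈ (RS : Sub K) ∧
    Tz (fs w) z ∈ pK)), fun η hη => ?_⟩
  have hXu := XT_unb hS hT.zc hη
  have hXK : K (XT c S η) := K_real hR hXu.1
  have hηK : K η := Inner.ord η (hS.ord.mem hη)
  have hZ := ZT_mem hS hT hη
  have hmem : opair (toK (XT c S η) hXK) (toK η hηK) ∈ prod (pow omega) κK := by
    rw [opair_mem_prod, mem_pow, abs_sub, abs_omega]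
    exact ⟨hXu.1, hη⟩
  have h1 : ap (mkseq (prod (pow omega) κK) (fun w => iota (fun z => z ∈ (RS : Sub K) ∧
      Tz (fs w) z ∈ pK))) (opair (toK (XT c S η) hXK) (toK η hηK)) = toK (ZT c S η) (hR _ hZ) := by
    rw [ap_mkseq hmem, fs_opair]
    apply iota_eq
    · refine ⟨abs_RS.2 hZ, ?_⟩
      rw [sub_mem, abs_Tz]
      exact Tz_mem hS hT hη
    · rintro z ⟨hz, h2⟩
      rw [sub_mem, abs_Tz] at h2
      apply sub_inj
      exact decode hS hT hη (abs_RS.1 hz) h2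
  have h2 := abs_eq.1 h1
  rw [abs_ap, abs_opair] at h2
  exact h2

theorem K_base {κ S f β c : M} (hS : TowerHyp κ S) (hT : TD κ S f β c)
    (hp : K (pT κ c S)) {c₀ : M} (F : M → M) (FK : Sub K → Sub K) [F1 F] [F1 FK]
    (hF : ∀ x, (FK x).1 = F x.1) (hβ : ∀ η, η ∈ κ → pp (F (ap β η)) = XT c₀ S η) :
    K (pT κ c₀ S) := by
  obtain ⟨cK, hc⟩ := exists_dec hR hS hT hp
  have hSK : K S := hS.inK K hR
  have hX : ∀ η, η ∈ κ → XT cK.1 S η = XT c S η := by
    apply XT_congr hS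
    intro η hη _
    exact hc η hη
  set κK : Sub K := ⟨κ, Inner.ord κ hS.ord⟩ with hκK
  set B : Sub K := img κK (fun η => pp (FK (vB (ap cK (opair (XT cK ⟨S, hSK⟩ η) η))))) with hB
  have hB1 : ∀ Y, Y ∈ B.1 ↔ ∃ η, η ∈ κ ∧ Y = XT c₀ S η := by
    intro Y
    rw [hB, mem_abs_img]
    have key : ∀ η : Sub K, η ∈ κK →
        (pp (FK (vB (ap cK (opair (XT cK ⟨S, hSK⟩ η) η))))).1 = XT c₀ S η.1 := by
      intro η hη
      rw [abs_pp, hF, abs_vB, abs_ap, abs_opair, abs_XT]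
      have hη' : η.1 ∈ κ := hη
      show pp (F (vB (ap cK.1 (opair (XT cK.1 S η.1) η.1)))) = XT c₀ S η.1
      rw [hX _ hη', hc _ hη']
      rw [← hβ _ hη']
      congr 2
      exact (hT _ η.1 (XT_unb hS hT.zc hη') hη').2.2.2.1
    constructor
    · rintro ⟨η, hη, rfl⟩
      exact ⟨η.1, hη, key η hη⟩
    · rintro ⟨η, hη, rfl⟩
      exact ⟨⟨η, Inner.ord η (hS.ord.mem hη)⟩, hη, (key ⟨η, Inner.ord η (hS.ord.mem hη)⟩ hη).symm⟩
  have hAS : ∀ Y A : Sub K, AS Y A ↔ AS Y.1 A.1 := by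
    intro Y A
    unfold AS
    apply abs_ex_omega
    intro n _
    apply abs_all
    intro k _
    rw [abs_sub, sub_mem]
  have hq : (sep (pow omega) (fun A => ∃ Y, Y ∈ B ∧ AS Y A)).1 = pT κ c₀ S := by
    apply Pool.Agent.H78.ZF.ext
    intro A
    rw [mem_abs_sep, mem_pT]
    constructor
    · rintro ⟨h1, h2, Y, hY, h3⟩
      have h4 : toK A h2 ∈ (pow omega : Sub K) := sub_mem.2 h1
      rw [mem_pow, abs_sub, abs_omega] at h4
      obtain ⟨η, hη, e⟩ := (hB1 Y.1).1 hY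
      rw [hAS, e] at h3
      exact ⟨h4, η, hη, h3⟩
    · rintro ⟨h1, η, hη, h2⟩
      have hA : K A := K_real hR h1
      have hY : XT c₀ S η ∈ B.1 := (hB1 _).2 ⟨η, hη, rfl⟩
      have h4 : toK A hA ∈ (pow omega : Sub K) := by
        rw [mem_pow, abs_sub, abs_omega]; exact h1
      exact ⟨h4, hA, ⟨XT c₀ S η, K_mem hY⟩, hY, (hAS _ _).2 h2⟩
  rw [← hq]
  exact Subtype.property _

end

/-- The tower half: under the hypotheses of the tower construction there is a selective ultrafilter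
`p` on `omega` and a nonprincipal ultrafilter `q` in `L(R)[p]` which is not in `G^p`. -/
theorem tower (hAC : AC M) {κ S : M} (hS : TowerHyp κ S) :
    ∃ p q : M, Selective p ∧ Uf q ∧ Nonpr q ∧ InLRp p q ∧ ¬ InGp p q := by
  obtain ⟨f, β₀, c₀, β₁, c₁, hf, hsurj, h₀, h₁, hne⟩ := exists_two hAC hS
  obtain ⟨β, c, hT, hβ⟩ := exists_coding hAC (c₀ := c₀) (c₁ := c₁) hS hf
  have hsel := pT_selective hS hT hAC hsurj
  have hu₀ := pT_uf hS h₀ hsurj
  have hu₁ := pT_uf hS h₁ hsurj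
  have hL : InLRp (pT κ c S) (pT κ c₀ S) := by
    intro K hK hR hp
    apply K_base hR hS hT hp (fun x => pL x) (fun x => pL x) abs_pL
    intro η hη
    show pp (pL (ap β η)) = XT c₀ S η
    rw [hβ η hη, pL_jn (chf_mem _) (chf_mem _), pp_chf (XT_unb hS h₀.zc hη).1]
  have hL' : InLRp (pT κ c S) (pT κ c₁ S) := by
    intro K hK hR hp
    apply K_base hR hS hT hp (fun x => pR x) (fun x => pR x) abs_pR
    intro η hη
    show pp (pR (ap β η)) = XT c₁ S η
    rw [hβ η hη, pR_jn (chf_mem _) (chf_mem _), pp_chf (XT_unb hS h₁.zc hη).1]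
  by_cases h : ∃ g, g ∈ (RS : M) ∧ rkImg g (pT κ c S) = pT κ c₀ S
  · obtain ⟨g, hg, e⟩ := h
    obtain ⟨g', hg', e'⟩ := selective_image hsel hg (by rw [e]; exact pT_nonpr hS h₀)
    rw [e] at e'
    refine ⟨pT κ c S, pT κ c₁ S, hsel, hu₁, pT_nonpr hS h₁, hL', ?_⟩
    apply gp_ppoint hAC hsel.1 hu₁ (pT_ppt hAC hS h₁)
    intro k hk e2
    apply hne (cmp k g') (cmp_mem hk)
    rw [rkImg_cmp hk hg' hu₀, e', e2]
  · refine ⟨pT κ c S, pT κ c₀ S, hsel, hu₀, pT_nonpr hS h₀, hL, ?_⟩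
    apply gp_ppoint hAC hsel.1 hu₀ (pT_ppt hAC hS h₀)
    intro k hk e2
    exact h ⟨k, hk, e2⟩

end Pool.Agent.ZFIter.NPA.BSM
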