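import Pool.Agent.NMB.IGp

/-!
# NMB/ITwo: two selective ultrafilters, the second of which is no image of the first
-/

universe u

namespace Pool.Agent.ZFIter.NPA.BSM

open Pool.Agent.H78.ZF Pool.Agent.ZFIter Pool.Agent.ZFIter.NPA

variable {M : Type u} [ZFM M] {ι : Type}

/-- The sequence of reals which codes the subset `Z` of `κ`. -/
noncomputable def bz (κ Z : M) : M := mkf κ RS (fun η => chf (sep omega (fun _ => η ∈ Z)))

instance DF.bz (κ Z : (ι → M) → M) [DF κ] [DF Z] : DF (fun v => bz (κ v) (Z v)) := by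
  unfold BSM.bz; infer_instance

theorem bz_fun (κ Z : M) : Fun (bz κ Z) κ RS := mkf_fun fun _ _ => chf_mem _

theorem pp_bz {κ Z η : M} (hη : η ∈ κ) : pp (ap (bz κ Z) η) = sep omega (fun _ => η ∈ Z) := by
  unfold bz
  rw [ap_mkf (fun _ _ => chf_mem _) hη, pp_chf]
  intro k hk
  rw [mem_sep] at hk
  exact hk.1

theorem bz_inj {κ Z Z' η : M} (hη : η ∈ κ) (h : ap (bz κ Z) η = ap (bz κ Z') η) :
    η ∈ Z ↔ η ∈ Z' := by
  have h1 := congrArg (fun w : M => pp w) h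
  rw [pp_bz hη, pp_bz hη] at h1
  constructor
  · intro h2
    have : (emp : M) ∈ sep (omega : M) (fun _ => η ∈ Z) := by rw [mem_sep]; exact ⟨emp_mem_omega, h2⟩
    rw [h1, mem_sep] at this
    exact this.2
  · intro h2
    have : (emp : M) ∈ sep (omega : M) (fun _ => η ∈ Z') := by rw [mem_sep]; exact ⟨emp_mem_omega, h2⟩
    rw [← h1, mem_sep] at this
    exact this.2

theorem exists_two (hAC : AC M) {κ S : M} (hS : TowerHyp κ S) :
    ∃ f β₀ c₀ β₁ c₁, Fun f κ RS ∧ (∀ x, x ∈ (RS : M) → ∃ α, α ∈ κ ∧ ap f α = x) ∧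
      TD κ S f β₀ c₀ ∧ TD κ S f β₁ c₁ ∧
      ∀ g, g ∈ (RS : M) → rkImg g (pT κ c₀ S) ≠ pT κ c₁ S := by
  obtain ⟨f, hf, hsurj⟩ := exists_enumRS hS
  obtain ⟨c₀, hc₀⟩ := exists_TD hAC hS hf (bz_fun κ emp)
  by_contra hcon
  push Not at hcon
  have h1 : ∀ Z c, TD κ S f (bz κ Z) c → ∃ g, g ∈ (RS : M) ∧ rkImg g (pT κ c₀ S) = pT κ c S :=
    fun Z c hc => hcon f _ c₀ _ c hf hsurj hc₀ hc
  set D : M := sep κ (fun α => ∃ Z c, TD κ S f (bz κ Z) c ∧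
    rkImg (ap f α) (pT κ c₀ S) = pT κ c S ∧ α ∉ Z) with hD
  obtain ⟨cD, hcD⟩ := exists_TD hAC hS hf (bz_fun κ D)
  obtain ⟨g, hg, e⟩ := h1 D cD hcD
  obtain ⟨α, hα, rfl⟩ := hsurj g hg
  by_cases hαD : α ∈ D
  · have hαD' := hαD
    rw [hD, mem_sep] at hαD'
    obtain ⟨_, Z, c, hc, e', hZ⟩ := hαD'
    apply hZ
    rw [bz_inj hα (beta_uniq hS hc hcD (e'.symm.trans e) hα)]
    exact hαD
  · apply hαD
    rw [hD, mem_sep]
    exact ⟨hα, D, cD, hcD, e, hαD⟩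

/-- Some selective ultrafilter `p` codes the bases of two given towers. -/
theorem exists_coding (hAC : AC M) {κ S f c₀ c₁ : M} (hS : TowerHyp κ S)
    (hf : Fun f κ RS) :
    ∃ β c, TD κ S f β c ∧ ∀ η, η ∈ κ → ap β η = jn (chf (XT c₀ S η)) (chf (XT c₁ S η)) := by
  have h1 : ∀ η, η ∈ κ → jn (chf (XT c₀ S η)) (chf (XT c₁ S η)) ∈ (RS : M) := fun η _ =>
    jn_mem (chf_mem _) (chf_mem _)
  obtain ⟨c, hc⟩ := exists_TD hAC hS hf (β := mkf κ RS (fun η =>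
    jn (chf (XT c₀ S η)) (chf (XT c₁ S η)))) (mkf_fun h1)
  exact ⟨_, c, hc, fun η hη => ap_mkf h1 hη⟩

theorem pT_ppt (hAC : AC M) {κ S f β c : M} (hS : TowerHyp κ S) (hT : TD κ S f β c) :
    PPt (pT κ c S) := by
  intro B hB
  obtain ⟨η, hη, h⟩ := pT_ppoint hS hT hAC hB
  exact ⟨XT c S η, XT_mem hS hT hη, h⟩

end Pool.Agent.ZFIter.NPA.BSM
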