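import Pool.Agent.NMB.IDefs
import Pool.Agent.NPA.APr

/-!
# NMB/ITz: the almost disjoint family `Tz x z` and growth
-/

universe u

namespace Pool.Agent.ZFIter.NPA.BSM

open Pool.Agent.H78.ZF Pool.Agent.ZFIter Pool.Agent.ZFIter.NPA

variable {M : Type u} [ZFM M] {ι : Type}

theorem mem_Tz {x z a : M} : a ∈ Tz x z ↔ a ∈ x ∧ ∃ m, m ∈ (omega : M) ∧ otp x a = sq z (succ m) := by
  unfold Tz
  rw [mem_sep]

theorem Tz_sub (x z : M) : Tz x z ⊆ x := fun _ ha => (mem_Tz.1 ha).1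

theorem mem_pp {x k : M} : k ∈ pp x ↔ k ∈ (omega : M) ∧ ap x k = emp := by
  unfold pp
  rw [mem_sep]

theorem pp_sub (x : M) : pp x ⊆ (omega : M) := fun _ h => (mem_pp.1 h).1

section
variable {x : M} (hx : Unb x)
include hx

theorem Unb.ords : ∀ y, y ∈ x → Ord y := fun y hy => ord_nat (hx.1 y hy)

theorem otp_sub : ∀ a, a ∈ (omega : M) → otp x a ⊆ a := by
  apply ord_nat_induction (fun a => otp x a ⊆ a)
  intro a ha ih z hz
  obtain ⟨β, hβ, hβa, rfl⟩ := mem_otp.1 hz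
  have h1 := ih β hβa
  have hb : β ∈ (omega : M) := hx.1 β hβ
  have ho : Ord (otp x β) := otp_ord (Unb.ords hx) (ord_nat hb)
  rcases (ord_sub_iff ho (ord_nat hb)).1 h1 with h2 | h2
  · exact lt_trans ha h2 hβa
  · rwa [h2]

theorem otp_omega {a : M} (ha : a ∈ (omega : M)) : otp x a ∈ (omega : M) := by
  have ho : Ord (otp x a) := otp_ord (Unb.ords hx) (ord_nat ha)
  rcases (ord_sub_iff ho (ord_nat ha)).1 (otp_sub hx a ha) with h2 | h2
  · exact mem_omega_of_mem h2 ha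
  · rwa [h2]

theorem otp_ex : ∀ n, n ∈ (omega : M) → ∃ a, a ∈ x ∧ otp x a = n := by
  apply omega_induction (fun n => ∃ a, a ∈ x ∧ otp x a = n)
  · obtain ⟨a, ha1, ha2, ha3⟩ := exists_least (fun k => k ∈ x) (by
      obtain ⟨k, hk, _⟩ := hx.2 emp emp_mem_omega
      exact ⟨k, hx.1 k hk, hk⟩)
    refine ⟨a, ha2, ?_⟩
    apply eq_emp
    intro z hz
    obtain ⟨β, hβ, hβa, _⟩ := mem_otp.1 hz
    exact ha3 β hβa hβ
  · rintro n hn ⟨a, ha, e⟩
    have hao := hx.1 a ha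
    obtain ⟨h1, h2⟩ := hx.next_spec hao
    refine ⟨next x a, h1, ?_⟩
    have hno := hx.1 _ h1
    apply Pool.Agent.H78.ZF.ext
    intro z
    rw [mem_succ, ← e]
    constructor
    · intro hz
      obtain ⟨β, hβ, hβn, rfl⟩ := mem_otp.1 hz
      have hβo := hx.1 β hβ
      rcases trichotomy hβo hao with h3 | h3 | h3
      · exact Or.inl (mem_otp.2 ⟨β, hβ, h3, rfl⟩)
      · exact Or.inr (by rw [h3])
      · exfalso
        have h4 : next x a ⊆ β := by
          unfold next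
          exact least_le (fun k => k ∈ x ∧ a ∈ k) hβo ⟨hβ, h3⟩
        exact not_mem_self β (h4 β hβn)
    · rintro (hz | rfl)
      · obtain ⟨β, hβ, hβa, rfl⟩ := mem_otp.1 hz
        exact mem_otp.2 ⟨β, hβ, lt_trans hno hβa h2, rfl⟩
      · exact mem_otp.2 ⟨a, ha, h2, rfl⟩

theorem otp_le {a b : M} (ha : a ∈ x) (hb : b ∈ x) (h : otp x a ⊆ otp x b) : a ⊆ b := by
  have hao := hx.1 a ha
  have hbo := hx.1 b hb
  rcases le_or_lt hao hbo with h1 | h1
  · exact h1
  · exfalso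
    have h2 := otp_lt (Unb.ords hx) (ord_nat hao) hb h1
    exact not_mem_self _ (h _ h2)

theorem Tz_unb {z : M} (hz : z ∈ (RS : M)) : Unb (Tz x z) := by
  refine ⟨fun a ha => hx.1 a (Tz_sub x z a ha), fun n hn => ?_⟩
  obtain ⟨a, ha, e⟩ := otp_ex hx (sq z (succ n)) (sq_mem hz (succ_mem_omega hn))
  refine ⟨a, mem_Tz.2 ⟨ha, n, hn, e⟩, ?_⟩
  have h1 : succ n ⊆ otp x a := by rw [e]; exact sq_ge hz (succ_mem_omega hn)
  have h2 := otp_sub hx a (hx.1 a ha)
  intro k hk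
  exact h2 k (h1 k (by simp [hk]))

/-- Two members of the family meet in a bounded set. -/
theorem Tz_disj {z z' : M} (hz : z ∈ (RS : M)) (hz' : z' ∈ (RS : M)) (hne : z ≠ z') :
    ∃ n, n ∈ (omega : M) ∧ ∀ a, a ∈ Tz x z → a ∈ Tz x z' → a ∈ n := by
  have h1 : ∃ i, i ∈ (omega : M) ∧ ap z i ≠ ap z' i := by
    by_contra hc
    push Not at hc
    exact hne (RS_ext hz hz' hc)
  obtain ⟨i, hi, hne'⟩ := h1
  obtain ⟨a0, ha0, e0⟩ := otp_ex hx (sq z (succ i)) (sq_mem hz (succ_mem_omega hi))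
  refine ⟨succ a0, succ_mem_omega (hx.1 a0 ha0), fun a ha ha' => ?_⟩
  obtain ⟨hax, m, hm, e⟩ := mem_Tz.1 ha
  obtain ⟨_, m', hm', e'⟩ := mem_Tz.1 ha'
  obtain ⟨_, h2⟩ := sq_inj hz hz' (succ_mem_omega hm) (succ_mem_omega hm') (e.symm.trans e')
  rw [lt_succ_iff (hx.1 a hax) (hx.1 a0 ha0)]
  apply otp_le hx hax ha0
  rw [e, e0]
  rcases le_or_lt hi hm with h3 | h3
  · exfalso
    apply hne'
    apply h2
    rw [lt_succ_iff hi hm]
    exact h3
  · have h4 : sq z (succ m) ⊆ sq z i := by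
      rcases succ_le hi m h3 with h5 | h5
      · exact omega_trans (sq_mem hz hi) _ (sq_lt hz hi h5)
      · rw [h5]; exact sub_refl _
    exact sub_trans h4 (omega_trans (sq_mem hz (succ_mem_omega hi)) _
      (sq_lt hz (succ_mem_omega hi) (by simp)))

/-- A member of the family with given payload which grows fast. -/
theorem exists_z {v g : M} (hv : v ∈ (RS : M)) (hg : g ∈ (RS : M)) :
    ∃ z, z ∈ (RS : M) ∧ pL z = v ∧ Gro (Tz x z) g := by
  set F : M → M := fun k => ap g (least (fun a => a ∈ x ∧ otp x a = k)) with hF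
  have hF1 : F1 F := by rw [hF]; infer_instance
  set G : M → M → M := fun n h => pr (ap v n) (ap g (least (fun a => a ∈ x ∧ otp x a = sq h n)))
    with hG
  have hG2 : F2 G := by rw [hG]; infer_instance
  have hFo : ∀ k, F k ∈ (omega : M) := fun k => RS_ap' hg _
  have hEo : ∀ n, n ∈ (omega : M) → erec G n ∈ (omega : M) := by
    intro n hn
    rw [erec_eq]
    exact pr_mem (RS_ap' hv _) (RS_ap' hg _)
  have hw1 : ∀ n, n ∈ (omega : M) → F (sq (mkseq n (fun y => erec G y)) n) ∈ (omega : M) :=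
    fun n _ => hFo _
  set w : M := mkf omega omega (fun n => F (sq (mkseq n (fun y => erec G y)) n)) with hw
  have hwR : w ∈ (RS : M) := mem_RS.2 (mkf_fun hw1)
  have hE : ∀ n, n ∈ (omega : M) → ap (jn v w) n = erec G n := by
    intro n hn
    rw [ap_jn hv hwR hn, hw, ap_mkf hw1 hn, erec_eq]
  have hzR : jn v w ∈ (RS : M) := jn_mem hv hwR
  have hwv : ∀ n, n ∈ (omega : M) → ap w n = F (sq (jn v w) n) := by
    intro n hn
    rw [hw, ap_mkf hw1 hn, ← hw]
    congr 1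
    apply sq_congr hn
    intro i hi
    rw [ap_mkseq hi, hE i (mem_omega_of_mem hi hn)]
  refine ⟨jn v w, hzR, pL_jn hv hwR, ?_⟩
  intro a b ha hb hab
  obtain ⟨hax, m, hm, e⟩ := mem_Tz.1 ha
  obtain ⟨hbx, m', hm', e'⟩ := mem_Tz.1 hb
  have hao := hx.1 a hax
  have hbo := hx.1 b hbx
  have h1 : otp x a ∈ otp x b := otp_lt (Unb.ords hx) (ord_nat hbo) hax hab
  rw [e, e'] at h1
  have h2 : succ m ∈ succ m' := by
    rcases trichotomy (succ_mem_omega hm) (succ_mem_omega hm') with h3 | h3 | h3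
    · exact h3
    · rw [h3] at h1; exact absurd h1 (not_mem_self _)
    · exact absurd (sq_lt hzR (succ_mem_omega hm) h3)
        (lt_asymm (sq_mem hzR (succ_mem_omega hm')) h1)
  have h3 : sq (jn v w) (succ (succ m)) ⊆ sq (jn v w) (succ m') := by
    rcases succ_le (succ_mem_omega hm') _ h2 with h5 | h5
    · exact omega_trans (sq_mem hzR (succ_mem_omega hm')) _ (sq_lt hzR (succ_mem_omega hm') h5)
    · rw [h5]; exact sub_refl _
  have hga : ap g a = F (sq (jn v w) (succ m)) := by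
    rw [hF]
    congr 1
    obtain ⟨h4, h5, h6⟩ := least_spec (fun a' => a' ∈ x ∧ otp x a' = sq (jn v w) (succ m))
      ⟨a, hao, hax, e⟩
    exact (otp_inj (Unb.ords hx) h5.1 hax (h5.2.trans e.symm).symm)
  have h4 : ap g a ∈ sq (jn v w) (succ (succ m)) := by
    rw [sq_succ _ (succ_mem_omega hm), ap_jn hv hwR (succ_mem_omega hm), hwv _ (succ_mem_omega hm),
      ← hga]
    have o1 : sq (jn v w) (succ m) ∈ (omega : M) := sq_mem hzR (succ_mem_omega hm)
    have o2 : ap v (succ m) ∈ (omega : M) := RS_ap' hv _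
    have o3 : ap g a ∈ (omega : M) := RS_ap' hg _
    rw [lt_succ_iff o3 (pr_mem o1 (pr_mem o2 o3))]
    exact sub_trans (pr_ge_right o2 o3) (pr_ge_right o1 (pr_mem o2 o3))
  have h5 := otp_sub hx b hbo
  rw [e'] at h5
  exact h5 _ (h3 _ h4)

end

/-- Payload. -/
theorem vA_of {z a e b : M} (ha : a ∈ (RS : M)) (he : e ∈ (RS : M)) (hb : b ∈ (RS : M))
    (h : pL z = jn a (jn e b)) : vA z = a ∧ vE z = e ∧ vB z = b := by
  unfold vA vE vB
  rw [h, pL_jn ha (jn_mem he hb), pR_jn ha (jn_mem he hb), pL_jn he hb, pR_jn he hb]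
  exact ⟨rfl, rfl, rfl⟩

end Pool.Agent.ZFIter.NPA.BSM
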