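import Pool.Agent.NMB.IInv

/-!
# NMB/IUf: the ultrafilter generated by the tower
-/

universe u

namespace Pool.Agent.ZFIter.NPA.BSM

open Pool.Agent.H78.ZF Pool.Agent.ZFIter Pool.Agent.ZFIter.NPA

variable {M : Type u} [ZFM M] {ι : Type}

/-- A real which codes the subset `A` of `omega`. -/
noncomputable def chf (A : M) : M :=
  mkf omega omega (fun k => iota (fun y => (k ∈ A ∧ y = emp) ∨ (k ∉ A ∧ y = succ emp)))

instance DF.chf (x : (ι → M) → M) [DF x] : DF (fun v => chf (x v)) := by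
  unfold BSM.chf; infer_instance

theorem chf_aux (A k : M) : (k ∈ A → iota (fun y => (k ∈ A ∧ y = emp) ∨ (k ∉ A ∧ y = succ emp)) =
    (emp : M)) ∧ (k ∉ A → iota (fun y => (k ∈ A ∧ y = emp) ∨ (k ∉ A ∧ y = succ emp)) =
    (succ emp : M)) := by
  constructor
  · intro h
    apply iota_eq
    · exact Or.inl ⟨h, rfl⟩
    · rintro y (⟨_, e⟩ | ⟨h', _⟩)
      · exact e
      · exact absurd h h'
  · intro h
    apply iota_eq
    · exact Or.inr ⟨h, rfl⟩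
    · rintro y (⟨h', _⟩ | ⟨_, e⟩)
      · exact absurd h' h
      · exact e

theorem chf_val (A : M) : ∀ k, k ∈ (omega : M) →
    iota (fun y => (k ∈ A ∧ y = emp) ∨ (k ∉ A ∧ y = succ emp)) ∈ (omega : M) := by
  intro k _
  by_cases h : k ∈ A
  · rw [(chf_aux A k).1 h]; exact emp_mem_omega
  · rw [(chf_aux A k).2 h]; exact succ_mem_omega emp_mem_omega

theorem chf_mem (A : M) : chf A ∈ (RS : M) := mem_RS.2 (mkf_fun (chf_val A))

theorem pp_chf {A : M} (hA : A ⊆ (omega : M)) : pp (chf A) = A := by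
  apply Pool.Agent.H78.ZF.ext
  intro k
  rw [mem_pp]
  constructor
  · rintro ⟨hk, e⟩
    unfold chf at e
    rw [ap_mkf (chf_val A) hk] at e
    by_contra h
    rw [(chf_aux A k).2 h] at e
    exact succ_ne_emp _ e
  · intro h
    refine ⟨hA k h, ?_⟩
    unfold chf
    rw [ap_mkf (chf_val A) (hA k h)]
    exact (chf_aux A k).1 h

theorem mem_pT {κ c S A : M} : A ∈ pT κ c S ↔ A ⊆ omega ∧ ∃ η, η ∈ κ ∧ AS (XT c S η) A := by
  unfold pT
  rw [mem_sep, mem_pow]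

theorem TD.zc {κ S f β c : M} (h : TD κ S f β c) : ZC κ S c :=
  fun x η hx hη => ⟨(h x η hx hη).1, (h x η hx hη).2.2.1⟩

theorem ord_max {κ S η ζ : M} (hS : TowerHyp κ S) (hη : η ∈ κ) (hζ : ζ ∈ κ) : un η ζ ∈ κ := by
  rcases ord_un_cases (hS.ord.mem hη) (hS.ord.mem hζ) with h | h
  · rw [h.1]; exact hη
  · rw [h.1]; exact hζ

theorem pT_up {κ c S A B : M} (hA : A ∈ pT κ c S) (hAB : AS A B) (hB : B ⊆ omega) :
    B ∈ pT κ c S := by
  obtain ⟨_, η, hη, h⟩ := mem_pT.1 hA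
  exact mem_pT.2 ⟨hB, η, hη, h.trans hAB⟩

section
variable {κ S f β c : M} (hS : TowerHyp κ S) (hT : TD κ S f β c)
include hS hT

theorem ZT_mem {η : M} (hη : η ∈ κ) : ZT c S η ∈ (RS : M) :=
  (hT _ η (XT_unb hS hT.zc hη) hη).1

theorem XT_mem {η : M} (hη : η ∈ κ) : XT c S η ∈ pT κ c S :=
  mem_pT.2 ⟨(XT_unb hS hT.zc hη).1, η, hη, AS.refl _⟩

theorem pT_unb {A : M} (hA : A ∈ pT κ c S) : Unb A := by
  obtain ⟨h1, η, hη, h⟩ := mem_pT.1 hA
  exact AS.unb (XT_unb hS hT.zc hη) h h1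

theorem pT_inter {A B : M} (hA : A ∈ pT κ c S) (hB : B ∈ pT κ c S) :
    sep A (fun k => k ∈ B) ∈ pT κ c S := by
  obtain ⟨h1, η, hη, h⟩ := mem_pT.1 hA
  obtain ⟨h1', ζ, hζ, h'⟩ := mem_pT.1 hB
  have hm := ord_max hS hη hζ
  refine mem_pT.2 ⟨fun k hk => h1 k (by rw [mem_sep] at hk; exact hk.1), un η ζ, hm, ?_⟩
  obtain ⟨n, hn, H⟩ := (XT_AS hS hT.zc hm hη (sub_un_left _ _)).trans h
  obtain ⟨n', hn', H'⟩ := (XT_AS hS hT.zc hm hζ (sub_un_right _ _)).trans h'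
  refine ⟨un n n', un_omega hn hn', fun k hk hle => ?_⟩
  rw [mem_sep]
  exact ⟨H k hk (sub_trans (sub_un_left _ _) hle), H' k hk (sub_trans (sub_un_right _ _) hle)⟩

theorem stp_mem {η : M} (hη : η ∈ κ) : stp (XT c S η) (ZT c S η) ∈ pT κ c S := by
  rw [← XT_succ (hS.ord.mem hη)]
  exact XT_mem hS hT (hS.succ_mem hη)

theorem Tz_mem {η : M} (hη : η ∈ κ) : Tz (XT c S η) (ZT c S η) ∈ pT κ c S :=
  pT_up (stp_mem hS hT hη) (AS.of_sub (stp_sub_Tz _ _))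
    (Tz_unb (XT_unb hS hT.zc hη) (ZT_mem hS hT hη)).1

/-- The code at stage `η` is determined by the ultrafilter. -/
theorem decode {η z : M} (hη : η ∈ κ) (hz : z ∈ (RS : M)) (h : Tz (XT c S η) z ∈ pT κ c S) :
    z = ZT c S η := by
  by_contra hne
  obtain ⟨n, hn, H⟩ := Tz_disj (XT_unb hS hT.zc hη) hz (ZT_mem hS hT hη) hne
  have h1 := pT_unb hS hT (pT_inter hS hT h (Tz_mem hS hT hη))
  obtain ⟨k, hk, hle⟩ := h1.2 n hn
  rw [mem_sep] at hk
  exact not_mem_self k (hle k (H k hk.1 hk.2))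

theorem pT_uf (hf : ∀ x, x ∈ (RS : M) → ∃ α, α ∈ κ ∧ ap f α = x) : Uf (pT κ c S) := by
  refine ⟨fun A hA => (mem_pT.1 hA).1, ?_, ?_, fun A B hA hB => pT_inter hS hT hA hB, ?_, ?_⟩
  · exact mem_pT.2 ⟨sub_refl _, emp, hS.emp_mem, AS.of_sub (XT_unb hS hT.zc hS.emp_mem).1⟩
  · intro h
    obtain ⟨k, hk, _⟩ := (pT_unb hS hT h).2 emp emp_mem_omega
    exact not_mem_emp _ hk
  · intro A B hA hAB hB
    exact pT_up hA (AS.of_sub hAB) hB
  · intro A hA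
    obtain ⟨η, hη, e⟩ := hf (chf A) (chf_mem A)
    have h1 := (hT _ η (XT_unb hS hT.zc hη) hη).2.1
    have h2 : pp (vA (ZT c S η)) = A := by
      show pp (vA (ap c (opair (XT c S η) η))) = A
      rw [h1, e, pp_chf hA]
    have h3 := stp_mem hS hT hη
    rcases stp_side (XT c S η) (ZT c S η) with h4 | h4
    · left
      rw [h2] at h4
      exact pT_up h3 (AS.of_sub h4) hA
    · right
      rw [h2] at h4
      refine pT_up h3 (AS.of_sub ?_) (fun k hk => by rw [mem_sep] at hk; exact hk.1)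
      intro k hk
      rw [mem_sep]
      exact ⟨(pT_unb hS hT h3).1 k hk, h4 k hk⟩

theorem pT_nonpr : Nonpr (pT κ c S) := by
  intro n hn h
  obtain ⟨k, hk, hle⟩ := (pT_unb hS hT h).2 (succ n) (succ_mem_omega hn)
  rw [mem_sing] at hk
  subst hk
  exact not_mem_self k (hle k (by simp))

/-- P-point. -/
theorem pT_ppoint (hAC : AC M) {B : M} (hB : ∀ n, n ∈ (omega : M) → ap B n ∈ pT κ c S) :
    ∃ η, η ∈ κ ∧ ∀ n, n ∈ (omega : M) → AS (XT c S η) (ap B n) := by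
  obtain ⟨g, hg, h1⟩ := ac_rel hAC omega κ (fun n η => AS (XT c S η) (ap B n)) (fun n hn => by
    obtain ⟨_, η, hη, h⟩ := mem_pT.1 (hB n hn)
    exact ⟨η, hη, h⟩)
  obtain ⟨δ, hδ, h2⟩ := hS.reg g hg
  refine ⟨δ, hδ, fun n hn => ?_⟩
  exact (XT_AS hS hT.zc hδ (hg.ap_mem hn) ((hS.ord.mem hδ).1 _ (h2 n hn))).trans (h1 n hn)

theorem pT_selective (hAC : AC M)
    (hf : ∀ x, x ∈ (RS : M) → ∃ α, α ∈ κ ∧ ap f α = x) : Selective (pT κ c S) := by
  have hU := pT_uf hS hT hf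
  refine ⟨hU, pT_nonpr hS hT, fun g hg => ?_⟩
  by_cases hc : ∃ n, n ∈ (omega : M) ∧ sep omega (fun k => ap g k = n) ∈ pT κ c S
  · exact Or.inl hc
  right
  have hB : ∀ n, n ∈ (omega : M) → ap (mkseq omega (fun n => sep omega (fun k => k ∉ sep omega
      (fun k => ap g k = n)))) n ∈ pT κ c S := by
    intro n hn
    rw [ap_mkseq hn]
    rcases hU.2.2.2.2.2 (sep omega (fun k => ap g k = n))
      (fun k hk => by rw [mem_sep] at hk; exact hk.1) with h | h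
    · exact absurd ⟨n, hn, h⟩ hc
    · exact h
  obtain ⟨ξ, hξ, h1⟩ := pT_ppoint hS hT hAC hB
  have h2 : ∀ n, n ∈ (omega : M) → ∃ m, m ∈ (omega : M) ∧ ∀ k, k ∈ XT c S ξ → m ⊆ k → ap g k ≠ n := by
    intro n hn
    obtain ⟨m, hm, H⟩ := h1 n hn
    refine ⟨m, hm, fun k hk hle e => ?_⟩
    have h3 := H k hk hle
    rw [ap_mkseq hn, mem_sep] at h3
    exact h3.2 (by rw [mem_sep]; exact ⟨h3.1, e⟩)
  obtain ⟨G, hG, h3⟩ := ac_rel hAC omega omega
    (fun a m => ∀ k, k ∈ XT c S ξ → m ⊆ k → ap g k ≠ ap g a)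
    (fun a _ => h2 (ap g a) (RS_ap' hg a))
  obtain ⟨η, hη, e⟩ := hf G (mem_RS.2 hG)
  have h4 := (hT _ η (XT_unb hS hT.zc hη) hη).2.2.2.2
  rw [e] at h4
  refine ⟨sep (XT c S ξ) (fun k => k ∈ Tz (XT c S η) (ZT c S η)),
    pT_inter hS hT (XT_mem hS hT hξ) (Tz_mem hS hT hη), ?_⟩
  have key : ∀ a b, a ∈ sep (XT c S ξ) (fun k => k ∈ Tz (XT c S η) (ZT c S η)) →
      b ∈ sep (XT c S ξ) (fun k => k ∈ Tz (XT c S η) (ZT c S η)) → a ∈ b → ap g a ≠ ap g b := by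
    intro a b ha hb hab e1
    rw [mem_sep] at ha hb
    have h5 := h4 a b ha.2 hb.2 hab
    have ho := (XT_unb hS hT.zc hξ).1
    exact h3 a (ho a ha.1) b hb.1 (omega_trans (ho b hb.1) _ h5) e1.symm
  intro a b ha hb e1
  have ho := (XT_unb hS hT.zc hξ).1
  have ha' := ha
  have hb' := hb
  rw [mem_sep] at ha' hb'
  rcases trichotomy (ho a ha'.1) (ho b hb'.1) with h | h | h
  · exact absurd e1 (key a b ha hb h)
  · exact h
  · exact absurd e1.symm (key b a hb ha h)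

end

end Pool.Agent.ZFIter.NPA.BSM
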