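import Pool.Agent.NMB.IUf

/-!
# NMB/IUniq: the tower is determined by its ultrafilter
-/

universe u

namespace Pool.Agent.ZFIter.NPA.BSM

open Pool.Agent.H78.ZF Pool.Agent.ZFIter Pool.Agent.ZFIter.NPA

variable {M : Type u} [ZFM M] {ι : Type}

theorem XT_congr {κ S c c' : M} (hS : TowerHyp κ S)
    (h : ∀ η, η ∈ κ → XT c' S η = XT c S η →
      ap c' (opair (XT c S η) η) = ap c (opair (XT c S η) η)) :
    ∀ η, η ∈ κ → XT c' S η = XT c S η := by
  have hZ : ∀ η, η ∈ κ → XT c' S η = XT c S η → ZT c' S η = ZT c S η := by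
    intro η hη e
    unfold ZT
    rw [e]
    exact h η hη e
  have key : ∀ η, Ord η → η ∈ κ → XT c' S η = XT c S η := by
    apply ord_induction (fun η => η ∈ κ → XT c' S η = XT c S η)
    intro η hηo ih hη
    by_cases h0 : η = emp
    · subst h0
      rw [XT_zero, XT_zero]
    rcases ord_zero_succ_limit hηo with ⟨ζ, h1⟩ | h1
    · have hζη : ζ ∈ η := by rw [h1]; simp
      have hζo := hηo.mem hζη
      have hζκ := hS.ord.trans hζη hη
      have e := ih ζ hζη hζκ
      rw [h1, XT_succ hζo, XT_succ hζo, e, hZ ζ hζκ e]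
    · obtain ⟨g1, g2, _⟩ := hS.lad' hη h0 h1
      have e1 := hZ _ (hS.ord.trans g1 hη) (ih _ g1 (hS.ord.trans g1 hη))
      have hI : ∀ k a, InY c' S (mkseq η (fun y => XT c' S y)) η k a ↔
          InY c S (mkseq η (fun y => XT c S y)) η k a := by
        intro k a
        rw [inY_iff hη h0 h1 hS, inY_iff hη h0 h1 hS, e1]
        constructor
        · intro H ξ hξ hN
          have h2 := g2.ap_mem hξ
          rw [← ih _ h2 (hS.ord.trans h2 hη)]
          exact H ξ hξ hN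
        · intro H ξ hξ hN
          have h2 := g2.ap_mem hξ
          rw [ih _ h2 (hS.ord.trans h2 hη)]
          exact H ξ hξ hN
      rw [XT_lim h0 h1, XT_lim h0 h1]
      apply Pool.Agent.H78.ZF.ext
      intro a
      unfold limS
      rw [mem_sep, mem_sep]
      simp only [hI]
  intro η hη
  exact key η (hS.ord.mem hη) hη

/-- Two towers with the same ultrafilter are equal. -/
theorem ZT_uniq {κ S f β c β' c' : M} (hS : TowerHyp κ S) (hT : TD κ S f β c)
    (hT' : TD κ S f β' c') (hp : pT κ c S = pT κ c' S) :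
    ∀ η, η ∈ κ → ZT c' S η = ZT c S η := by
  have hZ : ∀ η, η ∈ κ → XT c' S η = XT c S η → ZT c' S η = ZT c S η := by
    intro η hη e
    apply decode hS hT hη (ZT_mem hS hT' hη)
    rw [← e, hp]
    exact Tz_mem hS hT' hη
  have h1 : ∀ η, η ∈ κ → XT c' S η = XT c S η := by
    apply XT_congr hS
    intro η hη e
    have := hZ η hη e
    unfold ZT at this
    rwa [e] at this
  intro η hη
  exact hZ η hη (h1 η hη)

theorem beta_uniq {κ S f β c β' c' : M} (hS : TowerHyp κ S) (hT : TD κ S f β c)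
    (hT' : TD κ S f β' c') (hp : pT κ c S = pT κ c' S) {η : M} (hη : η ∈ κ) :
    ap β η = ap β' η := by
  have h1 := ZT_uniq hS hT hT' hp η hη
  have h2 := (hT _ η (XT_unb hS hT.zc hη) hη).2.2.2.1
  have h3 := (hT' _ η (XT_unb hS hT'.zc hη) hη).2.2.2.1
  rw [← h2, ← h3]
  have h4 : ap c (opair (XT c S η) η) = ap c' (opair (XT c' S η) η) := h1.symm
  rw [h4]

/-- Existence of the chooser. -/
theorem exists_TD (hAC : AC M) {κ S f β : M} (hS : TowerHyp κ S) (hf : Fun f κ RS)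
    (hβ : Fun β κ RS) : ∃ c, TD κ S f β c := by
  have hex : ∀ w, w ∈ prod (pow omega) κ → ∃ z, z ∈ (RS : M) ∧ ∀ x η, w = opair x η → Unb x → η ∈ κ →
      vA z = ap f η ∧ WOc (vE z) (ap (fs S) η) ∧ vB z = ap β η ∧ Gro (Tz x z) (ap f η) := by
    intro w hw
    rw [mem_prod] at hw
    obtain ⟨x, _, η, hη, rfl⟩ := hw
    by_cases hx : Unb x
    · obtain ⟨e, he, hW⟩ := exists_WOc (hS.ord.mem (hS.nx hη).2) (hS.ctb _ (hS.nx hη).2)
      have h1 := hf.ap_mem hη
      have h2 := hβ.ap_mem hη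
      obtain ⟨z, hz, h3, h4⟩ := exists_z hx (jn_mem h1 (jn_mem he h2)) h1
      obtain ⟨e1, e2, e3⟩ := vA_of h1 he h2 h3
      refine ⟨z, hz, fun x' η' h5 _ _ => ?_⟩
      obtain ⟨rfl, rfl⟩ := opair_inj h5
      rw [e1, e2, e3]
      exact ⟨rfl, hW, rfl, h4⟩
    · refine ⟨ap f η, hf.ap_mem hη, fun x' η' h5 hx' _ => ?_⟩
      obtain ⟨rfl, rfl⟩ := opair_inj h5
      exact absurd hx' hx
  obtain ⟨c, hc, h1⟩ := ac_rel hAC (prod (pow omega) κ) RS
    (fun w z => ∀ x η, w = opair x η → Unb x → η ∈ κ →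
      vA z = ap f η ∧ WOc (vE z) (ap (fs S) η) ∧ vB z = ap β η ∧ Gro (Tz x z) (ap f η)) hex
  refine ⟨c, fun x η hx hη => ?_⟩
  have hmem : opair x η ∈ prod (pow omega) κ := by
    rw [opair_mem_prod, mem_pow]; exact ⟨hx.1, hη⟩
  obtain ⟨h2, h3, h4, h5⟩ := h1 _ hmem x η rfl hx hη
  exact ⟨hc.ap_mem hmem, h2, h3, h4, h5⟩

/-- An enumeration of the reals. -/
theorem exists_enumRS {κ S : M} (hS : TowerHyp κ S) :
    ∃ f, Fun f κ RS ∧ ∀ x, x ∈ (RS : M) → ∃ α, α ∈ κ ∧ ap f α = x := by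
  obtain ⟨c, hc, hsurj⟩ := hS.ch
  -- the real whose graph is coded by the given subset of `omega`
  set F : M → M := fun α => mkf omega omega (fun n => least (fun m => pr n m ∈ ap c α)) with hF
  have hF1 : F1 F := by rw [hF]; infer_instance
  have hleast : ∀ α n, least (fun m => pr n m ∈ ap c α) ∈ (omega : M) := by
    intro α n
    by_cases h : ∃ m, m ∈ (omega : M) ∧ pr n m ∈ ap c α
    · exact (least_spec (fun m => pr n m ∈ ap c α) h).1
    · have : least (fun m => pr n m ∈ ap c α) = emp := by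
        unfold least
        apply iota_neg
        rintro ⟨m, ⟨h1, h2, _⟩, _⟩
        exact h ⟨m, h1, h2⟩
      rw [this]; exact emp_mem_omega
  have hFR : ∀ α, α ∈ κ → F α ∈ (RS : M) := fun α _ =>
    mem_RS.2 (mkf_fun fun n _ => hleast α n)
  refine ⟨mkf κ RS F, mkf_fun hFR, fun x hx => ?_⟩
  obtain ⟨α, hα, e⟩ := hsurj (sep omega (fun k => ∃ n, n ∈ (omega : M) ∧ k = pr n (ap x n)))
    (fun k hk => by rw [mem_sep] at hk; exact hk.1)
  refine ⟨α, hα, ?_⟩
  rw [ap_mkf hFR hα]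
  apply RS_ext (hFR α hα) hx
  intro n hn
  show ap (mkf omega omega (fun n => least (fun m => pr n m ∈ ap c α))) n = ap x n
  rw [ap_mkf (fun n _ => hleast α n) hn]
  have hxn := RS_ap' hx n
  have h1 : ∀ m, m ∈ (omega : M) → (pr n m ∈ ap c α ↔ m = ap x n) := by
    intro m hm
    rw [e, mem_sep]
    constructor
    · rintro ⟨_, n', hn', e1⟩
      obtain ⟨rfl, e2⟩ := pr_inj hn hm hn' (RS_ap' hx n') e1
      exact e2
    · rintro rfl
      exact ⟨pr_mem hn hxn, n, hn, rfl⟩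
  obtain ⟨h2, h3, _⟩ := least_spec (fun m => pr n m ∈ ap c α) ⟨ap x n, hxn, (h1 _ hxn).2 rfl⟩
  exact (h1 _ h2).1 h3

end Pool.Agent.ZFIter.NPA.BSM
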