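import Pool.Agent.NMB.DSet

/-!
# Every set of reals is in `L(R)[p]` for a selective ultrafilter `p`
-/

namespace Pool.Agent.NMB

open Set Ordinal Cardinal
open Pool.Agent.H78.ZF (opair)

theorem exists_enum {α : Type} [Nonempty α] (h : #α ≤ ℵ₁) :
    ∃ f : Ordinal.{0} → α, ∀ a, ∃ ξ < om1, f ξ = a := by
  classical
  have h1 : #α ≤ #((ω₁ : Ordinal.{0}).ToType) := by
    rw [Cardinal.mk_toType, Ordinal.card_omega]; exact h
  obtain ⟨g⟩ := h1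
  let t : α → Ordinal.{0} := fun a => (ToType.toOrd (g a)).1
  have ht : Function.Injective t := fun a b hab => by
    apply g.injective
    exact ToType.mk.symm.injective (Subtype.ext hab)
  refine ⟨fun ξ => if h : ∃ a, t a = ξ then h.choose else Classical.arbitrary α, fun a => ?_⟩
  refine ⟨t a, (ToType.toOrd (g a)).2, ?_⟩
  have h2 : ∃ b, t b = t a := ⟨a, rfl⟩
  show (if h : ∃ b, t b = t a then h.choose else Classical.arbitrary α) = a
  rw [dif_pos h2]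
  exact ht h2.choose_spec

/-- The payload. -/
def payl (ρ : Set ℕ) (e : ℕ → Ordinal.{0}) (b : Set ℕ) : Set ℕ :=
  {k | (∃ n ∈ ρ, k = 3 * n) ∨ (∃ m n, e m < e n ∧ k = 3 * Nat.pair m n + 1) ∨
    (∃ n ∈ b, k = 3 * n + 2)}

theorem payl_A {s ρ b : Set ℕ} {e : ℕ → Ordinal.{0}} (h : pay s = payl ρ e b) : payA s = ρ := by
  ext n
  unfold payA
  rw [h]
  unfold payl
  simp only [mem_ofPred_eq]
  constructor
  · rintro (⟨m, hm, e1⟩ | ⟨m, k, _, e1⟩ | ⟨m, _, e1⟩)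
    · have : n = m := by omega
      rwa [this]
    · omega
    · omega
  · intro hn; exact Or.inl ⟨n, hn, rfl⟩

theorem payl_B {s ρ b : Set ℕ} {e : ℕ → Ordinal.{0}} (h : pay s = payl ρ e b) : payB s = b := by
  ext n
  unfold payB
  rw [h]
  unfold payl
  simp only [mem_ofPred_eq]
  constructor
  · rintro (⟨m, hm, e1⟩ | ⟨m, k, _, e1⟩ | ⟨m, hm, e1⟩)
    · omega
    · omega
    · have : n = m := by omega
      rwa [this]
  · intro hn; exact Or.inr (Or.inr ⟨n, hn, rfl⟩)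

theorem payl_W {s ρ b : Set ℕ} {e : ℕ → Ordinal.{0}} (h : pay s = payl ρ e b) (m n : ℕ) :
    m ∈ payW s n ↔ e m < e n := by
  unfold payW
  rw [h]
  unfold payl
  simp only [mem_ofPred_eq]
  constructor
  · rintro (⟨k, hk, e1⟩ | ⟨m', n', hlt, e1⟩ | ⟨k, hk, e1⟩)
    · omega
    · have : Nat.pair m n = Nat.pair m' n' := by omega
      rw [Nat.pair_eq_pair] at this
      rw [this.1, this.2]; exact hlt
    · omega
  · intro hlt; exact Or.inr (Or.inl ⟨m, n, hlt, rfl⟩)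

theorem exists_e {C : Set Ordinal.{0}} {lam : Ordinal.{0} → Ordinal.{0}}
    {c : Ordinal.{0} → Ordinal.{0} → Ordinal.{0}} (hw : Wit C lam c) :
    ∃ e : Ordinal.{0} → ℕ → Ordinal.{0}, ∀ ζ < om1, ∃ δ ∈ C, ζ < δ ∧ Iio δ = range (e ζ) := by
  have h1 : ∀ ζ : Ordinal.{0}, ∃ e : ℕ → Ordinal.{0}, ζ < om1 →
      ∃ δ ∈ C, ζ < δ ∧ Iio δ = range e := by
    intro ζ
    by_cases h : ζ < om1
    · obtain ⟨δ, hδ, h2⟩ := hw.unb ζ h
      obtain ⟨e, he⟩ := (countable_Iio (hw.lt δ hδ)).exists_eq_range ⟨ζ, h2⟩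
      exact ⟨e, fun _ => ⟨δ, hδ, h2, he⟩⟩
    · exact ⟨fun _ => 0, fun h' => absurd h' h⟩
  choose e he using h1
  exact ⟨e, fun ζ hζ => he ζ hζ⟩

/-- The tower with prescribed third components. -/
theorem exists_tower (hCH : #(Set ℕ) = ℵ₁) {C : Set Ordinal.{0}}
    {lam : Ordinal.{0} → Ordinal.{0}} {c : Ordinal.{0} → Ordinal.{0} → Ordinal.{0}}
    (hw : Wit C lam c) : ∃ e : Ordinal.{0} → ℕ → Ordinal.{0}, ∀ b : Ordinal.{0} → Set ℕ,
    ∃ (d : TData) (p : Ultrafilter ℕ), d.D = DV C lam c ∧ d.e = e ∧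
      (∀ A : Set ℕ, A ∈ p ↔ ∃ ξ < om1, (d.X ξ \ A).Finite) ∧
      Pool.Agent.BLA.Selective p ∧ (∀ ξ < om1, payB (d.S ξ (d.X ξ)) = b ξ) ∧
      ∀ ξ < om1, IM.Codes (d.S ξ (d.X ξ)) (d.e ξ) := by
  classical
  obtain ⟨ρ, hρ⟩ := exists_enum (α := Set ℕ) hCH.le
  have hfun : #(ℕ → ℕ) ≤ ℵ₁ := by
    rw [← hCH]
    simp
  obtain ⟨g, hg⟩ := exists_enum (α := ℕ → ℕ) hfun
  obtain ⟨e, he⟩ := exists_e hw
  refine ⟨e, fun b => ?_⟩
  have hex : ∀ (ξ : Ordinal.{0}) (x : Set ℕ), ∃ s : Set ℕ, s.Infinite ∧ (x.Infinite →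
      pay s = payl (ρ ξ) (e ξ) (b ξ) ∧ ∀ a ∈ T x s, ∀ b ∈ T x s, a < b → g ξ a < b) := by
    intro ξ x
    by_cases hx : x.Infinite
    · obtain ⟨s, h1, h2, h3⟩ := exists_s hx (payl (ρ ξ) (e ξ) (b ξ)) (g ξ)
      exact ⟨s, h1, fun _ => ⟨h2, h3⟩⟩
    · exact ⟨Set.univ, Set.infinite_univ, fun h => absurd h hx⟩
  choose S hS1 hS2 using hex
  have he' : ∀ ζ < om1, ∃ δ ∈ C, ζ < δ ∧ ∀ β < δ, ∃ i, e ζ i = β := by
    intro ζ hζ
    obtain ⟨δ, h1, h2, h3⟩ := he ζ hζ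
    refine ⟨δ, h1, h2, fun β hβ => ?_⟩
    have : β ∈ Iio δ := hβ
    rw [h3] at this
    exact this
  let d : TData :=
    { D := DV C lam c
      e := e
      S := S
      hS := hS1
      D1 := fun _ _ _ _ h => DV_lt hw h
      D2 := fun _ _ _ _ _ _ _ h h' => DV_uniq h h'
      D3 := fun _ _ _ _ _ h h' => DV_func h h'
      D4 := fun ξ hξ hl α hα => DV_unb hw he' hξ hl hα }
  have hpay : ∀ ξ < om1, pay (d.S ξ (d.X ξ)) = payl (ρ ξ) (e ξ) (b ξ) := fun ξ hξ =>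
    (hS2 ξ (d.X ξ) (d.X_inf hξ)).1
  obtain ⟨p, hp⟩ := d.exists_ultra fun A => by
    obtain ⟨ξ, hξ, h1⟩ := hρ A
    exact ⟨ξ, hξ, by rw [payl_A (hpay ξ hξ), h1]⟩
  refine ⟨d, p, rfl, rfl, hp, TData.selective hp fun g' => ?_, fun ξ hξ => payl_B (hpay ξ hξ),
    fun ξ hξ => ?_⟩
  · obtain ⟨ξ, hξ, rfl⟩ := hg g'
    exact ⟨ξ, hξ, (hS2 ξ (d.X ξ) (d.X_inf hξ)).2⟩
  · refine ⟨fun m n => payl_W (hpay ξ hξ) m n, fun n β hβ => ?_⟩
    obtain ⟨δ, _, _, h3⟩ := he ξ hξ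
    have h4 : e ξ n ∈ Iio δ := by rw [h3]; exact ⟨n, rfl⟩
    have h5 : β ∈ Iio δ := lt_trans hβ h4
    rw [h3] at h5
    exact h5

/-- Every pair of nonempty sets of reals is in `L(R)[p]` for some selective `p`. -/
theorem exists_p (hCH : #(Set ℕ) = ℵ₁) {C : Set Ordinal.{0}} {lam : Ordinal.{0} → Ordinal.{0}}
    {c : Ordinal.{0} → Ordinal.{0} → Ordinal.{0}} (hw : Wit C lam c) {Q Q' : Set (Set ℕ)}
    (hQ : Q.Nonempty) (hQ' : Q'.Nonempty) :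
    ∃ p : Ultrafilter ℕ, Pool.Agent.BLA.Selective p ∧
      ∀ N : IM, fam {A | A ∈ p} ∈ N.M → sys C lam c ∈ N.M → fam Q ∈ N.M ∧ fam Q' ∈ N.M := by
  classical
  have : Nonempty Q := hQ.to_subtype
  have : Nonempty Q' := hQ'.to_subtype
  obtain ⟨b, hb⟩ := exists_enum (α := Q) ((mk_set_le Q).trans hCH.le)
  obtain ⟨b', hb'⟩ := exists_enum (α := Q') ((mk_set_le Q').trans hCH.le)
  obtain ⟨e, he⟩ := exists_tower hCH hw
  obtain ⟨d, p, hD, _, hp, hsel, hB, hC⟩ := he fun ξ =>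
    {k | (∃ n ∈ (b ξ).1, k = 2 * n) ∨ ∃ n ∈ (b' ξ).1, k = 2 * n + 1}
  refine ⟨p, hsel, fun N hN hsys => ?_⟩
  obtain ⟨D, hDD⟩ := IM.exists_D hw hsys
  let t : IM.Sit N :=
    { d := d
      p := p
      hp := hp
      P := ⟨fam {A | A ∈ p}, hN⟩
      hP := IM.isFam_iff.2 rfl
      D := D
      hD := by rw [hD]; exact hDD
      hC := hC }
  have o1 : OpenOp fun x _ => {n | 2 * n ∈ payB x} := by
    intro x y a ha
    obtain ⟨k, hk⟩ := open_payB x y (2 * a) ha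
    exact ⟨k, hk⟩
  have o2 : OpenOp fun x _ => {n | 2 * n + 1 ∈ payB x} := by
    intro x y a ha
    obtain ⟨k, hk⟩ := open_payB x y (2 * a + 1) ha
    exact ⟨k, hk⟩
  have h1 := t.fam_mem _ o1
  have h2 := t.fam_mem _ o2
  have e1 : ∀ ξ < om1, {n | 2 * n ∈ payB (d.S ξ (d.X ξ))} = (b ξ).1 := by
    intro ξ hξ
    rw [hB ξ hξ]
    ext n
    simp only [mem_ofPred_eq]
    constructor
    · rintro (⟨m, hm, e1⟩ | ⟨m, hm, e1⟩)
      · have : n = m := by omega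
        rwa [this]
      · omega
    · intro hn; exact Or.inl ⟨n, hn, rfl⟩
  have e2 : ∀ ξ < om1, {n | 2 * n + 1 ∈ payB (d.S ξ (d.X ξ))} = (b' ξ).1 := by
    intro ξ hξ
    rw [hB ξ hξ]
    ext n
    simp only [mem_ofPred_eq]
    constructor
    · rintro (⟨m, hm, e1⟩ | ⟨m, hm, e1⟩)
      · omega
      · have : n = m := by omega
        rwa [this]
    · intro hn; exact Or.inr ⟨n, hn, rfl⟩
  constructor
  · convert h1 using 2
    ext A
    simp only [mem_ofPred_eq]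
    constructor
    · intro hA
      obtain ⟨ξ, hξ, h3⟩ := hb ⟨A, hA⟩
      exact ⟨ξ, hξ, by rw [e1 ξ hξ, h3]⟩
    · rintro ⟨ξ, hξ, rfl⟩
      rw [e1 ξ hξ]; exact (b ξ).2
  · convert h2 using 2
    ext A
    simp only [mem_ofPred_eq]
    constructor
    · intro hA
      obtain ⟨ξ, hξ, h3⟩ := hb' ⟨A, hA⟩
      exact ⟨ξ, hξ, by rw [e2 ξ hξ, h3]⟩
    · rintro ⟨ξ, hξ, rfl⟩
      rw [e2 ξ hξ]; exact (b' ξ).2

/-- There are two selective ultrafilters, the second of which is no image of the first. -/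
theorem exists_two (hCH : #(Set ℕ) = ℵ₁) {C : Set Ordinal.{0}} {lam : Ordinal.{0} → Ordinal.{0}}
    {c : Ordinal.{0} → Ordinal.{0} → Ordinal.{0}} (hw : Wit C lam c) :
    ∃ q q' : Ultrafilter ℕ, Pool.Agent.BLA.Selective q ∧ Pool.Agent.BLA.Selective q' ∧
      (∀ B : ℕ → Set ℕ, (∀ n, B n ∈ q) → ∃ A ∈ q, ∀ n, (A \ B n).Finite) ∧
      (∀ B : ℕ → Set ℕ, (∀ n, B n ∈ q') → ∃ A ∈ q', ∀ n, (A \ B n).Finite) ∧
      ∀ f : ℕ → ℕ, q.map f ≠ q' := by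
  classical
  obtain ⟨e, he⟩ := exists_tower hCH hw
  choose d p hD hE hp hsel hB hC using he
  let bb : Set (ω₁ : Ordinal.{0}).ToType → Ordinal.{0} → Set ℕ := fun Z ξ =>
    {_n | ∃ z ∈ Z, (ToType.toOrd z).1 = ξ}
  have hinj : Function.Injective fun Z => p (bb Z) := by
    intro Z Z' hZ
    have h0 : p (bb Z) = p (bb Z') := hZ
    have h1 : ∀ ξ < om1, bb Z ξ = bb Z' ξ := by
      intro ξ hξ
      rw [← hB (bb Z) ξ hξ, ← hB (bb Z') ξ hξ]
      congr 1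
      have hp' := hp (bb Z')
      rw [← h0] at hp'
      exact TData.S_unique (hp (bb Z)) hp' (by rw [hD, hD]) (by rw [hE, hE]) hξ
    ext z
    have h2 := h1 (ToType.toOrd z).1 (ToType.toOrd z).2
    have key : ∀ W : Set (ω₁ : Ordinal.{0}).ToType, 0 ∈ bb W (ToType.toOrd z).1 ↔ z ∈ W := by
      intro W
      constructor
      · rintro ⟨w, hw', e1⟩
        have : w = z := ToType.mk.symm.injective (Subtype.ext e1)
        rwa [← this]
      · intro hz; exact ⟨z, hz, rfl⟩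
    rw [← key Z, ← key Z', h2]
  by_contra hcon
  push Not at hcon
  have h3 : ∀ Z, ∃ f : ℕ → ℕ, (p (bb ∅)).map f = p (bb Z) := by
    intro Z
    exact hcon (p (bb ∅)) (p (bb Z)) (hsel _) (hsel _) (fun B hB' => TData.ppoint_mem (hp _) hB')
      (fun B hB' => TData.ppoint_mem (hp _) hB')
  choose f hf using h3
  have hfinj : Function.Injective f := by
    intro Z Z' h
    apply hinj
    show p (bb Z) = p (bb Z')
    rw [← hf Z, ← hf Z', h]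
  have h4 := Cardinal.mk_le_of_injective hfinj
  have hfun : #(ℕ → ℕ) = ℵ₁ := by
    rw [← hCH]
    simp
  rw [hfun, Cardinal.mk_set, Cardinal.mk_toType, Ordinal.card_omega] at h4
  exact absurd (Cardinal.cantor ℵ₁) (not_lt.2 h4)

end Pool.Agent.NMB
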