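import Pool.Agent.NMB.Op
import Pool.Agent.H78.ZF.Pairing

/-!
# Inner models: dictionary
-/

namespace Pool.Agent.NMB

open Set Ordinal
open Pool.Agent.H78.ZF

/-- A bundled inner model of ZF with all subsets of `ω`. -/
structure IM where
  M : Set ZFSet.{0}
  im : InnerModel M
  re : ∀ A : Set ℕ, real A ∈ M

namespace IM

variable (N : IM)

/-- The sets of the inner model. -/
abbrev C : Type 1 := {x : ZFSet.{0} // x ∈ N.M}

instance : ZFM N.C := ⟨fun x y => x.1 ∈ y.1, N.im.zf⟩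

variable {N}

theorem mem_iff {x y : N.C} : x ∈ y ↔ x.1 ∈ y.1 := Iff.rfl

/-- an element of an element of the model -/
def el (x : N.C) (y : ZFSet.{0}) (h : y ∈ x.1) : N.C := ⟨y, N.im.trans _ x.2 _ h⟩

theorem emp_val : (emp : N.C).1 = ∅ := by
  ext z
  constructor
  · intro h
    exact absurd (show el _ z h ∈ (emp : N.C) from h) (not_mem_emp _)
  · intro h
    exact absurd h (ZFSet.notMem_empty z)

theorem upair_val (x y : N.C) : (upair x y).1 = {x.1, y.1} := by
  ext z
  rw [ZFSet.mem_pair]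
  constructor
  · intro h
    have : el _ z h ∈ upair x y := h
    rw [mem_upair] at this
    rcases this with h | h
    · left; exact congrArg Subtype.val h
    · right; exact congrArg Subtype.val h
  · rintro (rfl | rfl)
    · have : x ∈ upair x y := by simp
      exact this
    · have : y ∈ upair x y := by simp
      exact this

theorem opair_val (x y : N.C) : (opair x y).1 = ZFSet.pair x.1 y.1 := by
  unfold opair sing ZFSet.pair
  rw [upair_val, upair_val, upair_val]
  congr 1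
  exact ZFSet.pair_eq_singleton _

/-- The ordinals of the model. -/
noncomputable def ord (N : IM) (α : Ordinal.{0}) : N.C := ⟨α.toZFSet, N.im.ord α⟩

theorem ord_mem {α β : Ordinal.{0}} : ord N α ∈ ord N β ↔ α < β :=
  Ordinal.toZFSet_mem_toZFSet_iff

theorem mem_ord {x : N.C} {β : Ordinal.{0}} : x ∈ ord N β ↔ ∃ α < β, x = ord N α := by
  rw [mem_iff]
  unfold ord
  simp only [Ordinal.mem_toZFSet_iff]
  constructor
  · rintro ⟨α, h, e⟩
    exact ⟨α, h, Subtype.ext e.symm⟩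
  · rintro ⟨α, h, e⟩
    exact ⟨α, h, by rw [e]⟩

theorem ord_inj {α β : Ordinal.{0}} (h : ord N α = ord N β) : α = β :=
  Ordinal.toZFSet_injective (congrArg Subtype.val h)

theorem ord_sub {α β : Ordinal.{0}} : ord N α ⊆ ord N β ↔ α ≤ β := by
  constructor
  · intro h
    by_contra hc
    push Not at hc
    have := h _ (ord_mem.2 hc)
    rw [ord_mem] at this
    exact lt_irrefl _ this
  · intro h z hz
    rw [mem_ord] at hz ⊢
    obtain ⟨γ, hγ, rfl⟩ := hz
    exact ⟨γ, hγ.trans_le h, rfl⟩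

theorem ord_zero : ord N 0 = emp := by
  apply eq_emp
  intro z hz
  rw [mem_ord] at hz
  obtain ⟨α, h, _⟩ := hz
  exact absurd h (not_lt_zero)

theorem ord_succ (α : Ordinal.{0}) : ord N (α + 1) = succ (ord N α) := by
  apply H78.ZF.ext
  intro z
  rw [mem_succ, mem_ord, mem_ord]
  constructor
  · rintro ⟨β, h, rfl⟩
    rcases (Order.lt_add_one_iff.1 h).lt_or_eq with h | rfl
    · exact Or.inl ⟨β, h, rfl⟩
    · exact Or.inr rfl
  · rintro (⟨β, h, rfl⟩ | rfl)
    · exact ⟨β, h.trans (by simp), rfl⟩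
    · exact ⟨α, by simp, rfl⟩

/-- The natural numbers of the model. -/
noncomputable def nu (N : IM) (n : ℕ) : N.C := ord N n

theorem nu_mem {m n : ℕ} : nu N m ∈ nu N n ↔ m < n := by
  unfold nu
  rw [ord_mem]
  exact Nat.cast_lt

theorem nu_inj {m n : ℕ} (h : nu N m = nu N n) : m = n := by
  have := ord_inj h
  exact Nat.cast_injective this

theorem nu_zero : nu N 0 = emp := by
  unfold nu
  rw [Nat.cast_zero, ord_zero]

theorem nu_succ (n : ℕ) : nu N (n + 1) = succ (nu N n) := by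
  unfold nu
  rw [Nat.cast_add, Nat.cast_one, ord_succ]

theorem nu_omega (n : ℕ) : nu N n ∈ (omega : N.C) := by
  induction n with
  | zero => rw [nu_zero]; exact emp_mem_omega
  | succ n ih => rw [nu_succ]; exact succ_mem_omega ih

theorem omega_eq : (omega : N.C) = ord N ω := by
  apply H78.ZF.ext
  intro z
  constructor
  · intro h
    rw [mem_omega] at h
    apply h
    constructor
    · rw [← ord_zero, ord_mem]; exact Ordinal.omega0_pos
    · intro y hy
      rw [mem_ord] at hy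
      obtain ⟨α, hα, rfl⟩ := hy
      rw [← ord_succ, ord_mem]
      exact Ordinal.isSuccLimit_omega0.add_one_lt hα
  · intro h
    rw [mem_ord] at h
    obtain ⟨α, hα, rfl⟩ := h
    obtain ⟨n, rfl⟩ := Ordinal.lt_omega0.1 hα
    exact nu_omega n

theorem mem_omega_iff {z : N.C} : z ∈ (omega : N.C) ↔ ∃ n, z = nu N n := by
  constructor
  · intro h
    rw [omega_eq, mem_ord] at h
    obtain ⟨α, hα, rfl⟩ := h
    obtain ⟨n, rfl⟩ := Ordinal.lt_omega0.1 hα
    exact ⟨n, rfl⟩
  · rintro ⟨n, rfl⟩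
    exact nu_omega n

/-- The subset `A` of `ω` in the model. -/
noncomputable def R (N : IM) (A : Set ℕ) : N.C := ⟨real A, N.re A⟩

theorem mem_real {A : Set ℕ} {z : ZFSet.{0}} : z ∈ real A ↔ ∃ n ∈ A, z = num n := by
  unfold real
  rw [ZFSet.mem_sep]
  constructor
  · rintro ⟨_, h⟩; exact h
  · rintro ⟨n, h, rfl⟩
    refine ⟨?_, n, h, rfl⟩
    unfold num
    rw [Ordinal.toZFSet_mem_toZFSet_iff]
    exact Ordinal.natCast_lt_omega0 n

theorem nu_R {A : Set ℕ} {n : ℕ} : nu N n ∈ R N A ↔ n ∈ A := by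
  rw [mem_iff]
  unfold R
  simp only [mem_real]
  constructor
  · rintro ⟨m, hm, e⟩
    have : nu N n = nu N m := Subtype.ext e
    rwa [nu_inj this]
  · intro h
    exact ⟨n, h, rfl⟩

theorem R_sub (A : Set ℕ) : R N A ⊆ (omega : N.C) := by
  intro z hz
  rw [mem_iff] at hz
  obtain ⟨n, _, e⟩ := mem_real.1 hz
  rw [mem_omega_iff]
  exact ⟨n, Subtype.ext e⟩

theorem R_eq {x : N.C} (hx : x ⊆ (omega : N.C)) : x = R N {n | nu N n ∈ x} := by
  apply H78.ZF.ext
  intro z
  constructor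
  · intro h
    obtain ⟨n, rfl⟩ := mem_omega_iff.1 (hx z h)
    rw [nu_R]; exact h
  · intro h
    obtain ⟨n, rfl⟩ := mem_omega_iff.1 (R_sub _ z h)
    rwa [nu_R] at h

theorem R_ext {x : N.C} {A : Set ℕ} (hx : x ⊆ (omega : N.C)) (h : ∀ n, nu N n ∈ x ↔ n ∈ A) :
    x = R N A := by
  rw [R_eq hx]
  congr 1
  ext n
  exact h n

theorem R_inj {A B : Set ℕ} (h : R N A = R N B) : A = B := by
  ext n
  rw [← nu_R (N := N), h, nu_R]

theorem R_Iio (n : ℕ) : R N (Iio n) = nu N n := by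
  apply H78.ZF.ext
  intro z
  constructor
  · intro h
    obtain ⟨m, rfl⟩ := mem_omega_iff.1 (R_sub _ z h)
    rw [nu_R] at h
    rw [nu_mem]; exact h
  · intro h
    obtain ⟨m, rfl⟩ := mem_omega_iff.1 (mem_omega_of_mem h (nu_omega n))
    rw [nu_mem] at h
    rw [nu_R]; exact h

theorem R_univ : R N Set.univ = (omega : N.C) := by
  symm
  apply R_ext (sub_refl _)
  intro n
  simp [nu_omega]

/-- Number pairing. -/
theorem exists_j (m n : ℕ) : ∃ k, pr (nu N m) (nu N n) = nu N k :=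
  mem_omega_iff.1 (pr_mem (nu_omega m) (nu_omega n))

noncomputable def j (N : IM) (m n : ℕ) : ℕ := (exists_j (N := N) m n).choose

theorem j_spec (m n : ℕ) : pr (nu N m) (nu N n) = nu N (j N m n) :=
  (exists_j (N := N) m n).choose_spec

theorem j_inj {m n m' n' : ℕ} (h : j N m n = j N m' n') : m = m' ∧ n = n' := by
  have := pr_inj (nu_omega m) (nu_omega n) (nu_omega m') (nu_omega n')
    (by rw [j_spec, j_spec, h])
  exact ⟨nu_inj this.1, nu_inj this.2⟩

/-- A binary relation as a real of the model. -/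
noncomputable def Rel (N : IM) (Q : ℕ → ℕ → Prop) : N.C :=
  R N {k | ∃ m n, Q m n ∧ k = j N m n}

theorem mem_Rel {Q : ℕ → ℕ → Prop} {m n : ℕ} : pr (nu N m) (nu N n) ∈ Rel N Q ↔ Q m n := by
  unfold Rel
  rw [j_spec, nu_R]
  simp only [mem_ofPred_eq]
  constructor
  · rintro ⟨m', n', h, e⟩
    obtain ⟨rfl, rfl⟩ := j_inj e
    exact h
  · intro h
    exact ⟨m, n, h, rfl⟩

/-- `u` matches the pair `(x, y)`. -/
def Mat (x y : Set ℕ) (u : ℕ) : Prop :=
  ∀ m < u.unpair.1, (m ∈ x ↔ m ∈ dc u.unpair.2.unpair.1) ∧ (m ∈ y ↔ m ∈ dc u.unpair.2.unpair.2)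

def P1 (u m : ℕ) : Prop := m < u.unpair.1 ∧ m ∈ dc u.unpair.2.unpair.1
def N1 (u m : ℕ) : Prop := m < u.unpair.1 ∧ m ∉ dc u.unpair.2.unpair.1
def P2 (u m : ℕ) : Prop := m < u.unpair.1 ∧ m ∈ dc u.unpair.2.unpair.2
def N2 (u m : ℕ) : Prop := m < u.unpair.1 ∧ m ∉ dc u.unpair.2.unpair.2

theorem mat_iff {x y : Set ℕ} {u : ℕ} : Mat x y u ↔ ∀ m, (P1 u m → m ∈ x) ∧ (N1 u m → m ∉ x) ∧
    (P2 u m → m ∈ y) ∧ (N2 u m → m ∉ y) := by
  unfold Mat P1 N1 P2 N2
  constructor
  · intro h m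
    refine ⟨fun h1 => ((h m h1.1).1).2 h1.2, fun h1 h2 => h1.2 (((h m h1.1).1).1 h2),
      fun h1 => ((h m h1.1).2).2 h1.2, fun h1 h2 => h1.2 (((h m h1.1).2).1 h2)⟩
  · intro h m hm
    obtain ⟨h1, h2, h3, h4⟩ := h m
    constructor
    · constructor
      · intro hx
        by_contra hc
        exact h2 ⟨hm, hc⟩ hx
      · intro hc; exact h1 ⟨hm, hc⟩
    · constructor
      · intro hx
        by_contra hc
        exact h4 ⟨hm, hc⟩ hx
      · intro hc; exact h3 ⟨hm, hc⟩

/-- An open operation, computed in the model from a code `Th`. -/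
noncomputable def opM (N : IM) (Th x y : N.C) : N.C :=
  sep omega (fun a => ∃ u, u ∈ (omega : N.C) ∧ pr u a ∈ Th ∧ ∀ m, m ∈ (omega : N.C) →
    (pr u m ∈ Rel N P1 → m ∈ x) ∧ (pr u m ∈ Rel N N1 → m ∉ x) ∧
    (pr u m ∈ Rel N P2 → m ∈ y) ∧ (pr u m ∈ Rel N N2 → m ∉ y))

instance DF.opM {ι : Type} (Th x y : (ι → N.C) → N.C) [DF Th] [DF x] [DF y] :
    DF (fun v => opM N (Th v) (x v) (y v)) := by
  unfold IM.opM
  infer_instance

theorem opM_sub (Th x y : N.C) : opM N Th x y ⊆ (omega : N.C) := by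
  intro z hz
  unfold opM at hz
  rw [H78.ZF.mem_sep] at hz
  exact hz.1

theorem exists_code (F : Set ℕ → Set ℕ → Set ℕ) (hF : OpenOp F) :
    ∃ Th : N.C, ∀ x y, opM N Th (R N x) (R N y) = R N (F x y) := by
  classical
  refine ⟨Rel N fun u a => ∀ x y, Mat x y u → a ∈ F x y, fun x y => ?_⟩
  apply R_ext (opM_sub _ _ _)
  intro a
  unfold opM
  rw [H78.ZF.mem_sep]
  constructor
  · rintro ⟨_, u, hu, h1, h2⟩
    obtain ⟨u, rfl⟩ := mem_omega_iff.1 hu
    rw [mem_Rel] at h1
    apply h1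
    rw [mat_iff]
    intro m
    have := h2 _ (nu_omega m)
    simpa only [mem_Rel, nu_R] using this
  · intro ha
    refine ⟨nu_omega a, ?_⟩
    obtain ⟨k, hk⟩ := hF x y a ha
    have hf : ∀ z : Set ℕ, ∃ u, ∀ m < k, (m ∈ dc u ↔ m ∈ z) := by
      intro z
      refine ⟨dc.symm ((Finset.range k).filter (· ∈ z)), fun m hm => ?_⟩
      simp [hm]
    obtain ⟨u1, h1⟩ := hf x
    obtain ⟨u2, h2⟩ := hf y
    refine ⟨nu N (Nat.pair k (Nat.pair u1 u2)), nu_omega _, ?_, ?_⟩
    · rw [mem_Rel]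
      intro x' y' hm
      apply hk
      · intro i hi
        have := (hm i (by simpa using hi)).1
        simp only [Nat.unpair_pair] at this
        rw [this, h1 i hi]
      · intro i hi
        have := (hm i (by simpa using hi)).2
        simp only [Nat.unpair_pair] at this
        rw [this, h2 i hi]
    · intro m hm
      obtain ⟨m, rfl⟩ := mem_omega_iff.1 hm
      simp only [mem_Rel, nu_R]
      have : Mat x y (Nat.pair k (Nat.pair u1 u2)) := by
        intro m hm
        simp only [Nat.unpair_pair] at hm ⊢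
        exact ⟨(h1 m hm).symm, (h2 m hm).symm⟩
      exact mat_iff.1 this m

end IM

end Pool.Agent.NMB
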