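import Mathlib
import Pool.Agent.BLA.Defs

/-!
# P-points in `G^p`
-/

namespace Pool.Agent.NMB

open Set Filter
open Pool.Agent.BLA

/-- A P-point belongs to `G^p` only if it is an image of `p`. -/
theorem GP_ppoint {p q : Ultrafilter ℕ}
    (hq : ∀ B : ℕ → Set ℕ, (∀ n, B n ∈ q) → ∃ A ∈ q, ∀ n, (A \ B n).Finite)
    (hp : ∀ f : ℕ → ℕ, p.map f ≠ q) {u : Ultrafilter ℕ} (hu : GP p u) :
    ∀ f : ℕ → ℕ, u.map f ≠ q := by
  induction hu with
  | base => exact hp
  | image u g _ ih =>
    intro f h
    apply ih (f ∘ g)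
    rw [← h]
    exact Ultrafilter.coe_injective rfl
  | sum u v w _ _ hs ih1 ih2 =>
    intro f h
    have hmem : ∀ A : Set ℕ, A ∈ q ↔ {n | {k | f (Nat.pair n k) ∈ A} ∈ v n} ∈ u := by
      intro A
      rw [← h, Ultrafilter.mem_map, hs]
      rfl
    by_cases hc : {n | ∃ k : ℕ, {j | f (Nat.pair n j) = k} ∈ v n} ∈ u
    · have hg : ∀ n, ∃ g : ℕ, (∃ k : ℕ, {j | f (Nat.pair n j) = k} ∈ v n) →
          {j | f (Nat.pair n j) = g} ∈ v n := by
        intro n
        by_cases h1 : ∃ k : ℕ, {j | f (Nat.pair n j) = k} ∈ v n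
        · obtain ⟨k, hk⟩ := h1
          exact ⟨k, fun _ => hk⟩
        · exact ⟨0, fun h2 => absurd h2 h1⟩
      choose g hg using hg
      apply ih1 g
      apply Ultrafilter.coe_injective
      apply Filter.ext
      intro A
      show A ∈ u.map g ↔ A ∈ q
      rw [Ultrafilter.mem_map, hmem]
      constructor
      · intro hA
        refine mem_of_superset (inter_mem hA hc) ?_
        rintro n ⟨h1, h2⟩
        refine mem_of_superset (hg n h2) ?_
        intro j hj
        show f (Nat.pair n j) ∈ A
        have hj' : f (Nat.pair n j) = g n := hj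
        rw [hj']
        exact h1
      · intro hA
        refine mem_of_superset (inter_mem hA hc) ?_
        rintro n ⟨h1, h2⟩
        obtain ⟨j, hj1, hj2⟩ := Ultrafilter.nonempty_of_mem (inter_mem h1 (hg n h2))
        show g n ∈ A
        have hj' : f (Nat.pair n j) = g n := hj2
        rw [← hj']
        exact hj1
    · have hc' : {n | ∃ k : ℕ, {j | f (Nat.pair n j) = k} ∈ v n}ᶜ ∈ u :=
        Ultrafilter.compl_mem_iff_notMem.2 hc
      have hA : ∀ n, ∃ A : Set ℕ, A ∈ q ∧ {j | f (Nat.pair n j) ∈ A} ∉ v n := by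
        intro n
        by_contra hcon
        push Not at hcon
        apply ih2 n fun j => f (Nat.pair n j)
        apply Ultrafilter.coe_injective
        apply Filter.ext
        intro A
        show A ∈ (v n).map _ ↔ A ∈ q
        rw [Ultrafilter.mem_map]
        constructor
        · intro h1
          by_contra h2
          have h3 := hcon Aᶜ (Ultrafilter.compl_mem_iff_notMem.2 h2)
          obtain ⟨j, hj1, hj2⟩ := Ultrafilter.nonempty_of_mem (inter_mem h1 h3)
          exact hj2 hj1
        · intro h1; exact hcon A h1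
      choose A hA1 hA2 using hA
      obtain ⟨B, hB1, hB2⟩ := hq A hA1
      have h1 := inter_mem ((hmem B).1 hB1) hc'
      obtain ⟨n, hn1, hn2⟩ := Ultrafilter.nonempty_of_mem h1
      have hn3 : ∀ k : ℕ, {j | f (Nat.pair n j) = k} ∉ v n := by
        intro k hk
        exact hn2 ⟨k, hk⟩
      have hn1' : {j | f (Nat.pair n j) ∈ B} ∈ v n := hn1
      have hfin : {j | f (Nat.pair n j) ∈ B \ A n} ∉ v n := by
        intro hm
        have h2 : {j | f (Nat.pair n j) ∈ B \ A n} =
            ⋃ k ∈ B \ A n, {j | f (Nat.pair n j) = k} := by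
          ext j
          simp
        rw [h2, Ultrafilter.finite_biUnion_mem_iff (hB2 n)] at hm
        obtain ⟨k, _, hk⟩ := hm
        exact hn3 k hk
      have h3 : {j | f (Nat.pair n j) ∈ B \ A n}ᶜ ∈ v n :=
        Ultrafilter.compl_mem_iff_notMem.2 hfin
      apply hA2 n
      refine mem_of_superset (inter_mem hn1' h3) ?_
      rintro j ⟨h4, h5⟩
      by_contra h6
      exact h5 ⟨h4, h6⟩

/-- If a nonprincipal ultrafilter is an image of a selective `p`, then `p` is an image of it. -/
theorem selective_image {p q : Ultrafilter ℕ} (hp : Selective p) {f : ℕ → ℕ} (hf : p.map f = q)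
    (hn : ∀ n : ℕ, ({n} : Set ℕ) ∉ q) : ∃ g : ℕ → ℕ, q.map g = p := by
  classical
  rcases hp.2 f with ⟨n, h⟩ | ⟨A, hA, hinj⟩
  · exfalso
    apply hn n
    rw [← hf]
    exact h
  · refine ⟨fun m => if h : ∃ a ∈ A, f a = m then h.choose else 0, ?_⟩
    rw [← hf]
    apply Ultrafilter.coe_injective
    apply Filter.ext
    intro B
    show B ∈ (p.map f).map _ ↔ B ∈ p
    rw [Ultrafilter.mem_map, Ultrafilter.mem_map]
    have key : ∀ a ∈ A, (fun m => if h : ∃ a ∈ A, f a = m then h.choose else 0) (f a) = a := by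
      intro a ha
      have h1 : ∃ b ∈ A, f b = f a := ⟨a, ha, rfl⟩
      show (if h : ∃ b ∈ A, f b = f a then h.choose else 0) = a
      rw [dif_pos h1]
      exact hinj h1.choose_spec.1 ha h1.choose_spec.2
    constructor
    · intro hB
      refine mem_of_superset (inter_mem hB hA) ?_
      rintro a ⟨h1, h2⟩
      have h3 : (fun m => if h : ∃ a ∈ A, f a = m then h.choose else 0) (f a) ∈ B := h1
      rwa [key a h2] at h3
    · intro hB
      refine mem_of_superset (inter_mem hB hA) ?_
      rintro a ⟨h1, h2⟩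
      show (fun m => if h : ∃ a ∈ A, f a = m then h.choose else 0) (f a) ∈ B
      rw [key a h2]
      exact h1

end Pool.Agent.NMB
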