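import Pool.Agent.NMB.Main
import Pool.Agent.NMB.NotGP

/-!
# Blass's conjecture fails when `ω₁` is not Mahlo in `L(R)`

Assume CH, and assume that `ω₁` is not Mahlo in `L(R)`: some closed unbounded subset `C` of `ω₁`
and some system of unbounded functions `c δ : lam δ → δ`, `lam δ < δ`, `δ ∈ C`, belong to `L(R)`.
(Both hypotheses hold in every Levy-Solovay extension `L[G]` of `L` for an inaccessible `κ` which is
not Mahlo in `L`.) Then every set of subsets of `ω` belongs to `L(R)[p]` for some selective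
ultrafilter `p`, and for some selective ultrafilter `p` there is a nonprincipal ultrafilter `U` in
`L(R)[p]` which is not in the family `GP p`.

The definitions `num`, `real`, `fam`, `InnerModel`, `LR`, `LRp`, `sys`, `NotMahlo` are in
`Pool.Agent.NMB.Defs`, `Selective` and `GP` are in `Pool.Agent.BLA.Defs`, and `IsZFModel` is in
`Pool.Agent.H78.ZF.Model`.
-/

namespace Pool.Agent.Results.MP_5b8899_lc.NonMahlo

open Pool.Agent.BLA Pool.Agent.NMB Cardinal

theorem result (hCH : #(Set ℕ) = ℵ₁) (hM : NotMahlo) :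
    (∀ Q : Set (Set ℕ), ∃ p : Ultrafilter ℕ, Selective p ∧ fam Q ∈ LRp p) ∧
    ∃ p U : Ultrafilter ℕ, Selective p ∧ (∀ n : ℕ, ({n} : Set ℕ) ∉ U) ∧
      fam {A | A ∈ U} ∈ LRp p ∧ ¬ GP p U := by
  obtain ⟨C, lam, c, h1, h2, h3, h4, h5⟩ := hM
  have hw : Wit C lam c := ⟨h1, h2, h3, h4⟩
  constructor
  · intro Q
    rcases Q.eq_empty_or_nonempty with rfl | hQ
    · obtain ⟨p, hp, _⟩ := exists_p hCH hw (Q := {∅}) (Q' := {∅}) ⟨∅, rfl⟩ ⟨∅, rfl⟩
      refine ⟨p, hp, fun M hM _ _ => ?_⟩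
      have h6 : fam ∅ = Ordinal.toZFSet 0 := by
        rw [Ordinal.toZFSet_zero]
        ext z
        rw [mem_fam]
        simp
      rw [h6]
      exact hM.ord 0
    · obtain ⟨p, hp, h⟩ := exists_p hCH hw hQ hQ
      exact ⟨p, hp, fun M hM hR hpM => (h ⟨M, hM, hR⟩ hpM (h5 M hM hR)).1⟩
  · obtain ⟨q, q', hq, hq', hP, hP', hqq⟩ := exists_two hCH hw
    obtain ⟨p, hp, h⟩ := exists_p hCH hw (Q := {A | A ∈ q}) (Q' := {A | A ∈ q'})
      ⟨Set.univ, Filter.univ_mem⟩ ⟨Set.univ, Filter.univ_mem⟩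
    by_cases hc : ∃ f : ℕ → ℕ, p.map f = q
    · refine ⟨p, q', hp, hq'.1, fun M hM hR hpM => (h ⟨M, hM, hR⟩ hpM (h5 M hM hR)).2, ?_⟩
      intro hG
      obtain ⟨f, hf⟩ := hc
      obtain ⟨g, hg⟩ := selective_image hp hf hq.1
      refine GP_ppoint hP' (fun f' hf' => ?_) hG id (Ultrafilter.coe_injective rfl)
      apply hqq (f' ∘ g)
      rw [← hf', ← hg]
      exact Ultrafilter.coe_injective rfl
    · push Not at hc
      refine ⟨p, q, hp, hq.1, fun M hM hR hpM => (h ⟨M, hM, hR⟩ hpM (h5 M hM hR)).1, ?_⟩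
      intro hG
      exact GP_ppoint hP hc hG id (Ultrafilter.coe_injective rfl)

end Pool.Agent.Results.MP_5b8899_lc.NonMahlo
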