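import Pool.Agent.NMB.Defs

/-!
# Operations on sets of natural numbers

`slice x n` (`n ∈ ℕ`) is an independent family of subsets of the infinite set `x`, and `T x s` is a
pseudo-intersection of the `slice x n` (`n ∈ s`) and of the complements of the others.
-/

namespace Pool.Agent.NMB

open Set
open Pool.Agent.BLA (Agree)

/-- A bijection between `ℕ` and the finite subsets of `ℕ`. -/
noncomputable def dc : ℕ ≃ Finset ℕ := (Denumerable.eqv (Finset ℕ)).symm

open Classical in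
/-- The number of elements of `x` below `a`. -/
noncomputable def cnt (x : Set ℕ) (a : ℕ) : ℕ := Nat.count (· ∈ x) a

theorem cnt_inj {x : Set ℕ} {a b : ℕ} (ha : a ∈ x) (hb : b ∈ x) (h : cnt x a = cnt x b) :
    a = b := by
  classical
  exact Nat.count_injective ha hb h

theorem exists_cnt {x : Set ℕ} (hx : x.Infinite) (i : ℕ) : ∃ a ∈ x, cnt x a = i := by
  classical
  exact ⟨Nat.nth (· ∈ x) i, Nat.nth_mem_of_infinite hx i, Nat.count_nth_of_infinite hx i⟩

theorem cnt_congr {x y : Set ℕ} {a : ℕ} (h : Agree a x y) : cnt x a = cnt y a := by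
  classical
  unfold cnt
  rw [Nat.count_eq_card_filter_range, Nat.count_eq_card_filter_range]
  congr 1
  ext i
  simp only [Finset.mem_filter, Finset.mem_range]
  constructor
  · rintro ⟨h1, h2⟩; exact ⟨h1, (h i h1).1 h2⟩
  · rintro ⟨h1, h2⟩; exact ⟨h1, (h i h1).2 h2⟩

/-- The `n`-th set of the independent family on `x`. -/
def slice (x : Set ℕ) (n : ℕ) : Set ℕ := {a | a ∈ x ∧ n ∈ dc (cnt x a)}

/-- The pseudo-intersection with pattern `s`. -/
def T (x s : Set ℕ) : Set ℕ := {a | a ∈ x ∧ ∃ k ∈ s, (dc (cnt x a) : Set ℕ) = s ∩ Iic k}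

theorem T_sub (x s : Set ℕ) : T x s ⊆ x := fun _ h => h.1

theorem T_slice_of_mem {x s : Set ℕ} {n : ℕ} (hn : n ∈ s) : (T x s \ slice x n).Finite := by
  have h1 : (T x s \ slice x n) ⊆ ⋃ k ∈ Iio n, {a | a ∈ x ∧ (dc (cnt x a) : Set ℕ) = s ∩ Iic k} := by
    rintro a ⟨⟨hax, k, hk, e⟩, ha⟩
    simp only [mem_iUnion, mem_Iio]
    refine ⟨k, ?_, hax, e⟩
    by_contra hkn
    apply ha
    refine ⟨hax, ?_⟩
    have : n ∈ (dc (cnt x a) : Set ℕ) := by
      rw [e]; exact ⟨hn, by simpa using hkn⟩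
    exact this
  refine Finite.subset (Finite.biUnion (finite_Iio n) fun k _ => ?_) h1
  apply Set.Subsingleton.finite
  rintro a ⟨ha, e⟩ b ⟨hb, e'⟩
  apply cnt_inj ha hb
  apply dc.injective
  apply Finset.coe_injective
  rw [e, e']

theorem T_slice_of_not_mem {x s : Set ℕ} {n : ℕ} (hn : n ∉ s) : T x s ∩ slice x n = ∅ := by
  ext a
  simp only [mem_inter_iff, mem_empty_iff_false, iff_false, not_and]
  rintro ⟨hax, k, hk, e⟩ ⟨_, h⟩
  have : n ∈ (dc (cnt x a) : Set ℕ) := h
  rw [e] at this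
  exact hn this.1

/-- The family of the numbers coded by `s`. -/
def pay (s : Set ℕ) : Set ℕ := {n | ∃ m ∈ s, Odd m ∧ cnt s m = n}

/-- The three components of the payload. -/
def payA (s : Set ℕ) : Set ℕ := {n | 3 * n ∈ pay s}

/-- The predecessors of `n` in the coded relation. -/
def payW (s : Set ℕ) (n : ℕ) : Set ℕ := {m | 3 * Nat.pair m n + 1 ∈ pay s}

/-- The third component. -/
def payB (s : Set ℕ) : Set ℕ := {n | 3 * n + 2 ∈ pay s}

/-- `F` is an open operation: `a ∈ F x y` is decided by finite parts of `x` and `y`. -/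
def OpenOp (F : Set ℕ → Set ℕ → Set ℕ) : Prop :=
  ∀ x y a, a ∈ F x y → ∃ k, ∀ x' y', Agree k x x' → Agree k y y' → a ∈ F x' y'

theorem Agree.mono {k l : ℕ} {A B : Set ℕ} (h : Agree l A B) (hkl : k ≤ l) : Agree k A B :=
  fun i hi => h i (hi.trans_le hkl)

theorem open_slice : OpenOp fun x y => {a | ∃ n, n ∉ y ∧ (∀ i < n, i ∈ y) ∧ a ∈ slice x n} := by
  rintro x y a ⟨n, hn, hi, ha1, ha2⟩
  refine ⟨a + n + 1, fun x' y' hx hy => ⟨n, ?_, ?_, ?_, ?_⟩⟩
  · rwa [← hy n (by omega)]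
  · intro i hin
    rw [← hy i (by omega)]; exact hi i hin
  · rwa [← hx a (by omega)]
  · rw [← cnt_congr (Agree.mono hx (by omega))]; exact ha2

theorem open_T : OpenOp T := by
  rintro x y a ⟨ha, k, hk, e⟩
  refine ⟨a + k + 1, fun x' y' hx hy => ⟨?_, k, ?_, ?_⟩⟩
  · rwa [← hx a (by omega)]
  · rwa [← hy k (by omega)]
  · rw [← cnt_congr (Agree.mono hx (by omega)), e]
    ext i
    simp only [mem_inter_iff, mem_Iic]
    constructor
    · rintro ⟨h1, h2⟩; exact ⟨(hy i (by omega)).1 h1, h2⟩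
    · rintro ⟨h1, h2⟩; exact ⟨(hy i (by omega)).2 h1, h2⟩

theorem open_pay {s : Set ℕ} {n : ℕ} (h : n ∈ pay s) : ∃ k, ∀ s', Agree k s s' → n ∈ pay s' := by
  obtain ⟨m, hm, ho, hc⟩ := h
  refine ⟨m + 1, fun s' hs => ⟨m, (hs m (by omega)).1 hm, ho, ?_⟩⟩
  rw [← cnt_congr (Agree.mono hs (by omega))]; exact hc

theorem open_payA : OpenOp fun x _ => payA x := by
  intro x y a ha
  obtain ⟨k, hk⟩ := open_pay ha
  exact ⟨k, fun x' y' hx _ => hk x' hx⟩

theorem open_payB : OpenOp fun x _ => payB x := by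
  intro x y a ha
  obtain ⟨k, hk⟩ := open_pay ha
  exact ⟨k, fun x' y' hx _ => hk x' hx⟩

theorem open_payW : OpenOp fun x y => {a | ∃ n, n ∉ y ∧ (∀ i < n, i ∈ y) ∧ a ∈ payW x n} := by
  rintro x y a ⟨n, hn, hi, ha⟩
  obtain ⟨k, hk⟩ := open_pay ha
  refine ⟨k + n + 1, fun x' y' hx hy => ⟨n, ?_, ?_, hk x' (Agree.mono hx (by omega))⟩⟩
  · rwa [← hy n (by omega)]
  · intro i hin
    rw [← hy i (by omega)]; exact hi i hin

/-- An initial segment of `ℕ` as an argument. -/
theorem iio_eq (P : ℕ → Prop) (m : ℕ) :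
    (∃ n, n ∉ Iio m ∧ (∀ i < n, i ∈ Iio m) ∧ P n) ↔ P m := by
  constructor
  · rintro ⟨n, h1, h2, h3⟩
    have : n = m := by
      simp only [mem_Iio, not_lt] at h1 h2
      rcases Nat.lt_or_ge m n with h | h
      · exact absurd (h2 m h) (lt_irrefl _)
      · exact le_antisymm h h1
    rwa [← this]
  · intro h
    exact ⟨m, by simp, fun i hi => hi, h⟩

/-- The element of `x` whose number of predecessors codes `F`. -/
theorem exists_t {x : Set ℕ} (hx : x.Infinite) : ∃ t : Finset ℕ → ℕ, Function.Injective t ∧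
    (∀ F, t F ∈ x) ∧ ∀ F, dc (cnt x (t F)) = F := by
  choose t ht using fun F : Finset ℕ => exists_cnt hx (dc.symm F)
  refine ⟨t, fun F G h => ?_, fun F => (ht F).1, fun F => by rw [(ht F).2]; simp⟩
  have h1 := (ht F).2
  rw [h, (ht G).2] at h1
  exact (dc.symm.injective h1).symm

theorem exists_step {t : Finset ℕ → ℕ} (ht : Function.Injective t) (F : Finset ℕ) (N : ℕ)
    (b : Prop) : ∃ m, (∀ i ∈ F, i < m) ∧ (Odd m ↔ b) ∧ N < t (insert m F) := by
  classical
  by_contra hc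
  push Not at hc
  obtain ⟨B, hB⟩ : ∃ B, ∀ i ∈ F, i < B := ⟨F.sup id + 1, fun i hi => by
    have := Finset.le_sup (f := id) hi
    simp only [id] at this
    omega⟩
  obtain ⟨c, hc1⟩ : ∃ c, ∀ k, (Odd (2 * k + c) ↔ b) := by
    by_cases hb : b
    · refine ⟨1, fun k => ?_⟩
      simp [hb]
    · refine ⟨0, fun k => ?_⟩
      simp [hb]
  have h1 : ∀ k, t (insert (2 * (k + B) + c) F) ≤ N := by
    intro k
    apply hc
    · intro i hi
      have := hB i hi
      omega
    · exact hc1 _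
  have hinj : Function.Injective fun k => t (insert (2 * (k + B) + c) F) := by
    intro k l h
    have h2 := ht h
    have h3 : 2 * (k + B) + c ∈ insert (2 * (l + B) + c) F := by
      rw [← h2]; exact Finset.mem_insert_self _ _
    rw [Finset.mem_insert] at h3
    rcases h3 with h3 | h3
    · omega
    · have := hB _ h3
      omega
  exact Set.infinite_range_of_injective hinj
    ((finite_Iic N).subset (by rintro _ ⟨k, rfl⟩; exact h1 k))

/-- Existence of a sparse set with a given payload. -/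
theorem exists_s {x : Set ℕ} (hx : x.Infinite) (r : Set ℕ) (g : ℕ → ℕ) :
    ∃ s : Set ℕ, s.Infinite ∧ pay s = r ∧ ∀ a ∈ T x s, ∀ b ∈ T x s, a < b → g a < b := by
  classical
  obtain ⟨t, ht, htx, htd⟩ := exists_t hx
  choose nx h1 h2 h3 using fun (F : Finset ℕ) (N : ℕ) (b : Prop) => exists_step ht F N b
  let step : ℕ → Finset ℕ × ℕ → Finset ℕ × ℕ := fun j S =>
    (insert (nx S.1 S.2 (j ∈ r)) S.1,
      max S.2 (max (t (insert (nx S.1 S.2 (j ∈ r)) S.1))
        (g (t (insert (nx S.1 S.2 (j ∈ r)) S.1)))))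
  let st : ℕ → Finset ℕ × ℕ := fun n => Nat.rec (∅, 0) step n
  have hst : ∀ n, st (n + 1) = step n (st n) := fun n => rfl
  let m : ℕ → ℕ := fun j => nx (st j).1 (st j).2 (j ∈ r)
  have hF : ∀ j, (st (j + 1)).1 = insert (m j) (st j).1 := fun j => rfl
  have hN : ∀ j, (st (j + 1)).2 = max (st j).2 (max (t (st (j + 1)).1) (g (t (st (j + 1)).1))) :=
    fun j => rfl
  have hmem : ∀ j i, i ∈ (st j).1 ↔ ∃ l < j, m l = i := by
    intro j
    induction j with
    | zero => intro i; simp [st]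
    | succ j ih =>
      intro i
      rw [hF, Finset.mem_insert, ih]
      constructor
      · rintro (rfl | ⟨l, hl, rfl⟩)
        · exact ⟨j, by omega, rfl⟩
        · exact ⟨l, by omega, rfl⟩
      · rintro ⟨l, hl, rfl⟩
        rcases Nat.lt_succ_iff_lt_or_eq.1 hl with h | rfl
        · exact Or.inr ⟨l, h, rfl⟩
        · exact Or.inl rfl
  have hmono : StrictMono m := by
    apply strictMono_nat_of_lt_succ
    intro j
    exact h1 _ _ _ (m j) (by rw [hF]; exact Finset.mem_insert_self _ _)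
  have hNm : ∀ i j, i < j → max (t (st (i + 1)).1) (g (t (st (i + 1)).1)) ≤ (st j).2 := by
    intro i j hij
    induction j with
    | zero => omega
    | succ j ih =>
      rcases Nat.lt_succ_iff_lt_or_eq.1 hij with h | rfl
      · rw [hN j]; exact (ih h).trans (le_max_left _ _)
      · rw [hN i]; exact le_max_right _ _
  have htN : ∀ j, (st j).2 < t (st (j + 1)).1 := by
    intro j
    rw [hF]
    exact h3 _ _ _
  have hlt : ∀ i j, i < j → t (st (i + 1)).1 < t (st (j + 1)).1 ∧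
      g (t (st (i + 1)).1) < t (st (j + 1)).1 := by
    intro i j hij
    have h4 := hNm i j hij
    have h5 := htN j
    have h6 := le_max_left (t (st (i + 1)).1) (g (t (st (i + 1)).1))
    have h7 := le_max_right (t (st (i + 1)).1) (g (t (st (i + 1)).1))
    constructor <;> omega
  have hcnt : ∀ j, cnt (range m) (m j) = j := by
    intro j
    unfold cnt
    rw [Nat.count_eq_card_filter_range]
    have : (Finset.range (m j)).filter (· ∈ range m) = (Finset.range j).image m := by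
      ext i
      simp only [Finset.mem_filter, Finset.mem_range, mem_range, Finset.mem_image]
      constructor
      · rintro ⟨hi, l, rfl⟩
        exact ⟨l, hmono.lt_iff_lt.1 hi, rfl⟩
      · rintro ⟨l, hl, rfl⟩
        exact ⟨hmono hl, l, rfl⟩
    rw [this, Finset.card_image_of_injective _ hmono.injective, Finset.card_range]
  refine ⟨range m, infinite_range_of_injective hmono.injective, ?_, ?_⟩
  · ext n
    constructor
    · rintro ⟨_, ⟨j, rfl⟩, ho, hc⟩
      rw [hcnt] at hc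
      subst hc
      exact (h2 _ _ _).1 ho
    · intro hn
      exact ⟨m n, ⟨n, rfl⟩, (h2 _ _ _).2 hn, hcnt n⟩
  · have hT : ∀ a ∈ T x (range m), ∃ j, a = t (st (j + 1)).1 := by
      rintro a ⟨hax, _, ⟨j, rfl⟩, e⟩
      refine ⟨j, ?_⟩
      apply cnt_inj hax (htx _)
      apply dc.injective
      rw [htd]
      apply Finset.coe_injective
      rw [e]
      ext i
      simp only [mem_inter_iff, mem_range, mem_Iic, Finset.mem_coe, hmem]
      constructor
      · rintro ⟨⟨l, rfl⟩, hl⟩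
        exact ⟨l, Nat.lt_succ_of_le (hmono.le_iff_le.1 hl), rfl⟩
      · rintro ⟨l, hl, rfl⟩
        exact ⟨⟨l, rfl⟩, hmono.monotone (Nat.le_of_lt_succ hl)⟩
    intro a ha b hb hab
    obtain ⟨i, rfl⟩ := hT a ha
    obtain ⟨j, rfl⟩ := hT b hb
    have hij : i < j := by
      by_contra hc
      push Not at hc
      rcases hc.lt_or_eq with h | rfl
      · exact absurd (hlt j i h).1 (by omega)
      · exact absurd hab (lt_irrefl _)
    exact (hlt i j hij).2

theorem T_infinite {x s : Set ℕ} (hx : x.Infinite) (hs : s.Infinite) : (T x s).Infinite := by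
  classical
  obtain ⟨t, ht, htx, htd⟩ := exists_t hx
  have h1 : ∀ k ∈ s, t ((finite_Iic k).inter_of_right s).toFinset ∈ T x s := by
    intro k hk
    exact ⟨htx _, k, hk, by rw [htd]; simp⟩
  apply Set.infinite_of_injOn_mapsTo (f := fun k => t ((finite_Iic k).inter_of_right s).toFinset)
    (s := s) _ (fun k hk => h1 k hk) hs
  intro k hk l hl h
  have h2 := congrArg (fun F : Finset ℕ => (F : Set ℕ)) (ht h)
  simp only [Finite.coe_toFinset] at h2
  have h3 : k ∈ s ∩ Iic l := by rw [← h2]; exact ⟨hk, mem_Iic.2 le_rfl⟩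
  have h4 : l ∈ s ∩ Iic k := by rw [h2]; exact ⟨hl, mem_Iic.2 le_rfl⟩
  exact le_antisymm h3.2 h4.2

/-- The canonical pseudo-intersection of a sequence of sets. -/
def PI (Y : ℕ → Set ℕ) : Set ℕ := {a | ∃ k, k ≤ a ∧ a ∈ Y k ∧ ∀ b < a, k ≤ b → b ∉ Y k}

theorem PI_infinite {Y : ℕ → Set ℕ} (h : ∀ k, (Y k).Infinite) : (PI Y).Infinite := by
  classical
  rw [Set.infinite_iff_exists_gt] 
  intro n
  have h1 : ∃ a, n + 1 ≤ a ∧ a ∈ Y (n + 1) := by
    obtain ⟨a, ha, hn⟩ := (h (n + 1)).exists_gt n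
    exact ⟨a, hn, ha⟩
  refine ⟨Nat.find h1, ⟨n + 1, (Nat.find_spec h1).1, (Nat.find_spec h1).2, ?_⟩, ?_⟩
  · intro b hb hn hY
    exact Nat.find_min h1 hb ⟨hn, hY⟩
  · exact (Nat.find_spec h1).1

theorem PI_sub {Y : ℕ → Set ℕ} (h : Antitone Y) (k : ℕ) : (PI Y \ Y k).Finite := by
  have h1 : PI Y \ Y k ⊆ ⋃ i ∈ Iio k, {a | i ≤ a ∧ a ∈ Y i ∧ ∀ b < a, i ≤ b → b ∉ Y i} := by
    rintro a ⟨⟨i, hi⟩, ha⟩
    simp only [mem_iUnion, mem_Iio]
    refine ⟨i, ?_, hi⟩
    by_contra hc
    push Not at hc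
    exact ha (h hc hi.2.1)
  refine Finite.subset (Finite.biUnion (finite_Iio k) fun i _ => ?_) h1
  apply Set.Subsingleton.finite
  rintro a ⟨ha1, ha2, ha3⟩ b ⟨hb1, hb2, hb3⟩
  rcases lt_trichotomy a b with hab | hab | hab
  · exact absurd ha2 (hb3 a hab ha1)
  · exact hab
  · exact absurd hb2 (ha3 b hab hb1)

end Pool.Agent.NMB
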