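import Pool.Agent.NMB.Op

/-!
# The tower

`X ξ`, `ξ < ω₁`, is a sequence of infinite sets, decreasing modulo finite sets; the next set is a
canonical subset of `T (X ξ) s`, where `s = S ξ (X ξ)` is an arbitrary infinite set, and at limits
the canonical pseudo-intersection along a canonical sequence is taken.
-/

namespace Pool.Agent.NMB

open Set Ordinal

/-- Data for the construction of the tower. -/
structure TData where
  D : Ordinal.{0} → Ordinal.{0} → Ordinal.{0} → Ordinal.{0} → Prop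
  e : Ordinal.{0} → ℕ → Ordinal.{0}
  S : Ordinal.{0} → Set ℕ → Set ℕ
  hS : ∀ ξ x, (S ξ x).Infinite
  D1 : ∀ ξ ζ β γ, D ξ ζ β γ → ζ < ξ ∧ γ < ξ
  D2 : ∀ ξ ζ β γ ζ' β' γ', D ξ ζ β γ → D ξ ζ' β' γ' → ζ = ζ'
  D3 : ∀ ξ ζ β γ γ', D ξ ζ β γ → D ξ ζ β γ' → γ = γ'
  D4 : ∀ ξ < om1, Order.IsSuccLimit ξ → ∀ α < ξ, ∃ ζ γ i, D ξ ζ (e ζ i) γ ∧ α ≤ γ

namespace TData

variable (d : TData)

/-- The successor step. -/
def stp (x s : Set ℕ) : Set ℕ :=
  {a | a ∈ T x s ∧ (a ∈ payA s ↔ (T x s ∩ payA s).Infinite)}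

/-- The tower. -/
noncomputable def X (ξ : Ordinal.{0}) : Set ℕ :=
  Ordinal.limitRecOn ξ Set.univ (fun ξ x => stp x (d.S ξ x))
    (fun ξ _ prev => PI (fun k => {a | ∀ i ≤ k, ∀ ζ γ, ∀ h : γ < ξ, d.D ξ ζ (d.e ζ i) γ →
      a ∈ prev γ h}))

theorem X_zero : d.X 0 = Set.univ := by
  unfold X
  rw [limitRecOn_zero]

theorem X_succ (ξ : Ordinal.{0}) : d.X (ξ + 1) = stp (d.X ξ) (d.S ξ (d.X ξ)) := by
  unfold X
  rw [limitRecOn_add_one]

/-- The sequence whose pseudo-intersection is taken at `ξ`. -/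
def Y (ξ : Ordinal.{0}) (k : ℕ) : Set ℕ :=
  {a | ∀ i ≤ k, ∀ ζ γ, d.D ξ ζ (d.e ζ i) γ → a ∈ d.X γ}

theorem X_limit {ξ : Ordinal.{0}} (h : Order.IsSuccLimit ξ) : d.X ξ = PI (d.Y ξ) := by
  unfold X
  rw [limitRecOn_limit _ _ _ _ h]
  congr 1
  funext k
  ext a
  unfold Y X
  simp only [mem_ofPred_eq]
  constructor
  · intro H i hi ζ γ hD
    exact H i hi ζ γ (d.D1 _ _ _ _ hD).2 hD
  · intro H i hi ζ γ _ hD
    exact H i hi ζ γ hD

theorem stp_infinite {x s : Set ℕ} (hx : x.Infinite) (hs : s.Infinite) : (stp x s).Infinite := by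
  have h1 := T_infinite hx hs
  by_cases h : (T x s ∩ payA s).Infinite
  · refine h.mono ?_
    rintro a ⟨ha, hb⟩
    exact ⟨ha, by simp [h, hb]⟩
  · have h2 : (T x s \ (T x s ∩ payA s)).Infinite := h1.sdiff (not_infinite.1 h)
    refine h2.mono ?_
    rintro a ⟨ha, hb⟩
    refine ⟨ha, ?_⟩
    constructor
    · intro h3; exact absurd ⟨ha, h3⟩ hb
    · intro h3; exact absurd h3 h

theorem stp_sub (x s : Set ℕ) : stp x s ⊆ x := fun _ h => T_sub x s h.1

theorem fin_trans {A B C : Set ℕ} (h : (A \ B).Finite) (h' : (B \ C).Finite) :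
    (A \ C).Finite := by
  refine (h.union h').subset ?_
  rintro a ⟨ha, hc⟩
  by_cases hb : a ∈ B
  · exact Or.inr ⟨hb, hc⟩
  · exact Or.inl ⟨ha, hb⟩

theorem Y_anti (ξ : Ordinal.{0}) : Antitone (d.Y ξ) := by
  intro k l hkl a ha i hi
  exact ha i (hi.trans hkl)

theorem main_inv (ξ : Ordinal.{0}) : ξ < om1 →
    (d.X ξ).Infinite ∧ ∀ η ≤ ξ, (d.X ξ \ d.X η).Finite := by
  induction ξ using WellFoundedLT.induction with
  | ind ξ ih =>
  intro hξ
  rcases zero_or_succ_or_isSuccLimit ξ with h | ⟨o, h⟩ | h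
  · subst h
    rw [X_zero]
    refine ⟨Set.infinite_univ, fun η hη => ?_⟩
    have : η = 0 := by simpa using hη
    rw [this, X_zero]
    simp
  · have h' : ξ = o + 1 := by rw [← h]; rfl
    subst h'
    have ho : o < o + 1 := by simp
    obtain ⟨h1, h2⟩ := ih o ho (ho.trans hξ)
    rw [X_succ]
    refine ⟨stp_infinite h1 (d.hS _ _), fun η hη => ?_⟩
    rcases hη.lt_or_eq with h3 | rfl
    · refine (h2 η (Order.lt_add_one_iff.1 h3)).subset ?_
      exact sdiff_subset_sdiff_left (stp_sub _ _)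
    · rw [X_succ]; simp
  · have hY : ∀ k, ∃ δ < ξ, (d.X δ \ d.Y ξ k).Finite := by
      have key : ∀ i, ∃ δ < ξ, (d.X δ \ {a | ∀ ζ γ, d.D ξ ζ (d.e ζ i) γ → a ∈ d.X γ}).Finite := by
        intro i
        by_cases hc : ∃ ζ γ, d.D ξ ζ (d.e ζ i) γ
        · obtain ⟨ζ, γ, hD⟩ := hc
          refine ⟨γ, (d.D1 _ _ _ _ hD).2, ?_⟩
          convert Set.finite_empty
          ext a
          simp only [mem_sdiff, mem_ofPred_eq, mem_empty_iff_false, iff_false, not_and, not_not]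
          intro ha ζ' γ' hD'
          have e1 := d.D2 _ _ _ _ _ _ _ hD hD'
          subst e1
          have e2 := d.D3 _ _ _ _ _ hD hD'
          rwa [← e2]
        · push Not at hc
          refine ⟨0, h.bot_lt, ?_⟩
          convert Set.finite_empty
          ext a
          simp only [mem_sdiff, mem_ofPred_eq, mem_empty_iff_false, iff_false, not_and, not_not]
          intro _ ζ' γ' hD'
          exact absurd hD' (hc ζ' γ')
      intro k
      induction k with
      | zero =>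
        obtain ⟨δ, hδ, h1⟩ := key 0
        refine ⟨δ, hδ, h1.subset ?_⟩
        rintro a ⟨ha, hb⟩
        refine ⟨ha, fun hc => hb ?_⟩
        intro i hi
        obtain rfl : i = 0 := by omega
        exact hc
      | succ k ihk =>
        obtain ⟨δ, hδ, h1⟩ := key (k + 1)
        obtain ⟨δ', hδ', h1'⟩ := ihk
        have hm : max δ δ' < ξ := max_lt hδ hδ'
        have i1 := (ih _ hm (hm.trans hξ)).2 δ (le_max_left _ _)
        have i2 := (ih _ hm (hm.trans hξ)).2 δ' (le_max_right _ _)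
        refine ⟨max δ δ', hm, ((fin_trans i1 h1).union (fin_trans i2 h1')).subset ?_⟩
        rintro a ⟨ha, hb⟩
        by_cases hc : a ∈ d.Y ξ k
        · left
          refine ⟨ha, fun hc' => hb ?_⟩
          intro i hi
          rcases Nat.le_succ_iff.1 hi with h3 | h3
          · exact hc i h3
          · subst h3; exact hc'
        · exact Or.inr ⟨ha, hc⟩
    have hYinf : ∀ k, (d.Y ξ k).Infinite := by
      intro k hfin
      obtain ⟨δ, hδ, h1⟩ := hY k
      refine (ih δ hδ (hδ.trans hξ)).1 ((h1.union hfin).subset ?_)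
      intro a ha
      by_cases hb : a ∈ d.Y ξ k
      · exact Or.inr hb
      · exact Or.inl ⟨ha, hb⟩
    rw [d.X_limit h]
    refine ⟨PI_infinite hYinf, fun η hη => ?_⟩
    rcases hη.lt_or_eq with h3 | rfl
    · obtain ⟨ζ, γ, i, hD, hγ⟩ := d.D4 ξ hξ h η h3
      have hγξ := (d.D1 _ _ _ _ hD).2
      have h4 : (PI (d.Y ξ) \ d.X γ).Finite := by
        refine (PI_sub (d.Y_anti ξ) i).subset ?_
        rintro a ⟨ha, hb⟩
        exact ⟨ha, fun hc => hb (hc i le_rfl ζ γ hD)⟩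
      exact fin_trans h4 ((ih γ hγξ (hγξ.trans hξ)).2 η hγ)
    · rw [d.X_limit h]; simp

end TData

end Pool.Agent.NMB
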